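import Pool.Agent.H85.GX.Main
import Pool.Agent.H85.GT.NsTs

/-!
helper85: certificates with binomial coefficients for exactly-one families.
-/

set_option autoImplicit false
open Finset

namespace PPh.TU

open ACpFrege ACpB ACpSep PPh

theorem fm_sum {α β R : Type} [AddCommMonoid R] (l : List α) (f : α → List β) (g : β → R) :
    ((l.flatMap f).map g).sum = (l.map fun a => ((f a).map g).sum).sum := by
  induction l with
  | nil => simp
  | cons a l ih => rw [List.flatMap_cons, List.map_append, List.sum_append, ih, List.map_cons, List.sum_cons]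

theorem rg_sum {R : Type} [AddCommMonoid R] (n : ℕ) (f : ℕ → R) : ((List.range n).map f).sum = ∑ i ∈ range n, f i := by
  induction n with
  | zero => simp
  | succ n ih => rw [List.range_succ, List.map_append, List.sum_append, ih, List.map_singleton, List.sum_singleton, Finset.sum_range_succ]

variable {p : ℕ}

/-- The coefficient of the linear term. -/
def coE (S : ℕ) : ℕ → ℕ
  | 0 => 0
  | b + 1 => S.choose b

theorem vdm (S g b : ℕ) : (((S + g).choose b : ℕ) : ZMod p) - (((S + 1).choose b : ℕ) : ZMod p) =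
    (coE S b : ZMod p) * ((g : ZMod p) - 1) + ∑ i ∈ range (b + 1), if 2 ≤ i then ((g.choose i : ℕ) : ZMod p) * ((S.choose (b - i) : ℕ) : ZMod p) else 0 := by
  have h : (((S + g).choose b : ℕ) : ZMod p) = ∑ i ∈ range (b + 1), ((g.choose i : ℕ) : ZMod p) * ((S.choose (b - i) : ℕ) : ZMod p) := by
    rw [Nat.add_comm S g, Nat.add_choose_eq, Finset.Nat.sum_antidiagonal_eq_sum_range_succ fun a b => g.choose a * S.choose b]
    push_cast
    rfl
  rw [h]
  cases b with
  | zero => simp [coE]
  | succ b =>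
    rw [Finset.sum_range_succ', Finset.sum_range_succ', Finset.sum_range_succ' (fun i => if 2 ≤ i then _ else _),
      Finset.sum_range_succ' (fun i => if 2 ≤ i + 1 then _ else _)]
    simp only [coE]
    rw [Nat.choose_succ_succ]
    have h1 : ∀ i ∈ range b, (if 2 ≤ i + 1 + 1 then ((g.choose (i + 1 + 1) : ℕ) : ZMod p) * ((S.choose (b + 1 - (i + 1 + 1)) : ℕ) : ZMod p) else 0) =
        ((g.choose (i + 1 + 1) : ℕ) : ZMod p) * ((S.choose (b + 1 - (i + 1 + 1)) : ℕ) : ZMod p) := fun i _ => by
      rw [if_pos (by omega)]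
    rw [Finset.sum_congr rfl h1]
    simp
    ring

/-- The terms of the first kind of a family. -/
def cfE (p j : ℕ) (c0 : ZMod p) (E : List ℕ) (S : ℕ) (Y : List ℕ) : List (List ℕ × List ℕ) :=
  (List.range (j + 1)).flatMap fun a => (List.sublistsLen a Y).flatMap fun m =>
    List.replicate (c0 * (coE S (j - a) : ZMod p)).val (E, m)

/-- Copies of the product of a list with at least two members. -/
def pw (c : ZMod p) (m : List ℕ) : List ℕ → List (ℕ × ℕ × List ℕ)
  | e :: f :: u => List.replicate c.val (e, f, u ++ m)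
  | _ => []

/-- The terms of the second kind of a family. -/
def cfP (p j : ℕ) (c0 : ZMod p) (E : List ℕ) (S : ℕ) (Y : List ℕ) : List (ℕ × ℕ × List ℕ) :=
  (List.range (j + 1)).flatMap fun a => (List.range (j - a + 1)).flatMap fun i => (List.sublistsLen a Y).flatMap fun m =>
    (List.sublistsLen i E).flatMap fun u => pw (c0 * ((S.choose (j - a - i) : ℕ) : ZMod p)) m u

theorem cfE_sum [NeZero p] (v : ℕ → Bool) (j : ℕ) (c0 : ZMod p) (E : List ℕ) (S : ℕ) (Y : List ℕ) :
    vE p v (cfE p j c0 E S Y) = ∑ a ∈ range (j + 1), c0 * (coE S (j - a) : ZMod p) * (((E.countP v : ℕ) : ZMod p) - 1) *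
      (((Y.countP v).choose a : ℕ) : ZMod p) := by
  unfold vE cfE
  rw [fm_sum, rg_sum]
  refine Finset.sum_congr rfl fun a _ => ?_
  rw [fm_sum, ← subl_sum v (c0 * (coE S (j - a) : ZMod p) * (((E.countP v : ℕ) : ZMod p) - 1)) Y a]
  congr 1
  refine List.map_congr_left fun m _ => ?_
  rw [List.map_replicate, List.sum_replicate, nsmul_eq_mul, ZMod.natCast_zmod_val]
  split_ifs <;> simp

theorem pw_sum [NeZero p] (v : ℕ → Bool) (c : ZMod p) (m u : List ℕ) :
    vP p v (pw c m u) = if 2 ≤ u.length then (if u.all v then (if m.all v then c else 0) else 0) else 0 := by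
  match u with
  | [] => simp [pw, vP]
  | [x] => simp [pw, vP]
  | e :: f :: u =>
    unfold pw vP
    rw [List.map_replicate, List.sum_replicate, nsmul_eq_mul, ZMod.natCast_zmod_val]
    have h1 : ((e :: f :: (u ++ m)).all v) = (((e :: f :: u).all v) && m.all v) := by
      simp only [List.all_cons, List.all_append, Bool.and_assoc]
    have h0 : 2 ≤ (e :: f :: u).length := by simp
    rw [h1, if_pos h0]
    cases h2 : (e :: f :: u).all v <;> cases h3 : m.all v <;> simp

theorem cfP_sum [NeZero p] (v : ℕ → Bool) (j : ℕ) (c0 : ZMod p) (E : List ℕ) (S : ℕ) (Y : List ℕ) :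
    vP p v (cfP p j c0 E S Y) = ∑ a ∈ range (j + 1), ∑ i ∈ range (j - a + 1), if 2 ≤ i then
      c0 * (((E.countP v).choose i : ℕ) : ZMod p) * ((S.choose (j - a - i) : ℕ) : ZMod p) * (((Y.countP v).choose a : ℕ) : ZMod p) else 0 := by
  unfold vP cfP
  rw [fm_sum, rg_sum]
  refine Finset.sum_congr rfl fun a _ => ?_
  rw [fm_sum, rg_sum]
  refine Finset.sum_congr rfl fun i _ => ?_
  rw [fm_sum]
  have h1 : ∀ m : List ℕ, (((List.sublistsLen i E).flatMap fun u => pw (c0 * ((S.choose (j - a - i) : ℕ) : ZMod p)) m u).map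
      fun x => if (x.1 :: x.2.1 :: x.2.2).all v then (1 : ZMod p) else 0).sum = if m.all v then (if 2 ≤ i then
        c0 * ((S.choose (j - a - i) : ℕ) : ZMod p) * (((E.countP v).choose i : ℕ) : ZMod p) else 0) else 0 := by
    intro m
    rw [fm_sum]
    have h2 : ∀ u ∈ List.sublistsLen i E, ((pw (c0 * ((S.choose (j - a - i) : ℕ) : ZMod p)) m u).map
        fun x => if (x.1 :: x.2.1 :: x.2.2).all v then (1 : ZMod p) else 0).sum =
        if u.all v then (if 2 ≤ i then (if m.all v then c0 * ((S.choose (j - a - i) : ℕ) : ZMod p) else 0) else 0) else 0 := by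
      intro u hu
      have h3 := pw_sum v (c0 * ((S.choose (j - a - i) : ℕ) : ZMod p)) m u
      unfold vP at h3
      rw [h3, List.length_of_sublistsLen hu]
      split_ifs <;> rfl
    rw [List.map_congr_left h2, subl_sum]
    split_ifs <;> ring
  rw [List.map_congr_left fun m _ => h1 m, subl_sum]
  split_ifs <;> ring

theorem cf_sum [NeZero p] (v : ℕ → Bool) (j : ℕ) (c0 : ZMod p) (E : List ℕ) (S : ℕ) (Y : List ℕ) :
    vE p v (cfE p j c0 E S Y) + vP p v (cfP p j c0 E S Y) =
      c0 * ((((S + E.countP v + Y.countP v).choose j : ℕ) : ZMod p) - (((S + 1 + Y.countP v).choose j : ℕ) : ZMod p)) := by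
  have h4 : ∀ t y : ℕ, (((t + y).choose j : ℕ) : ZMod p) = ∑ a ∈ range (j + 1), ((t.choose (j - a) : ℕ) : ZMod p) * ((y.choose a : ℕ) : ZMod p) := by
    intro t y
    rw [Nat.add_comm t y, Nat.add_choose_eq, Finset.Nat.sum_antidiagonal_eq_sum_range_succ fun a b => y.choose a * t.choose b]
    push_cast
    exact Finset.sum_congr rfl fun a _ => mul_comm _ _
  rw [cfE_sum, cfP_sum, h4, h4, ← Finset.sum_sub_distrib, Finset.mul_sum, ← Finset.sum_add_distrib]
  refine Finset.sum_congr rfl fun a _ => ?_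
  rw [← sub_mul, vdm, add_mul, mul_add, Finset.sum_mul, Finset.mul_sum]
  congr 1
  · ring
  · refine Finset.sum_congr rfl fun i _ => ?_
    split_ifs <;> ring

/-- The certificate of a list of families, first kind. -/
def cxE (p j : ℕ) (c0 : ZMod p) : List (List ℕ) → ℕ → List (List ℕ × List ℕ)
  | [], _ => []
  | E :: Fs, S => cfE p j c0 E S Fs.flatten ++ cxE p j c0 Fs (S + 1)

/-- The certificate of a list of families, second kind. -/
def cxP (p j : ℕ) (c0 : ZMod p) : List (List ℕ) → ℕ → List (ℕ × ℕ × List ℕ)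
  | [], _ => []
  | E :: Fs, S => cfP p j c0 E S Fs.flatten ++ cxP p j c0 Fs (S + 1)

theorem vE_append (v : ℕ → Bool) (A B : List (List ℕ × List ℕ)) : vE p v (A ++ B) = vE p v A + vE p v B := by
  unfold vE
  rw [List.map_append, List.sum_append]

theorem vP_append (v : ℕ → Bool) (A B : List (ℕ × ℕ × List ℕ)) : vP p v (A ++ B) = vP p v A + vP p v B := by
  unfold vP
  rw [List.map_append, List.sum_append]

theorem cx_sum [NeZero p] (v : ℕ → Bool) (j : ℕ) (c0 : ZMod p) : ∀ (Fs : List (List ℕ)) (S : ℕ),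
    vE p v (cxE p j c0 Fs S) + vP p v (cxP p j c0 Fs S) =
      c0 * ((((S + Fs.flatten.countP v).choose j : ℕ) : ZMod p) - (((S + Fs.length).choose j : ℕ) : ZMod p)) := by
  intro Fs
  induction Fs with
  | nil =>
    intro S
    simp [cxE, cxP, vE, vP]
  | cons E Fs ih =>
    intro S
    rw [cxE, cxP, vE_append, vP_append]
    have h1 := cf_sum v j c0 E S Fs.flatten
    have h2 := ih (S + 1)
    have e1 : S + (E :: Fs).flatten.countP v = S + E.countP v + Fs.flatten.countP v := by
      rw [List.flatten_cons, List.countP_append]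
      ring
    have e2 : S + (E :: Fs).length = S + 1 + Fs.length := by
      rw [List.length_cons]
      ring
    rw [e1, e2]
    linear_combination h1 + h2

/-! ### Members -/

theorem cxE_mem (j : ℕ) (c0 : ZMod p) : ∀ (Fs : List (List ℕ)) (S : ℕ), ∀ x ∈ cxE p j c0 Fs S, x.1 ∈ Fs ∧ x.2.length ≤ j := by
  intro Fs
  induction Fs with
  | nil =>
    intro S x hx
    exact absurd hx (by simp [cxE])
  | cons E Fs ih =>
    intro S x hx
    rw [cxE] at hx
    rcases List.mem_append.1 hx with hx | hx
    · unfold cfE at hx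
      simp only [List.mem_flatMap, List.mem_range] at hx
      obtain ⟨a, ha, m, hm, hx⟩ := hx
      obtain ⟨_, rfl⟩ := List.mem_replicate.1 hx
      refine ⟨List.mem_cons_self, ?_⟩
      rw [List.length_of_sublistsLen hm]
      omega
    · have h1 := ih _ x hx
      exact ⟨List.mem_cons_of_mem _ h1.1, h1.2⟩

theorem pw_mem {c : ZMod p} {m u : List ℕ} {x : ℕ × ℕ × List ℕ} (hx : x ∈ pw c m u) : ∃ u', u = x.1 :: x.2.1 :: u' ∧ x.2.2 = u' ++ m := by
  match u with
  | [] => exact absurd hx (by simp [pw])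
  | [y] => exact absurd hx (by simp [pw])
  | e :: f :: u =>
    unfold pw at hx
    obtain ⟨_, rfl⟩ := List.mem_replicate.1 hx
    exact ⟨u, rfl, rfl⟩

theorem cxP_mem (j : ℕ) (c0 : ZMod p) : ∀ (Fs : List (List ℕ)) (S : ℕ), (∀ E ∈ Fs, E.Nodup) → ∀ x ∈ cxP p j c0 Fs S,
    (∃ E ∈ Fs, x.1 ∈ E ∧ x.2.1 ∈ E ∧ x.1 ≠ x.2.1) ∧ x.2.2.length + 2 ≤ j := by
  intro Fs
  induction Fs with
  | nil =>
    intro S _ x hx
    exact absurd hx (by simp [cxP])
  | cons E Fs ih =>
    intro S hnd x hx
    rw [cxP] at hx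
    rcases List.mem_append.1 hx with hx | hx
    · unfold cfP at hx
      simp only [List.mem_flatMap, List.mem_range] at hx
      obtain ⟨a, ha, i, hi, m, hm, u, hu, hx⟩ := hx
      obtain ⟨u', h1, h2⟩ := pw_mem hx
      have h3 := List.length_of_sublistsLen hu
      have h4 := List.length_of_sublistsLen hm
      have h5 : u.Sublist E := (List.mem_sublistsLen.1 hu).1
      refine ⟨⟨E, List.mem_cons_self, h5.subset (by rw [h1]; simp), h5.subset (by rw [h1]; simp), ?_⟩, ?_⟩
      · have h6 := h5.nodup (hnd E List.mem_cons_self)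
        rw [h1] at h6
        intro h7
        rw [List.nodup_cons] at h6
        exact h6.1 (by rw [h7]; simp)
      · rw [h2, List.length_append, h4]
        rw [h1, List.length_cons, List.length_cons] at h3
        omega
    · obtain ⟨⟨E', hE', h1⟩, h2⟩ := ih _ (fun E hE => hnd E (List.mem_cons_of_mem _ hE)) x hx
      exact ⟨⟨E', List.mem_cons_of_mem _ hE', h1⟩, h2⟩

/-! ### Lengths -/

theorem subl_len {a j bY : ℕ} (ha : a ≤ j) (Y : List ℕ) (hY : Y.length ≤ bY) : (List.sublistsLen a Y).length ≤ (bY + 1) ^ j := by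
  rw [List.length_sublistsLen]
  calc (Y.length).choose a ≤ (Y.length) ^ a := Nat.choose_le_pow _ _
    _ ≤ (bY + 1) ^ a := Nat.pow_le_pow_left (by omega) a
    _ ≤ (bY + 1) ^ j := Nat.pow_le_pow_right (by omega) ha

theorem cxE_len [NeZero p] (j bY : ℕ) (c0 : ZMod p) : ∀ (Fs : List (List ℕ)) (S : ℕ), Fs.flatten.length ≤ bY →
    (cxE p j c0 Fs S).length ≤ Fs.length * ((j + 1) * ((bY + 1) ^ j * p)) := by
  intro Fs
  induction Fs with
  | nil =>
    intro S _
    simp [cxE]
  | cons E Fs ih =>
    intro S hY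
    rw [List.flatten_cons, List.length_append] at hY
    rw [cxE, List.length_append, List.length_cons]
    have h1 := ih (S + 1) (by omega)
    have h2 : (cfE p j c0 E S Fs.flatten).length ≤ (j + 1) * ((bY + 1) ^ j * p) := by
      unfold cfE
      refine (flat_len _ _ ((bY + 1) ^ j * p) fun a ha => ?_).trans (by rw [List.length_range])
      refine (flat_len _ _ p fun m _ => ?_).trans ?_
      · rw [List.length_replicate]
        exact (ZMod.val_lt _).le
      · refine Nat.mul_le_mul_right _ (subl_len ?_ _ (by omega))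
        rw [List.mem_range] at ha
        omega
    calc _ ≤ (j + 1) * ((bY + 1) ^ j * p) + Fs.length * ((j + 1) * ((bY + 1) ^ j * p)) := Nat.add_le_add h2 h1
      _ = (Fs.length + 1) * ((j + 1) * ((bY + 1) ^ j * p)) := by ring

theorem cxP_len [NeZero p] (j bY : ℕ) (c0 : ZMod p) : ∀ (Fs : List (List ℕ)) (S : ℕ), Fs.flatten.length ≤ bY →
    (cxP p j c0 Fs S).length ≤ Fs.length * ((j + 1) * ((j + 1) * ((bY + 1) ^ j * ((bY + 1) ^ j * p)))) := by
  intro Fs
  induction Fs with
  | nil =>
    intro S _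
    simp [cxP]
  | cons E Fs ih =>
    intro S hY
    rw [List.flatten_cons, List.length_append] at hY
    rw [cxP, List.length_append, List.length_cons]
    have h1 := ih (S + 1) (by omega)
    have h2 : (cfP p j c0 E S Fs.flatten).length ≤ (j + 1) * ((j + 1) * ((bY + 1) ^ j * ((bY + 1) ^ j * p))) := by
      unfold cfP
      refine (flat_len _ _ ((j + 1) * ((bY + 1) ^ j * ((bY + 1) ^ j * p))) fun a ha => ?_).trans (by rw [List.length_range])
      rw [List.mem_range] at ha
      refine (flat_len _ _ ((bY + 1) ^ j * ((bY + 1) ^ j * p)) fun i hi => ?_).trans (Nat.mul_le_mul_right _ (by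
        rw [List.length_range]
        omega))
      rw [List.mem_range] at hi
      refine (flat_len _ _ ((bY + 1) ^ j * p) fun m _ => ?_).trans (Nat.mul_le_mul_right _ (subl_len (by omega) _ (by omega)))
      refine (flat_len _ _ p fun u _ => ?_).trans (Nat.mul_le_mul_right _ (subl_len (by omega) _ (by omega)))
      match u with
      | [] => simp [pw]
      | [y] => simp [pw]
      | e :: f :: u =>
        unfold pw
        rw [List.length_replicate]
        exact (ZMod.val_lt _).le
    calc _ ≤ (j + 1) * ((j + 1) * ((bY + 1) ^ j * ((bY + 1) ^ j * p))) +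
          Fs.length * ((j + 1) * ((j + 1) * ((bY + 1) ^ j * ((bY + 1) ^ j * p)))) := Nat.add_le_add h2 h1
      _ = (Fs.length + 1) * ((j + 1) * ((j + 1) * ((bY + 1) ^ j * ((bY + 1) ^ j * p)))) := by ring

end PPh.TU
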