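import Pool.Agent.H85.GX.Fam
import Pool.Agent.H88.AS.CUp3
import Pool.Agent.H16.CQ.CountRed

/-!
helper85: the counting principle `Count_q^N` has short refutations in Frege systems with `MOD_p` if the power of `p` in `q` does not divide `N`.
-/

set_option autoImplicit false
open Finset

namespace PPh.TU

open ACpFrege ACpB ACpSep PPh

/-- The families of the points. -/
noncomputable def cFam (q N : ℕ) : List (List ℕ) := (List.range N).map fun i => (EE q N i).map zvar

theorem cFam_len (q N : ℕ) : (cFam q N).length = N := by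
  unfold cFam
  rw [List.length_map, List.length_range]

theorem cFam_flat (q N : ℕ) : (cFam q N).flatten.length ≤ N * (blk q N).length := by
  unfold cFam
  rw [← List.flatMap_def]
  refine (flatMap_len _ _ _ fun i _ => ?_).trans (by rw [List.length_range])
  rw [List.length_map]
  exact EE_len q N i

theorem countP_flat (v : ℕ → Bool) : ∀ Fs : List (List ℕ), Fs.flatten.countP v = (Fs.map fun E => E.countP v).sum := by
  intro Fs
  induction Fs with
  | nil => simp
  | cons E Fs ih => rw [List.flatten_cons, List.countP_append, ih, List.map_cons, List.sum_cons]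

theorem cFam_count (q N : ℕ) (v : ℕ → Bool) :
    (cFam q N).flatten.countP v = q * ((Finset.range N).powersetCard q |>.filter fun e => v (zvar e) = true).card := by
  rw [countP_flat]
  unfold cFam
  rw [List.map_map, rg_sum]
  have h1 : ∀ i ∈ range N, ((fun E : List ℕ => E.countP v) ∘ fun i => (EE q N i).map zvar) i =
      ∑ e ∈ (Finset.range N).powersetCard q, if v (zvar e) = true ∧ i ∈ e then 1 else 0 := by
    intro i _
    simp only [Function.comp_apply]
    rw [List.countP_map]
    unfold EE blk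
    rw [List.countP_filter, List.countP_eq_length_filter, ← Finset.sum_filter, Finset.sum_const, smul_eq_mul, Nat.mul_one,
      ← Finset.length_toList]
    have h2 : ∀ (s : Finset (Finset ℕ)) (P : Finset ℕ → Prop) [DecidablePred P] (Q : Finset ℕ → Bool), (∀ e, Q e = true ↔ P e) →
        (s.toList.filter Q).length = ((s.filter P).toList).length := by
      intro s P _ Q hQ
      rw [Finset.length_toList]
      have h3 : (s.toList.filter Q).Nodup := s.nodup_toList.filter _
      rw [← List.toFinset_card_of_nodup h3]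
      congr 1
      ext e
      rw [List.mem_toFinset, List.mem_filter, Finset.mem_toList, Finset.mem_filter, hQ]
    refine h2 _ _ _ fun e => ?_
    simp
  rw [Finset.sum_congr rfl h1, Finset.sum_comm]
  have h3 : ∀ e ∈ (Finset.range N).powersetCard q, (∑ i ∈ range N, if v (zvar e) = true ∧ i ∈ e then 1 else 0) =
      if v (zvar e) = true then q else 0 := by
    intro e he
    rw [Finset.mem_powersetCard] at he
    by_cases hv : v (zvar e) = true
    · simp only [hv, true_and, if_true]
      rw [Finset.sum_ite_mem, Finset.inter_eq_right.2 he.1, Finset.sum_const, he.2]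
      simp
    · simp [hv]
  rw [Finset.sum_congr rfl h3, ← Finset.sum_filter, Finset.sum_const, smul_eq_mul, Nat.mul_comm]

/-- `Count_q^N` has polynomial size refutations of depth 3 in the system `SysX p` if the power of `p` in `q` does not divide `N`. -/
theorem count_upp (p : ℕ) (hp : p.Prime) (q : ℕ) (hq : 1 ≤ q) : ∃ c : ℕ, ∀ N : ℕ, ¬ p ^ (q.factorization p) ∣ N →
    ∃ π : List (Fm p), Refutes (SysX p) 3 (CountCNF q N) π ∧ psize π ≤ (N + 2) ^ c := by
  haveI : Fact p.Prime := ⟨hp⟩
  haveI : NeZero p := ⟨hp.ne_zero⟩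
  refine ⟨(3 * q + p + 3) * (4 * q + 20), ?_⟩
  intro N hN
  obtain ⟨i, hi, hc⟩ := choose_top (p := p) _ N hN
  set j := p ^ i with hj
  have hjlt : j < p ^ (q.factorization p) := Nat.pow_lt_pow_right hp.one_lt hi
  have hple : p ^ (q.factorization p) ≤ q := Nat.ordProj_le p (by omega)
  have hj1 : 1 ≤ j := Nat.one_le_pow _ _ hp.pos
  set nb := (blk q N).length with hnb
  have hnb2 : nb ≤ (N + 2) ^ q := (blk_len q N).trans (Nat.pow_le_pow_left (by omega) q)
  have h2 : ∀ m : ℕ, 2 ^ m ≤ (N + 2) ^ m := fun m => Nat.pow_le_pow_left (by omega) m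
  have hmono : ∀ {a b : ℕ}, a ≤ b → (N + 2) ^ a ≤ (N + 2) ^ b := fun h => Nat.pow_le_pow_right (by omega) h
  have hlt2 : ∀ m : ℕ, m < 2 ^ m := fun m => Nat.lt_two_pow_self
  have hdbl : ∀ m : ℕ, 2 * (N + 2) ^ m ≤ (N + 2) ^ (m + 1) := by
    intro m
    rw [pow_succ, Nat.mul_comm]
    exact Nat.mul_le_mul_left _ (by omega)
  set X := (N + 2) ^ (3 * q + p + 3) with hX
  have hNX : N + 2 ≤ (N + 2) ^ (q + 1) := by
    calc N + 2 = (N + 2) ^ 1 := (pow_one _).symm
      _ ≤ _ := hmono (by omega)
  have b1 : (CountCNF q N).length ≤ X := by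
    refine (cnf_len q N).trans ?_
    rw [← hnb]
    have h3 : nb * nb ≤ (N + 2) ^ q * (N + 2) ^ q := Nat.mul_le_mul hnb2 hnb2
    have h4 : (N + 2) ^ q * (N + 2) ^ q = (N + 2) ^ (2 * q) := by ring
    have h5 : (N + 2) ^ (q + 1) ≤ (N + 2) ^ (2 * q + 1) := hmono (by omega)
    have h6 : (N + 2) ^ (2 * q) ≤ (N + 2) ^ (2 * q + 1) := hmono (by omega)
    have h7 := hdbl (2 * q + 1)
    have h8 : (N + 2) ^ (2 * q + 1 + 1) ≤ X := hmono (by omega)
    omega
  have b2 : nb + 2 ≤ X := by
    have h3 : (N + 2) ^ q ≤ (N + 2) ^ (q + 1) := hmono (by omega)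
    have h7 := hdbl (q + 1)
    have h8 : (N + 2) ^ (q + 1 + 1) ≤ X := hmono (by omega)
    omega
  have b3 : N * nb + 1 ≤ X := by
    have h3 : N * nb ≤ (N + 2) * (N + 2) ^ q := Nat.mul_le_mul (by omega) hnb2
    have h4 : (N + 2) * (N + 2) ^ q = (N + 2) ^ (q + 1) := by ring
    have h7 := hdbl (q + 1)
    have h8 : (N + 2) ^ (q + 1 + 1) ≤ X := hmono (by omega)
    omega
  have b4 : j + 1 ≤ X := by
    have h3 := hlt2 q
    have h4 := h2 q
    have h8 : (N + 2) ^ q ≤ X := hmono (by omega)
    omega
  have b5 : p ≤ X := by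
    have h3 := hlt2 p
    have h4 := h2 p
    have h8 : (N + 2) ^ p ≤ X := hmono (by omega)
    omega
  have b6 : 3 ≤ X := by
    have h4 := h2 2
    have h8 : (N + 2) ^ 2 ≤ X := hmono (by omega)
    omega
  have b7 : N ≤ X := by
    have h8 : (N + 2) ^ (q + 1) ≤ X := hmono (by omega)
    omega
  have hfl := cFam_flat q N
  rw [← hnb] at hfl
  obtain ⟨π, h3, h4⟩ := nx_fam (p := p) (F := CountCNF q N) (j := j) (w := nb + 2) (X := X) (cFam q N) [] 1 0 (by
    intro E hE
    unfold cFam at hE
    obtain ⟨i, _, rfl⟩ := List.mem_map.1 hE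
    exact (EE_nodup q N i).map fun _ _ h => zvar_inj h) (by simp) (by
    intro E hE e he f hf hne
    unfold cFam at hE
    obtain ⟨i, _, rfl⟩ := List.mem_map.1 hE
    obtain ⟨e', he', rfl⟩ := List.mem_map.1 he
    obtain ⟨f', hf', rfl⟩ := List.mem_map.1 hf
    exact Or.inl (pair_mem q N i e' f' he' hf' fun h => hne (by rw [h]))) (by simp) (by
    intro E hE
    unfold cFam at hE
    obtain ⟨i, hi, rfl⟩ := List.mem_map.1 hE
    rw [List.map_map]
    exact point_mem q N i (List.mem_range.1 hi)) (by simp) (clause_len q N) b6 b1 b2 (by omega) (by simp; omega) (by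
      rw [cFam_len]
      exact b7) (by simp) b4 b5 (c := - ((N.choose j : ℕ) : ZMod p)) (neg_ne_zero.2 hc) (by
      intro v
      rw [cFam_len, cFam_count]
      have h5 : ∀ t : ℕ, (((q * t).choose j : ℕ) : ZMod p) = 0 := by
        intro t
        rw [choose_per (p := p) (q.factorization p) (q * t) 0 j ?_ hjlt]
        · rw [Nat.choose_eq_zero_of_lt (by omega)]
          simp
        · exact (Nat.modEq_zero_iff_dvd.2 ((Nat.ordProj_dvd q p).trans (Nat.dvd_mul_right q t)))
      rw [h5]
      ring)
  refine ⟨π, h3, h4.trans ?_⟩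
  have h5 : X ^ (4 * j + 20) ≤ X ^ (4 * q + 20) := Nat.pow_le_pow_right (by omega) (by omega)
  refine h5.trans (le_of_eq ?_)
  rw [hX, ← pow_mul]

end PPh.TU
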