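import Pool.Agent.H85.GT.NsUp

/-!
helper85: from the clauses which say that exactly one variable of a list is true, the sum of the variables is 1 (bounded-depth Frege with `MOD_q`);
helper88's derivation (Pool/Agent/H88/AS/CUp.lean, CUp2.lean) for lists of variables and larger systems.
-/

set_option autoImplicit false
set_option linter.unusedSectionVars false

namespace PPh.TU.EX

open ACpFrege ACpB ACpSep PPh PPh.TU

section cu

variable {q : ℕ}

/-- The variable. -/
def V (q : ℕ) (e : ℕ) : Fm q := .var e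

/-- The variables in a list. -/
def vs (q : ℕ) (l : List ℕ) : List (Fm q) := l.map (V q)

theorem vs_append (l l' : List ℕ) : vs q (l ++ l') = vs q l ++ vs q l' := List.map_append

theorem vs_var (l : List ℕ) : ∀ A ∈ vs q l, ∃ x, A = .var x := by
  intro A hA
  unfold vs at hA
  rw [List.mem_map] at hA
  obtain ⟨e, _, rfl⟩ := hA
  exact ⟨_, rfl⟩

/-- The line `¬z_e ∨ MOD_r(l)`. -/
def Al (q : ℕ) (r : ZMod q) (e : ℕ) (l : List ℕ) : Fm q := cnL true [.neg (V q e), mdL r (vs q l)]

/-- The line `z_l ∨ MOD_1(E)`. -/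
def Kl (q : ℕ) (E l : List ℕ) : Fm q := cnL true (vs q l ++ [mdL 1 (vs q E)])

theorem size_V (e : ℕ) : (V q e).size = 1 := by
  unfold V
  rw [Fm.size]

theorem sum_vs (l : List ℕ) : ((vs q l).map Fm.size).sum = l.length := by
  rw [size_vars _ (vs_var l)]
  simp [vs]

theorem Al_size (r : ZMod q) (e : ℕ) (l : List ℕ) : (Al q r e l).size = 4 + l.length := by
  unfold Al
  rw [size_cnL, List.map_cons, List.map_cons, List.map_nil, List.sum_cons, List.sum_cons, List.sum_nil, size_mdL, sum_vs, Fm.size,
    size_V]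
  ring

theorem dep_md_any (r : ZMod q) (l : List ℕ) (c : ℕ) : (mdL r (vs q l)).dep c ≤ 1 := by
  unfold mdL
  rw [Fm.dep]
  have : (Finset.univ.sup fun i => ((vs q l).get i).dep 0) = 0 := by
    rw [← Nat.bot_eq_zero, Finset.sup_eq_bot_iff]
    intro i _
    obtain ⟨x, hx⟩ := vs_var l ((vs q l).get i) (List.get_mem _ i)
    rw [hx, Fm.dep]
    rfl
  rw [this]

theorem dep_or (l : List (Fm q)) (h : ∀ A ∈ l, ∀ c, A.dep c ≤ 1) : (cnL true l).depth ≤ 2 := by
  unfold Fm.depth cnL
  rw [Fm.dep]
  have h0 : ∀ c : ℕ, (Finset.univ.sup fun i => (l.get i).dep c) ≤ 1 := fun c =>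
    Finset.sup_le fun i _ => h _ (List.get_mem l i) c
  have h1 := h0 (if true = true then 2 else 3)
  have h2 : (if 0 = (if true = true then 2 else 3) then 0 else 1) ≤ 1 := by
    split_ifs <;> omega
  exact Nat.add_le_add h2 h1

theorem Al_depth (r : ZMod q) (e : ℕ) (l : List ℕ) : (Al q r e l).depth ≤ 2 := by
  refine dep_or _ ?_
  intro A hA c
  simp only [List.mem_cons, List.not_mem_nil, or_false] at hA
  rcases hA with rfl | rfl
  · have h := dep_lit (p := q) (e, false) c
    simpa [V] using h
  · exact dep_md_any r l c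

theorem Kl_size (E l : List ℕ) : (Kl q E l).size = 2 + l.length + E.length := by
  unfold Kl
  rw [size_cnL, List.map_append, List.sum_append, sum_vs, List.map_cons, List.map_nil, List.sum_cons, List.sum_nil, size_mdL, sum_vs]
  ring

theorem Kl_depth (E l : List ℕ) : (Kl q E l).depth ≤ 2 := by
  refine dep_or _ ?_
  intro A hA c
  rw [List.mem_append] at hA
  rcases hA with hA | hA
  · obtain ⟨x, rfl⟩ := vs_var l A hA
    rw [Fm.dep]
    omega
  · rw [List.mem_singleton] at hA
    subst hA
    exact dep_md_any 1 E c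

variable {F : CNF} {B k : ℕ} {T : Set (Fm q)}

/-! ### Single steps -/

theorem sc_ax (e : ℕ) : StepT (SysC q) F T (Al q 0 e []) := by
  refine Or.inr ⟨cAx q, by simp [SysC], fun _ => V q e, fun _ => [], ?_, ?_⟩
  · unfold cAx
    rw [inst_orS, List.flatMap_cons, List.flatMap_cons, List.flatMap_nil, inst_mdS, Sch.inst, Sch.inst]
    simp [Al, vs]
  · intro P hP
    exact absurd hP (by simp [cAx])

theorem sc_st (r : ZMod q) (hr : r = 0 ∨ r = 1) (e f : ℕ) (l : List ℕ) (h1 : Al q r e l ∈ T)
    (h2 : clauseFm [(e, false), (f, false)] ∈ T) : StepT (SysC q) F T (Al q r e (l ++ [f])) := by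
  refine Or.inr ⟨cSt q r, by rcases hr with rfl | rfl <;> simp [SysC], fun i => if i = 0 then V q e else V q f,
    fun _ => vs q l, ?_, ?_⟩
  · unfold cSt
    rw [inst_orS, List.flatMap_cons, List.flatMap_cons, List.flatMap_nil, inst_mdS]
    simp [Al, vs, Sch.inst]
  · intro P hP A hA
    simp only [cSt, List.mem_cons, List.not_mem_nil, or_false] at hP
    rcases hP with rfl | rfl
    · rw [inst_orS, List.mem_singleton] at hA
      rw [hA]
      simpa [inst_mdS, Al, vs, Sch.inst] using h1
    · rw [inst_orS, List.mem_singleton] at hA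
      rw [hA]
      simpa [clauseFm, Sch.inst, V] using h2

theorem sc_turn (e : ℕ) (l : List ℕ) (h1 : Al q 0 e l ∈ T) : StepT (SysC q) F T (Al q 1 e (l ++ [e])) := by
  refine Or.inr ⟨cTurn q, by simp [SysC], fun _ => V q e, fun _ => vs q l, ?_, ?_⟩
  · unfold cTurn
    rw [inst_orS, List.flatMap_cons, List.flatMap_cons, List.flatMap_nil, inst_mdS]
    simp [Al, vs, Sch.inst]
  · intro P hP A hA
    simp only [cTurn, List.mem_cons, List.not_mem_nil, or_false] at hP
    subst hP
    rw [inst_orS, List.mem_singleton] at hA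
    rw [hA]
    simpa [inst_mdS, Al, vs, Sch.inst] using h1

theorem sc_wk (E : List ℕ) (h : cnL true (vs q E) ∈ T) : StepT (SysC q) F T (Kl q E E) := by
  refine Or.inr ⟨cWk q, by simp [SysC], fun _ => mdL 1 (vs q E), fun _ => vs q E, ?_, ?_⟩
  · unfold cWk
    rw [inst_orS]
    simp [Kl, Sch.inst]
  · intro P hP A hA
    simp only [cWk, List.mem_cons, List.not_mem_nil, or_false] at hP
    subst hP
    rw [inst_orS, List.mem_singleton] at hA
    rw [hA]
    simpa [Sch.inst] using h

theorem sc_res (E l : List ℕ) (e : ℕ) (h1 : Kl q E (l ++ [e]) ∈ T) (h2 : Al q 1 e E ∈ T) :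
    StepT (SysC q) F T (Kl q E l) := by
  refine Or.inr ⟨cRes q, by simp [SysC], fun i => if i = 0 then V q e else mdL 1 (vs q E), fun _ => vs q l, ?_, ?_⟩
  · unfold cRes
    rw [inst_orS]
    simp [Kl, Sch.inst]
  · intro P hP A hA
    simp only [cRes, List.mem_cons, List.not_mem_nil, or_false] at hP
    rcases hP with rfl | rfl
    · rw [inst_orS, List.mem_singleton] at hA
      rw [hA]
      simpa [Kl, vs, Sch.inst] using h1
    · rw [inst_orS, List.mem_singleton] at hA
      rw [hA]
      simpa [Al, Sch.inst] using h2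

theorem sc_one (E : List ℕ) (h : Kl q E [] ∈ T) : StepT (SysC q) F T (mdL 1 (vs q E)) := by
  refine Or.inr ⟨cOne q, by simp [SysC], fun _ => mdL 1 (vs q E), fun _ => [], ?_, ?_⟩
  · simp [cOne, Sch.inst]
  · intro P hP A hA
    simp only [cOne, List.mem_cons, List.not_mem_nil, or_false] at hP
    subst hP
    rw [inst_orS, List.mem_singleton] at hA
    rw [hA]
    simpa [Kl, vs, Sch.inst] using h


end cu

section dvs

variable {q : ℕ} [NeZero q] {F : CNF} {d B k : ℕ} {T : Set (Fm q)} {S : List (Rule q)}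

/-- The clause formula of a pair. -/
def pr2 (q : ℕ) (e f : ℕ) : Fm q := clauseFm [(e, false), (f, false)]

theorem dv_A0 (hS : ∀ R ∈ SysC q, R ∈ S) (hd : 2 ≤ d) (e : ℕ) (l : List ℕ) (hl : ∀ f ∈ l, pr2 q e f ∈ T) (hB : 4 + l.length ≤ B)
    (h : Dv S F d B k T) : Dv S F d B (k + 1 + l.length) (insert (Al q 0 e l) T) := by
  induction l using List.reverseRecOn with
  | nil =>
    exact h.step (stepT_mono hS (sc_ax e)) ((Al_depth _ _ _).trans hd) (by rw [Al_size]; exact hB)
  | append_singleton l f ih =>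
    rw [List.length_append, List.length_singleton] at hB
    have h1 := ih (fun g hg => hl g (List.mem_append_left _ hg)) (by omega)
    have h2 := h1.step (stepT_mono hS (sc_st 0 (Or.inl rfl) e f l (Set.mem_insert _ _)
      (Set.mem_insert_of_mem _ (hl f (by simp))))) ((Al_depth _ _ _).trans hd) (by
        rw [Al_size, List.length_append, List.length_singleton]
        omega)
    exact h2.mono (by rw [List.length_append, List.length_singleton]; omega) (ins_mono subset_rfl)

theorem dv_A1 (hS : ∀ R ∈ SysC q, R ∈ S) (hd : 2 ≤ d) (e : ℕ) (l l2 : List ℕ) (hl : ∀ f ∈ l2, pr2 q e f ∈ T) (hB : 4 + (l ++ l2).length ≤ B)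
    (h : Dv S F d B k (insert (Al q 1 e l) T)) :
    Dv S F d B (k + l2.length) (insert (Al q 1 e (l ++ l2)) T) := by
  induction l2 using List.reverseRecOn with
  | nil =>
    rw [List.append_nil]
    exact h
  | append_singleton l2 f ih =>
    rw [← List.append_assoc, List.length_append, List.length_singleton] at hB
    have h1 := ih (fun g hg => hl g (List.mem_append_left _ hg)) (by omega)
    have h2 := h1.step (stepT_mono hS (sc_st 1 (Or.inr rfl) e f (l ++ l2) (Set.mem_insert _ _)
      (Set.mem_insert_of_mem _ (hl f (by simp))))) ((Al_depth _ _ _).trans hd) (by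
        rw [Al_size, List.length_append, List.length_singleton]
        omega)
    rw [← List.append_assoc]
    exact h2.mono (by rw [List.length_append, List.length_singleton]; omega) (ins_mono subset_rfl)

theorem dv_D (hS : ∀ R ∈ SysC q, R ∈ S) (hd : 2 ≤ d) (E : List ℕ) (hnd : E.Nodup) (e : ℕ) (he : e ∈ E) (hp : ∀ f ∈ E, e ≠ f → pr2 q e f ∈ T)
    (hB : 4 + E.length ≤ B) (h : Dv S F d B k T) :
    Dv S F d B (k + (E.length + 1)) (insert (Al q 1 e E) T) := by
  obtain ⟨l1, l2, rfl⟩ := List.append_of_mem he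
  rw [List.nodup_middle, List.nodup_cons, List.mem_append, not_or] at hnd
  rw [List.length_append, List.length_cons] at hB
  have h1 := dv_A0 hS hd e l1 (fun f hf => hp f (List.mem_append_left _ hf) fun hef => hnd.1.1 (hef ▸ hf)) (by omega) h
  have h2 := h1.step (stepT_mono hS (sc_turn e l1 (Set.mem_insert _ _))) ((Al_depth _ _ _).trans hd) (by
    rw [Al_size, List.length_append, List.length_singleton]
    omega)
  have h3 := h2.mono le_rfl (ins_mono (T' := T) subset_rfl)
  have h4 := dv_A1 hS hd e (l1 ++ [e]) l2 (fun f hf => hp f (List.mem_append_right _ (List.mem_cons_of_mem _ hf))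
    fun hef => hnd.1.2 (hef ▸ hf)) (by
      simp only [List.length_append, List.length_singleton]
      omega) h3
  rw [List.append_assoc, List.singleton_append] at h4
  refine h4.mono ?_ subset_rfl
  rw [List.length_append, List.length_cons]
  omega

theorem dv_allD (hS : ∀ R ∈ SysC q, R ∈ S) (hd : 2 ≤ d) (E : List ℕ) (hnd : E.Nodup) (hp : ∀ e ∈ E, ∀ f ∈ E, e ≠ f → pr2 q e f ∈ T)
    (hB : 4 + E.length ≤ B) (h : Dv S F d B k T) : ∀ E' : List ℕ, (∀ e ∈ E', e ∈ E) →
    Dv S F d B (k + E'.length * (E.length + 1)) (T ∪ {A | ∃ e ∈ E', A = Al q 1 e E}) := by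
  intro E'
  induction E' with
  | nil =>
    intro _
    refine h.mono (by simp) ?_
    intro A hA
    rcases hA with hA | ⟨e, he, _⟩
    · exact hA
    · exact absurd he (by simp)
  | cons e E' ih =>
    intro hE
    have h1 := ih fun e he => hE e (List.mem_cons_of_mem _ he)
    have h2 := dv_D hS hd E hnd e (hE e List.mem_cons_self) (fun f hf hne => Or.inl (hp e (hE e List.mem_cons_self) f hf hne)) hB h1
    refine h2.mono ?_ ?_
    · rw [List.length_cons]
      have : (E'.length + 1) * (E.length + 1) = E'.length * (E.length + 1) + (E.length + 1) := by ring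
      omega
    · rintro A (hA | ⟨e', he', rfl⟩)
      · exact Set.mem_insert_of_mem _ (Or.inl hA)
      · rcases List.mem_cons.1 he' with rfl | he'
        · exact Set.mem_insert _ _
        · exact Set.mem_insert_of_mem _ (Or.inr ⟨e', he', rfl⟩)

theorem dv_K (hS : ∀ R ∈ SysC q, R ∈ S) (hd : 2 ≤ d) (E : List ℕ) (hD : ∀ e ∈ E, Al q 1 e E ∈ T) (hB : 2 + 2 * E.length ≤ B) (l : List ℕ)
    (hl : ∀ e ∈ l, e ∈ E) (hlen : l.length ≤ E.length) (h : Dv S F d B k (insert (Kl q E l) T)) :
    Dv S F d B (k + l.length) (insert (Kl q E []) T) := by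
  induction l using List.reverseRecOn generalizing k with
  | nil => exact h
  | append_singleton l e ih =>
    rw [List.length_append, List.length_singleton] at hlen
    have h1 := h.step (stepT_mono hS (sc_res E l e (Set.mem_insert _ _) (Set.mem_insert_of_mem _ (hD e (hl e (by simp)))))) ((Kl_depth _ _).trans hd) (by
      rw [Kl_size]
      omega)
    have h2 := ih (fun f hf => hl f (List.mem_append_left _ hf)) (by omega) (h1.mono le_rfl (ins_mono subset_rfl))
    exact h2.mono (by rw [List.length_append, List.length_singleton]; omega) subset_rfl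

theorem clause_or (E : List ℕ) : (clauseFm (E.map fun e => (e, true)) : Fm q) = cnL true (vs q E) := by
  unfold clauseFm vs V
  rw [List.map_map]
  congr 1

/-- The line `MOD_1(E)` for a point. -/
theorem dv_point (hS : ∀ R ∈ SysC q, R ∈ S) (hd : 2 ≤ d) (E : List ℕ) (hnd : E.Nodup) (hp : ∀ e ∈ E, ∀ f ∈ E, e ≠ f → pr2 q e f ∈ T)
    (hc : (clauseFm (E.map fun e => (e, true)) : Fm q) ∈ T) (hB : 4 + 2 * E.length ≤ B) (h : Dv S F d B k T) :
    Dv S F d B (k + (E.length * (E.length + 1) + E.length + 2)) (insert (mdL 1 (vs q E)) T) := by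
  have h1 := dv_allD hS hd E hnd hp (by omega) h E fun e he => he
  set T' : Set (Fm q) := T ∪ {A | ∃ e ∈ E, A = Al q 1 e E} with hT'
  have h2 := h1.step (stepT_mono hS (sc_wk E (Or.inl (by rw [← clause_or]; exact hc)))) ((Kl_depth _ _).trans hd) (by
    rw [Kl_size]
    omega)
  have h3 := dv_K hS hd E (fun e he => Or.inr ⟨e, he, rfl⟩) (by omega) E (fun e he => he) le_rfl h2
  have hok : (mdL 1 (vs q E)).depth ≤ 2 := (dep_md_any 1 E 0).trans (by omega)
  have h4 := h3.step (stepT_mono hS (sc_one E (Set.mem_insert _ _))) (hok.trans hd) (by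
    rw [size_mdL, sum_vs]
    omega)
  refine h4.mono (by omega) ?_
  intro A hA
  rcases Set.mem_insert_iff.1 hA with h5 | h5
  · rw [h5]
    exact Set.mem_insert _ _
  · exact Set.mem_insert_of_mem _ (Set.mem_insert_of_mem _ (Or.inl h5))


end dvs

end PPh.TU.EX
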