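import Pool.Agent.H85.GX.Cert

/-!
helper85: refutations in the system `SysX` from exactly-one families.
-/

set_option autoImplicit false
open Finset

namespace PPh.TU

open ACpFrege ACpB ACpSep PPh

variable {p : ℕ} {F : CNF}

theorem fam_bound {X Z nF nE nP M w a j : ℕ} (hX : 3 ≤ X) (hZ : X ^ 3 ≤ Z) (hF : nF ≤ X) (hE : nE ≤ Z) (hP : nP ≤ Z) (hM : M ≤ X)
    (hp : p ≤ X) (hw : w ≤ X) (ha : a ≤ X) (hj : Z = X ^ j) :
    (nF + 2 + nE * (tK p M a + 1) + 3 * nP + (nE * (M + p) + nP) * (a * (a + 1) + 1)) *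
      (6 + 2 * w + (nE * (M + p) + nP + (M + p)) * (1 + a)) ≤ X ^ (2 * j + 10) := by
  have e2 : 3 * X ≤ X ^ 2 := by
    rw [pow_two]
    exact Nat.mul_le_mul_right _ hX
  have e3 : 3 * X ^ 2 ≤ X ^ 3 := by
    have : X ^ 3 = X * X ^ 2 := by ring
    rw [this]
    exact Nat.mul_le_mul_right _ hX
  have e4 : 3 * X ^ 3 ≤ X ^ 4 := by
    have : X ^ 4 = X * X ^ 3 := by ring
    rw [this]
    exact Nat.mul_le_mul_right _ hX
  have e5 : 3 * X ^ 4 ≤ X ^ 5 := by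
    have : X ^ 5 = X * X ^ 4 := by ring
    rw [this]
    exact Nat.mul_le_mul_right _ hX
  have e6 : 3 * X ^ 5 ≤ X ^ 6 := by
    have : X ^ 6 = X * X ^ 5 := by ring
    rw [this]
    exact Nat.mul_le_mul_right _ hX
  have t1 : tK p M a + 1 ≤ 6 * X ^ 2 + 6 * X + 4 := by
    have h1 : tK p M a ≤ X * X + (X * (X + 1) + X + 2) + (X + 1) + X * (2 * (X + X) + 3) := by
      unfold tK
      gcongr
    have h2 : X * X + (X * (X + 1) + X + 2) + (X + 1) + X * (2 * (X + X) + 3) = 6 * X ^ 2 + 6 * X + 3 := by ring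
    omega
  have t2 : a * (a + 1) + 1 ≤ X ^ 2 + X + 1 := by
    have h1 : a * (a + 1) ≤ X * (X + 1) := by gcongr
    have h2 : X * (X + 1) = X ^ 2 + X := by ring
    omega
  have s1 : nF + 2 + nE * (tK p M a + 1) + 3 * nP + (nE * (M + p) + nP) * (a * (a + 1) + 1) ≤ Z * X ^ 6 := by
    have h1 : nE * (tK p M a + 1) ≤ Z * (6 * X ^ 2 + 6 * X + 4) := Nat.mul_le_mul hE t1
    have h2 : (nE * (M + p) + nP) * (a * (a + 1) + 1) ≤ (Z * (X + X) + Z) * (X ^ 2 + X + 1) := by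
      refine Nat.mul_le_mul ?_ t2
      gcongr
    have h3 : nF + 2 ≤ Z := by omega
    calc _ ≤ Z + Z * (6 * X ^ 2 + 6 * X + 4) + 3 * Z + (Z * (X + X) + Z) * (X ^ 2 + X + 1) := by omega
      _ = Z * (2 * X ^ 3 + 9 * X ^ 2 + 9 * X + 9) := by ring
      _ ≤ Z * X ^ 6 := Nat.mul_le_mul_left _ (by omega)
  have s2 : 6 + 2 * w + (nE * (M + p) + nP + (M + p)) * (1 + a) ≤ Z * X ^ 4 := by
    have h1 : nE * (M + p) ≤ Z * (X + X) := by gcongr
    have h2 : (nE * (M + p) + nP + (M + p)) * (1 + a) ≤ (Z * (X + X) + Z + Z) * (1 + X) :=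
      Nat.mul_le_mul (by omega) (by omega)
    calc _ ≤ Z + (Z * (X + X) + Z + Z) * (1 + X) := by omega
      _ = Z * (2 * X ^ 2 + 4 * X + 3) := by ring
      _ ≤ Z * X ^ 4 := Nat.mul_le_mul_left _ (by omega)
  calc _ ≤ (Z * X ^ 6) * (Z * X ^ 4) := Nat.mul_le_mul s1 s2
    _ = X ^ (2 * j + 10) := by
      rw [hj]
      ring

theorem mem_flat_len {Fs : List (List ℕ)} {E : List ℕ} (h : E ∈ Fs) : E.length ≤ Fs.flatten.length := by
  rw [List.length_flatten]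
  exact List.le_sum_of_mem (List.mem_map_of_mem h)

/-- Refutations from exactly-one families. -/
theorem nx_fam [NeZero p] {j w X : ℕ} (Fs1 Fs2 : List (List ℕ)) (c1 c2 : ZMod p) (hnd1 : ∀ E ∈ Fs1, E.Nodup) (hnd2 : ∀ E ∈ Fs2, E.Nodup)
    (hp1 : ∀ E ∈ Fs1, ∀ e ∈ E, ∀ f ∈ E, e ≠ f → [(e, false), (f, false)] ∈ F ∨ [(f, false), (e, false)] ∈ F)
    (hp2 : ∀ E ∈ Fs2, ∀ e ∈ E, ∀ f ∈ E, e ≠ f → [(e, false), (f, false)] ∈ F ∨ [(f, false), (e, false)] ∈ F)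
    (hc1 : ∀ E ∈ Fs1, (E.map fun e => (e, true)) ∈ F) (hc2 : ∀ E ∈ Fs2, (E.map fun e => (e, true)) ∈ F)
    (hw : ∀ C ∈ F, C.length ≤ w) (hX : 3 ≤ X) (hF : F.length ≤ X) (hwX : w ≤ X) (hY1 : Fs1.flatten.length + 1 ≤ X)
    (hY2 : Fs2.flatten.length + 1 ≤ X) (hL1 : Fs1.length ≤ X) (hL2 : Fs2.length ≤ X) (hj : j + 1 ≤ X) (hp : p ≤ X)
    {c : ZMod p} (hne : c ≠ 0)
    (hid : ∀ v : ℕ → Bool, c1 * ((((Fs1.flatten.countP v).choose j : ℕ) : ZMod p) - ((Fs1.length.choose j : ℕ) : ZMod p)) +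
      c2 * ((((Fs2.flatten.countP v).choose j : ℕ) : ZMod p) - ((Fs2.length.choose j : ℕ) : ZMod p)) = c) :
    ∃ π : List (Fm p), Refutes (SysX p) 3 F π ∧ psize π ≤ X ^ (4 * j + 20) := by
  have hE1 : ∀ x ∈ cxE p j c1 Fs1 0, x.1 ∈ Fs1 ∧ x.2.length ≤ j := cxE_mem j c1 Fs1 0
  have hE2 : ∀ x ∈ cxE p j c2 Fs2 0, x.1 ∈ Fs2 ∧ x.2.length ≤ j := cxE_mem j c2 Fs2 0
  have hP1 := cxP_mem j c1 Fs1 0 hnd1
  have hP2 := cxP_mem j c2 Fs2 0 hnd2
  have app : ∀ {α : Type} {A B : List α} {Q : α → Prop}, (∀ x ∈ A, Q x) → (∀ x ∈ B, Q x) → ∀ x ∈ A ++ B, Q x := by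
    intro α A B Q h1 h2 x hx
    rcases List.mem_append.1 hx with h | h
    · exact h1 x h
    · exact h2 x h
  obtain ⟨π, h1, h2⟩ := nx_up (p := p) (F := F) (a := j + 1) (M := X) (w := w) (cxE p j c1 Fs1 0 ++ cxE p j c2 Fs2 0)
    (cxP p j c1 Fs1 0 ++ cxP p j c2 Fs2 0)
    (app (fun x hx => by have := mem_flat_len (hE1 x hx).1; omega) (fun x hx => by have := mem_flat_len (hE2 x hx).1; omega))
    (app (fun x hx => by have := (hE1 x hx).2; omega) (fun x hx => by have := (hE2 x hx).2; omega))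
    (app (fun x hx => hnd1 _ (hE1 x hx).1) (fun x hx => hnd2 _ (hE2 x hx).1))
    (app (fun x hx => hp1 _ (hE1 x hx).1) (fun x hx => hp2 _ (hE2 x hx).1))
    (app (fun x hx => hc1 _ (hE1 x hx).1) (fun x hx => hc2 _ (hE2 x hx).1))
    (app (fun x hx => by have := (hP1 x hx).2; omega) (fun x hx => by have := (hP2 x hx).2; omega))
    (app (fun x hx => by
      obtain ⟨⟨E, hE, h3, h4, h5⟩, _⟩ := hP1 x hx
      exact hp1 E hE _ h3 _ h4 h5) (fun x hx => by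
      obtain ⟨⟨E, hE, h3, h4, h5⟩, _⟩ := hP2 x hx
      exact hp2 E hE _ h3 _ h4 h5)) hw hne (by
      intro v
      rw [vE_append, vP_append, ← hid v]
      have h3 := cx_sum v j c1 Fs1 0
      have h4 := cx_sum v j c2 Fs2 0
      rw [Nat.zero_add, Nat.zero_add] at h3 h4
      linear_combination h3 + h4)
  refine ⟨π, h1, h2.trans ?_⟩
  have hXj : (j + 1) * (X ^ j * p) ≤ X * (X ^ j * X) := by gcongr
  have l1 : ∀ (c : ZMod p) (Fs : List (List ℕ)), Fs.flatten.length + 1 ≤ X → Fs.length ≤ X →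
      (cxE p j c Fs 0).length ≤ X * (X * (X ^ j * X)) := by
    intro c Fs h3 h4
    refine (cxE_len j (X - 1) c Fs 0 (by omega)).trans ?_
    rw [Nat.sub_add_cancel (by omega)]
    exact Nat.mul_le_mul h4 hXj
  have l2 : ∀ (c : ZMod p) (Fs : List (List ℕ)), Fs.flatten.length + 1 ≤ X → Fs.length ≤ X →
      (cxP p j c Fs 0).length ≤ X * (X * (X * (X ^ j * (X ^ j * X)))) := by
    intro c Fs h3 h4
    refine (cxP_len j (X - 1) c Fs 0 (by omega)).trans ?_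
    rw [Nat.sub_add_cancel (by omega)]
    gcongr
  have z1 : X * (X * (X ^ j * X)) = X ^ (j + 3) := by ring
  have z2 : X * (X * (X * (X ^ j * (X ^ j * X)))) = X ^ (2 * j + 4) := by ring
  have z3 : 2 * X ^ (j + 3) ≤ X ^ (2 * j + 5) := by
    calc 2 * X ^ (j + 3) ≤ X * X ^ (j + 3) := Nat.mul_le_mul_right _ (by omega)
      _ = X ^ (j + 4) := by ring
      _ ≤ X ^ (2 * j + 5) := Nat.pow_le_pow_right (by omega) (by omega)
  have z4 : 2 * X ^ (2 * j + 4) ≤ X ^ (2 * j + 5) := by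
    calc 2 * X ^ (2 * j + 4) ≤ X * X ^ (2 * j + 4) := Nat.mul_le_mul_right _ (by omega)
      _ = X ^ (2 * j + 5) := by ring
  have m1 := l1 c1 Fs1 hY1 hL1
  have m2 := l1 c2 Fs2 hY2 hL2
  have m3 := l2 c1 Fs1 hY1 hL1
  have m4 := l2 c2 Fs2 hY2 hL2
  rw [z1] at m1 m2
  rw [z2] at m3 m4
  have h5 := fam_bound (p := p) (X := X) (Z := X ^ (2 * j + 5)) (nF := F.length) (nE := (cxE p j c1 Fs1 0 ++ cxE p j c2 Fs2 0).length)
    (nP := (cxP p j c1 Fs1 0 ++ cxP p j c2 Fs2 0).length) (M := X) (w := w) (a := j + 1) (j := 2 * j + 5) hX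
    (Nat.pow_le_pow_right (by omega) (by omega)) hF (by
      rw [List.length_append]
      omega) (by
      rw [List.length_append]
      omega) le_rfl hp hwX hj rfl
  refine h5.trans (le_of_eq ?_)
  congr 1
  ring

end PPh.TU
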