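import Pool.Agent.H85.GX.Fam
import Pool.Agent.H94.PP.Defs

/-!
helper85: refutations of the onto functional pigeonhole principle in Frege systems with `MOD_p`.
-/

set_option autoImplicit false
open Finset

namespace PPh.TU

open ACpFrege ACpB ACpSep PPh

/-- The rows. -/
def rows (m n : ℕ) : List (List ℕ) := (List.range m).map fun i => (List.range n).map fun j => i * n + j

/-- The columns. -/
def cols (m n : ℕ) : List (List ℕ) := (List.range n).map fun j => (List.range m).map fun i => i * n + j

theorem rows_len (m n : ℕ) : (rows m n).length = m := by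
  unfold rows
  rw [List.length_map, List.length_range]

theorem cols_len (m n : ℕ) : (cols m n).length = n := by
  unfold cols
  rw [List.length_map, List.length_range]

theorem rows_flat (m n : ℕ) : (rows m n).flatten.length = m * n := by
  unfold rows
  rw [List.length_flatten, List.map_map]
  have : (List.length ∘ fun i => (List.range n).map fun j => i * n + j) = fun _ => n := by
    funext i
    simp
  rw [this, List.map_const', List.sum_replicate, List.length_range, smul_eq_mul]

theorem cols_flat (m n : ℕ) : (cols m n).flatten.length = n * m := by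
  unfold cols
  rw [List.length_flatten, List.map_map]
  have : (List.length ∘ fun j => (List.range m).map fun i => i * n + j) = fun _ => m := by
    funext i
    simp
  rw [this, List.map_const', List.sum_replicate, List.length_range, smul_eq_mul]

theorem countP_rg (n : ℕ) (f : ℕ → ℕ) (v : ℕ → Bool) : ((List.range n).map f).countP v = ∑ i ∈ range n, if v (f i) = true then 1 else 0 := by
  induction n with
  | zero => simp
  | succ n ih =>
    rw [List.range_succ, List.map_append, List.countP_append, ih, Finset.sum_range_succ, List.map_singleton, List.countP_singleton]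

theorem countP_rgs (n : ℕ) (f : ℕ → List ℕ) (v : ℕ → Bool) : ((List.range n).map f).flatten.countP v = ∑ i ∈ range n, (f i).countP v := by
  induction n with
  | zero => simp
  | succ n ih =>
    rw [List.range_succ, List.map_append, List.flatten_append, List.countP_append, ih, Finset.sum_range_succ, List.map_singleton,
      List.flatten_singleton]

theorem rc_count (m n : ℕ) (v : ℕ → Bool) : (cols m n).flatten.countP v = (rows m n).flatten.countP v := by
  unfold rows cols
  rw [countP_rgs, countP_rgs]
  simp only [countP_rg]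
  exact Finset.sum_comm

/-- The binomial coefficients `C(m, p^v)` and `C(n, p^v)` with `v` the exponent of `p` in `m - n` are different modulo `p`. -/
theorem choose_ne {p : ℕ} [hp : Fact p.Prime] : ∀ (v m n : ℕ), n < m → p ^ v ∣ m - n → ¬ p ^ (v + 1) ∣ m - n →
    ((m.choose (p ^ v) : ℕ) : ZMod p) ≠ ((n.choose (p ^ v) : ℕ) : ZMod p) := by
  intro v
  induction v with
  | zero =>
    intro m n hmn _ h
    rw [pow_zero, Nat.choose_one_right, Nat.choose_one_right]
    intro h1
    rw [ZMod.natCast_eq_natCast_iff] at h1
    rw [Nat.zero_add, pow_one] at h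
    exact h ((Nat.modEq_iff_dvd' hmn.le).1 h1.symm)
  | succ v ih =>
    intro m n hmn h1 h2
    have hpp := hp.out.pos
    have key : ∀ N : ℕ, ((N.choose (p ^ (v + 1)) : ℕ) : ZMod p) = (((N / p).choose (p ^ v) : ℕ) : ZMod p) := by
      intro N
      have h3 : ((N.choose (p ^ (v + 1)) : ℕ) : ZMod p) = (((N % p).choose (p ^ (v + 1) % p) * (N / p).choose (p ^ (v + 1) / p) : ℕ) : ZMod p) :=
        (ZMod.natCast_eq_natCast_iff _ _ _).2 Choose.choose_modEq_choose_mod_mul_choose_div_nat
      rw [h3, pow_succ', Nat.mul_mod_right, Nat.mul_div_cancel_left _ hpp, Nat.choose_zero_right, one_mul]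
    rw [key, key]
    have h3 : p ∣ m - n := (dvd_pow_self p (by omega)).trans h1
    obtain ⟨t, ht⟩ := h3
    have hm : m = n + p * t := by omega
    have h4 : m / p = n / p + t := by rw [hm, Nat.add_mul_div_left _ _ hpp]
    have ht0 : 0 < t := by
      rcases Nat.eq_zero_or_pos t with h | h
      · rw [h] at hm
        omega
      · exact h
    have h5 : m / p - n / p = t := by omega
    refine ih (m / p) (n / p) (by omega) ?_ ?_
    · rw [h5]
      rw [ht, pow_succ'] at h1
      exact Nat.dvd_of_mul_dvd_mul_left hpp h1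
    · rw [h5]
      intro h6
      apply h2
      rw [ht, pow_succ' p (v + 1)]
      exact Nat.mul_dvd_mul_left p h6

theorem of_pair1 {m n i e f : ℕ} (hi : i < m) (he : e < n) (hf : f < n) (hne : e ≠ f) :
    [(i * n + e, false), (i * n + f, false)] ∈ ofphp m n ∨ [(i * n + f, false), (i * n + e, false)] ∈ ofphp m n := by
  have key : ∀ {e f : ℕ}, f < n → e < f → [(i * n + e, false), (i * n + f, false)] ∈ ofphp m n := by
    intro e f hf hef
    unfold ofphp
    refine List.mem_append_right _ (List.mem_append_right _ (List.mem_flatMap.2 ⟨i, List.mem_range.2 hi, List.mem_flatMap.2 ⟨f,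
      List.mem_range.2 hf, List.mem_map.2 ⟨e, List.mem_range.2 hef, rfl⟩⟩⟩))
  rcases Nat.lt_or_gt_of_ne hne with h | h
  · exact Or.inl (key hf h)
  · exact Or.inr (key he h)

theorem of_pair2 {m n j e f : ℕ} (hj : j < n) (he : e < m) (hf : f < m) (hne : e ≠ f) :
    [(e * n + j, false), (f * n + j, false)] ∈ ofphp m n ∨ [(f * n + j, false), (e * n + j, false)] ∈ ofphp m n := by
  have key : ∀ {e f : ℕ}, f < m → e < f → [(e * n + j, false), (f * n + j, false)] ∈ ofphp m n := by
    intro e f hf hef
    unfold ofphp php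
    refine List.mem_append_left _ (List.mem_append_right _ (List.mem_flatMap.2 ⟨j, List.mem_range.2 hj, List.mem_flatMap.2 ⟨f,
      List.mem_range.2 hf, List.mem_map.2 ⟨e, List.mem_range.2 hef, rfl⟩⟩⟩))
  rcases Nat.lt_or_gt_of_ne hne with h | h
  · exact Or.inl (key hf h)
  · exact Or.inr (key he h)

theorem of_wid {m n : ℕ} (hmn : n < m) : ∀ C ∈ ofphp m n, C.length ≤ m + 2 := by
  intro C hC
  unfold ofphp php at hC
  simp only [List.mem_append, List.mem_map, List.mem_flatMap, List.mem_range] at hC
  rcases hC with (⟨i, _, rfl⟩ | ⟨j, _, i', _, i, _, rfl⟩) | ⟨j, _, rfl⟩ | ⟨i, _, j', _, j, _, rfl⟩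
  · rw [List.length_map, List.length_range]
    omega
  · simp
  · rw [List.length_map, List.length_range]
    omega
  · simp

theorem of_len {m n : ℕ} (hmn : n < m) : (ofphp m n).length ≤ (m + 2) ^ 4 := by
  have h1 : ((List.range n).flatMap fun j => (List.range m).flatMap fun i' => (List.range i').map fun i =>
      [(i * n + j, false), (i' * n + j, false)]).length ≤ n * (m * m) := by
    refine (flat_len _ _ (m * m) fun j _ => ?_).trans (by rw [List.length_range])
    refine (flat_len _ _ m fun i' hi' => ?_).trans (by rw [List.length_range])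
    rw [List.length_map, List.length_range]
    exact (List.mem_range.1 hi').le
  have h2 : ((List.range m).flatMap fun i => (List.range n).flatMap fun j' => (List.range j').map fun j =>
      [(i * n + j, false), (i * n + j', false)]).length ≤ m * (n * n) := by
    refine (flat_len _ _ (n * n) fun j _ => ?_).trans (by rw [List.length_range])
    refine (flat_len _ _ n fun i' hi' => ?_).trans (by rw [List.length_range])
    rw [List.length_map, List.length_range]
    exact (List.mem_range.1 hi').le
  unfold ofphp php
  simp only [List.length_append, List.length_map, List.length_range]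
  have h3 : n * (m * m) ≤ m * (m * m) := Nat.mul_le_mul_right _ hmn.le
  have h4 : m * (n * n) ≤ m * (m * m) := Nat.mul_le_mul_left _ (Nat.mul_le_mul hmn.le hmn.le)
  have h5 : m + m * (m * m) + (m + m * (m * m)) ≤ (m + 2) ^ 4 := by
    have e : (m + 2) ^ 4 = m * (m * m) * m + 8 * (m * (m * m)) + 24 * (m * m) + 32 * m + 16 := by ring
    rw [e]
    generalize m * (m * m) * m = x1
    generalize m * (m * m) = x2
    omega
  refine le_trans ?_ h5
  have h6 := h1.trans h3
  have h7 := h2.trans h4
  have h8 : n ≤ m := hmn.le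
  exact Nat.add_le_add (Nat.add_le_add le_rfl h6) (Nat.add_le_add h8 h7)

/-- The onto functional pigeonhole principle with `m` pigeons and `n` holes has refutations of size `(m + 2)^(c p^v)` and depth 3 in the
system `SysX p`, where `v` is the exponent of `p` in `m - n`. -/
theorem of_upp (p : ℕ) (hp : p.Prime) : ∃ c : ℕ, ∀ m n : ℕ, n < m →
    ∃ π : List (Fm p), Refutes (SysX p) 3 (ofphp m n) π ∧ psize π ≤ (m + 2) ^ (c * p ^ ((m - n).factorization p)) := by
  haveI : Fact p.Prime := ⟨hp⟩
  haveI : NeZero p := ⟨hp.ne_zero⟩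
  refine ⟨(p + 4) * 24, ?_⟩
  intro m n hmn
  set v := (m - n).factorization p with hv
  set j := p ^ v with hj
  have hd0 : m - n ≠ 0 := by omega
  have hdv : p ^ v ∣ m - n := Nat.ordProj_dvd (m - n) p
  have hdv1 : ¬ p ^ (v + 1) ∣ m - n := Nat.pow_succ_factorization_not_dvd hd0 hp
  have hjm : j ≤ m - n := Nat.le_of_dvd (by omega) hdv
  have hj1 : 1 ≤ j := Nat.one_le_pow _ _ hp.pos
  have h2 : ∀ k : ℕ, 2 ^ k ≤ (m + 2) ^ k := fun k => Nat.pow_le_pow_left (by omega) k
  have hmono : ∀ {a b : ℕ}, a ≤ b → (m + 2) ^ a ≤ (m + 2) ^ b := fun h => Nat.pow_le_pow_right (by omega) h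
  set X := (m + 2) ^ (p + 4) with hX
  have b0 : m + 2 ≤ X := by
    calc m + 2 = (m + 2) ^ 1 := (pow_one _).symm
      _ ≤ X := hmono (by omega)
  have b1 : (ofphp m n).length ≤ X := (of_len hmn).trans (hmono (by omega))
  have b3 : m * n + 1 ≤ X := by
    have h3 : m * n ≤ m * m := Nat.mul_le_mul_left _ hmn.le
    have h4 : m * m + 1 ≤ (m + 2) ^ 2 := by nlinarith
    have h5 : (m + 2) ^ 2 ≤ X := hmono (by omega)
    omega
  have b5 : p ≤ X := by
    have h3 : p < 2 ^ p := Nat.lt_two_pow_self
    have h4 := h2 p
    have h8 : (m + 2) ^ p ≤ X := hmono (by omega)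
    omega
  have b6 : 3 ≤ X := by
    have h4 := h2 2
    have h8 : (m + 2) ^ 2 ≤ X := hmono (by omega)
    omega
  have inj1 : ∀ i : ℕ, Function.Injective fun j => i * n + j := fun i a b h => by
    simp only at h
    omega
  have inj2 : ∀ {j : ℕ}, j < n → Function.Injective fun i => i * n + j := fun {j} hj a b h => by
    simp only at h
    exact Nat.eq_of_mul_eq_mul_right (by omega) (by omega : a * n = b * n)
  obtain ⟨π, h3, h4⟩ := nx_fam (p := p) (F := ofphp m n) (j := j) (w := m + 2) (X := X) (rows m n) (cols m n) 1 (-1) (by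
    intro E hE
    unfold rows at hE
    obtain ⟨i, _, rfl⟩ := List.mem_map.1 hE
    exact List.nodup_range.map (inj1 i)) (by
    intro E hE
    unfold cols at hE
    obtain ⟨i, hi, rfl⟩ := List.mem_map.1 hE
    exact List.nodup_range.map (inj2 (List.mem_range.1 hi))) (by
    intro E hE e he f hf hne
    unfold rows at hE
    obtain ⟨i, hi, rfl⟩ := List.mem_map.1 hE
    obtain ⟨e', he', rfl⟩ := List.mem_map.1 he
    obtain ⟨f', hf', rfl⟩ := List.mem_map.1 hf
    exact of_pair1 (List.mem_range.1 hi) (List.mem_range.1 he') (List.mem_range.1 hf') fun h => hne (by rw [h])) (by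
    intro E hE e he f hf hne
    unfold cols at hE
    obtain ⟨i, hi, rfl⟩ := List.mem_map.1 hE
    obtain ⟨e', he', rfl⟩ := List.mem_map.1 he
    obtain ⟨f', hf', rfl⟩ := List.mem_map.1 hf
    exact of_pair2 (List.mem_range.1 hi) (List.mem_range.1 he') (List.mem_range.1 hf') fun h => hne (by rw [h])) (by
    intro E hE
    unfold rows at hE
    obtain ⟨i, hi, rfl⟩ := List.mem_map.1 hE
    rw [List.map_map]
    unfold ofphp php
    exact List.mem_append_left _ (List.mem_append_left _ (List.mem_map.2 ⟨i, hi, rfl⟩))) (by
    intro E hE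
    unfold cols at hE
    obtain ⟨i, hi, rfl⟩ := List.mem_map.1 hE
    rw [List.map_map]
    unfold ofphp
    exact List.mem_append_right _ (List.mem_append_left _ (List.mem_map.2 ⟨i, hi, rfl⟩))) (of_wid hmn) b6 b1 b0 (by
    rw [rows_flat]
    exact b3) (by
    rw [cols_flat, Nat.mul_comm]
    exact b3) (by rw [rows_len]; omega) (by rw [cols_len]; omega) (by omega) b5
    (c := ((n.choose j : ℕ) : ZMod p) - ((m.choose j : ℕ) : ZMod p)) (sub_ne_zero.2 (choose_ne v m n hmn hdv hdv1).symm) (by
    intro w
    rw [rc_count, rows_len, cols_len]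
    ring)
  refine ⟨π, h3, h4.trans ?_⟩
  have h5 : X ^ (4 * j + 20) ≤ X ^ (24 * j) := Nat.pow_le_pow_right (by omega) (by omega)
  refine h5.trans (le_of_eq ?_)
  rw [hX, ← pow_mul, Nat.mul_assoc]

end PPh.TU
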