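import Pool.Agent.H85.GX.Count
import Pool.Agent.H85.GX.Php
import Pool.Agent.H85.GT.NsGraph
import Pool.Agent.H85.AF.Complete

/-!
helper85 (project MP_28250c_AF, GX): ONE finite complete system of sound rules for every prime `p` in which the easy counting
principles (and the easy pigeonhole and Tseitin formulas) have short refutations.
-/

set_option autoImplicit false

namespace PPh

open ACpFrege

theorem refutes_incl {p : ℕ} {S S' : List (Rule p)} {d d' : ℕ} {F : CNF} {π : List (Fm p)} (hS : ∀ R ∈ S, R ∈ S') (hd : d ≤ d')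
    (h : Refutes S d F π) : Refutes S' d' F π := by
  obtain ⟨h1, h2, h3⟩ := h
  refine ⟨fun A hA => (h1 A hA).trans hd, fun i hi => ?_, h3⟩
  rcases h2 i hi with h | ⟨R, hR, s, G, h4, h5⟩
  · exact Or.inl h
  · exact Or.inr ⟨R, hS R hR, s, G, h4, h5⟩

/-- The complete system. -/
def SysXc (p : ℕ) : List (Rule p) := TU.SysX p ++ rules3 p

theorem sysXc_sound {p : ℕ} (hp : 2 ≤ p) : ∀ R ∈ SysXc p, R.Sound := by
  intro R hR
  rcases List.mem_append.1 hR with h | h
  · exact TU.sysX_sound hp R h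
  · exact rules3_sound p R h

theorem sysXc_complete {p : ℕ} {F : CNF} (hF : F.Unsat) : ∃ π : List (Fm p), Refutes (SysXc p) 2 F π := by
  obtain ⟨π, hπ⟩ := complete3 p hF
  exact ⟨π, refutes_incl (fun R hR => List.mem_append_right _ hR) le_rfl hπ⟩

theorem sysXc_count {p q : ℕ} (hp : p.Prime) (hq : 1 ≤ q) : ∃ c : ℕ, ∀ N : ℕ, ¬ p ^ q.factorization p ∣ N →
    ∃ π : List (Fm p), Refutes (SysXc p) 3 (CountCNF q N) π ∧ psize π ≤ (N + 2) ^ c := by
  obtain ⟨c, hc⟩ := TU.count_upp p hp q hq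
  refine ⟨c, fun N hN => ?_⟩
  obtain ⟨π, h1, h2⟩ := hc N hN
  exact ⟨π, refutes_incl (fun R hR => List.mem_append_left _ hR) le_rfl h1, h2⟩

theorem sysXc_of {p : ℕ} (hp : p.Prime) : ∃ c : ℕ, ∀ m n : ℕ, n < m →
    ∃ π : List (Fm p), Refutes (SysXc p) 3 (ofphp m n) π ∧ psize π ≤ (m + 2) ^ (c * p ^ (m - n).factorization p) := by
  obtain ⟨c, hc⟩ := TU.of_upp p hp
  refine ⟨c, fun m n h => ?_⟩
  obtain ⟨π, h1, h2⟩ := hc m n h
  exact ⟨π, refutes_incl (fun R hR => List.mem_append_left _ hR) le_rfl h1, h2⟩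

end PPh
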