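import Pool.Agent.H85.GX.Steps

/-!
helper85: Nullstellensatz refutations over `Z/p` from exactly-one families in the system `SysX`: derivations.
-/

set_option autoImplicit false
open Finset

namespace PPh.TU

open ACpFrege ACpB ACpSep PPh

variable {p : ℕ} {F : CNF} {B k : ℕ} {T : Set (Fm p)} {a : ℕ}

/-! ### Multiplication -/

theorem len_mid {α : Type} (L1 L2 : List α) (x y : α) : (L1 ++ x :: L2).length = (L1 ++ y :: L2).length := by simp

theorem dx_X (z : ℕ) (L2 : List (List ℕ)) : ∀ (L1 : List (List ℕ)) (k : ℕ), (∀ C ∈ L1, C.length ≤ a) → (∀ C ∈ L2, C.length + 1 ≤ a) →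
    4 + (L1 ++ L2).length * (1 + a) ≤ B → Dv (SysX p) F 3 B k (insert (wl p z (L1 ++ L2)) T) →
    Dv (SysX p) F 3 B (k + L2.length) (insert (wl p z (L1 ++ L2.map (List.cons z))) T) := by
  induction L2 with
  | nil =>
    intro L1 k _ _ _ h
    exact h
  | cons C L2 ih =>
    intro L1 k h1 h2 hB h
    have hC := h2 C List.mem_cons_self
    have h2' : ∀ D ∈ L2, D.length + 1 ≤ a := fun D hD => h2 D (List.mem_cons_of_mem _ hD)
    have hw : ∀ D ∈ L1 ++ (z :: C) :: L2, D.length ≤ a := by
      intro D hD
      rcases List.mem_append.1 hD with hD | hD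
      · exact h1 D hD
      · rcases List.mem_cons.1 hD with rfl | hD
        · rw [List.length_cons]
          exact hC
        · have := h2' D hD
          omega
    have hlen := len_mid L1 L2 (z :: C) C
    have h3 := h.step (sx_X z C L1 L2 (Set.mem_insert _ _)) (wl_depth _ _) (by
      rw [wl_size]
      have h4 := ml_size_le (p := p) hw
      rw [hlen] at h4
      omega)
    have e1 : L1 ++ (z :: C) :: L2 = (L1 ++ [z :: C]) ++ L2 := by simp
    have e2 : L1 ++ (C :: L2).map (List.cons z) = (L1 ++ [z :: C]) ++ L2.map (List.cons z) := by simp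
    rw [e1] at h3 hlen
    have h4 := ih (L1 ++ [z :: C]) (k + 1) (by
      intro D hD
      rcases List.mem_append.1 hD with hD | hD
      · exact h1 D hD
      · rw [List.mem_singleton] at hD
        rw [hD, List.length_cons]
        exact hC) h2' (by rw [hlen]; exact hB) (h3.mono le_rfl (ins_mono' subset_rfl))
    rw [e2]
    exact h4.mono (by rw [List.length_cons]; omega) subset_rfl

theorem dx_Z (z : ℕ) (L : List (List ℕ)) : (∀ C ∈ L, C.length + 1 ≤ a) → 4 + L.length * (1 + a) ≤ B →
    Dv (SysX p) F 3 B k T → Dv (SysX p) F 3 B (k + 1 + L.length) (insert (ol p z (L.map (List.cons z))) T) := by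
  induction L using List.reverseRecOn with
  | nil =>
    intro _ hB h
    have h1 := h.step (sx_Z z) (ol_depth _ _) (by
      rw [ol_size, ml_size]
      simp only [List.map_nil, List.sum_nil]
      omega)
    exact h1
  | append_singleton L C ih =>
    intro h2 hB h
    have hL : ∀ D ∈ L, D.length + 1 ≤ a := fun D hD => h2 D (List.mem_append_left _ hD)
    have hB' : 4 + L.length * (1 + a) ≤ B := by
      have : L.length * (1 + a) ≤ (L ++ [C]).length * (1 + a) := Nat.mul_le_mul_right _ (by simp)
      omega
    have h3 := ih hL hB' h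
    have e1 : (L ++ [C]).map (List.cons z) = L.map (List.cons z) ++ [z :: C] := by simp
    have hw : ∀ D ∈ (L ++ [C]).map (List.cons z), D.length ≤ a := by
      intro D hD
      obtain ⟨E, hE, rfl⟩ := List.mem_map.1 hD
      rw [List.length_cons]
      exact h2 E hE
    have h4 := h3.step (sx_Z1 z C (L.map (List.cons z)) (Set.mem_insert _ _)) (ol_depth _ _) (by
      rw [ol_size, ← e1]
      have h5 := ml_size_le (p := p) hw
      rw [List.length_map] at h5
      omega)
    rw [e1]
    exact h4.mono (by rw [List.length_append, List.length_singleton]; omega) (ins_mono' subset_rfl)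

theorem dx_mul1 (z : ℕ) (L : List (List ℕ)) (h2 : ∀ C ∈ L, C.length + 1 ≤ a) (hB : 4 + L.length * (1 + a) ≤ B)
    (h : Dv (SysX p) F 3 B k (insert (ml p L) T)) :
    Dv (SysX p) F 3 B (k + (2 * L.length + 3)) (insert (ml p (L.map (List.cons z))) T) := by
  have h3 := h.step (sx_W z L (Set.mem_insert _ _)) (wl_depth _ _) (by
    rw [wl_size]
    have h4 := ml_size_le (p := p) (a := a) (L := L) fun D hD => by
      have := h2 D hD
      omega
    omega)
  have h4 := dx_X (a := a) z L [] _ (by simp) h2 (by simpa using hB) (h3.mono le_rfl (ins_mono' (T' := T) subset_rfl))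
  rw [List.nil_append] at h4
  have h5 := dx_Z (a := a) z L h2 hB h4
  have h6 := h5.step (sx_C z (L.map (List.cons z)) (Set.mem_insert_of_mem _ (Set.mem_insert _ _)) (Set.mem_insert _ _))
    ((ml_depth _).trans (by omega)) (by
      have h4 := ml_size_le (p := p) (a := a) (L := L.map (List.cons z)) fun D hD => by
        obtain ⟨E, hE, rfl⟩ := List.mem_map.1 hD
        rw [List.length_cons]
        exact h2 E hE
      rw [List.length_map] at h4
      omega)
  refine h6.mono (by omega) ?_
  intro A hA
  rcases Set.mem_insert_iff.1 hA with h7 | h7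
  · rw [h7]
    exact Set.mem_insert _ _
  · exact Set.mem_insert_of_mem _ (Set.mem_insert_of_mem _ (Set.mem_insert_of_mem _ h7))

theorem dx_mul (L : List (List ℕ)) (m : List ℕ) : (∀ C ∈ L, C.length + m.length ≤ a) → (4 + L.length * (1 + a) ≤ B) →
    Dv (SysX p) F 3 B k (insert (ml p L) T) →
    Dv (SysX p) F 3 B (k + m.length * (2 * L.length + 3)) (insert (ml p (L.map fun C => m ++ C)) T) := by
  induction m with
  | nil =>
    intro _ _ h
    have e1 : (L.map fun C => [] ++ C) = L := by simp
    rw [e1]
    exact h.mono (by omega) subset_rfl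
  | cons z m ih =>
    intro h2 hB h
    have h3 := ih (fun C hC => by
      have := h2 C hC
      rw [List.length_cons] at this
      omega) hB h
    have h4 := dx_mul1 (a := a) z (L.map fun C => m ++ C) (by
      intro D hD
      obtain ⟨E, hE, rfl⟩ := List.mem_map.1 hD
      have := h2 E hE
      rw [List.length_cons] at this
      rw [List.length_append]
      omega) (by rw [List.length_map]; exact hB) h3
    have e1 : (L.map fun C => m ++ C).map (List.cons z) = L.map fun C => (z :: m) ++ C := by
      rw [List.map_map]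
      rfl
    rw [e1] at h4
    refine h4.mono ?_ subset_rfl
    rw [List.length_map, List.length_cons]
    have : (m.length + 1) * (2 * L.length + 3) = m.length * (2 * L.length + 3) + (2 * L.length + 3) := by ring
    omega

/-! ### From `MOD_1` of variables to a sum of conjunctions -/

theorem dep_mix (r : ZMod p) (l : List (Fm p)) (h : ∀ A ∈ l, ∀ c, A.dep c ≤ 1) : (mdL r l).depth ≤ 2 := by
  unfold Fm.depth mdL
  rw [Fm.dep]
  have h0 : (Finset.univ.sup fun i => (l.get i).dep 0) ≤ 1 := Finset.sup_le fun i _ => h _ (List.get_mem l i) 0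
  omega

theorem dx_conv (E2 : List ℕ) : ∀ (E1 : List ℕ) (k : ℕ), 1 + 2 * (E1 ++ E2).length ≤ B →
    Dv (SysX p) F 3 B k (insert (mdL 1 ((E1.map fun x => [x]).map (cj p) ++ E2.map Fm.var)) T) →
    Dv (SysX p) F 3 B (k + E2.length) (insert (mdL 1 (((E1 ++ E2).map fun x => [x]).map (cj p))) T) := by
  induction E2 with
  | nil =>
    intro E1 k _ h
    simpa using h
  | cons x E2 ih =>
    intro E1 k hB h
    have h1 := h.step (sx_conv x ((E1.map fun x => [x]).map (cj p)) (E2.map Fm.var) (Set.mem_insert _ _)) ((dep_mix _ _ (by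
      intro A hA c
      rcases List.mem_append.1 hA with hA | hA
      · obtain ⟨C, _, rfl⟩ := List.mem_map.1 hA
        exact dep_cj C c
      · rcases List.mem_cons.1 hA with rfl | hA
        · exact dep_cj _ c
        · obtain ⟨y, _, rfl⟩ := List.mem_map.1 hA
          rw [Fm.dep]
          omega)).trans (by omega)) (by
      rw [size_mdL, List.map_append, List.sum_append, List.map_cons, List.sum_cons, cj_size, List.map_map, List.map_map]
      have s1 : (List.map ((Fm.size ∘ cj p) ∘ fun x => [x]) E1).sum = 2 * E1.length := by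
        have : ((Fm.size ∘ cj p) ∘ fun x : ℕ => [x]) = fun _ => 2 := by
          funext x
          simp only [Function.comp_apply, cj_size, List.length_singleton]
        rw [this, List.map_const', List.sum_replicate, smul_eq_mul, Nat.mul_comm]
      have s2 : ((E2.map (Fm.var (p := p))).map Fm.size).sum = E2.length := by
        have : ((E2.map (Fm.var (p := p))).map Fm.size) = E2.map fun _ => 1 := by
          rw [List.map_map]
          refine List.map_congr_left fun y _ => ?_
          simp only [Function.comp_apply, Fm.size]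
        rw [this, List.map_const', List.sum_replicate, smul_eq_mul, Nat.mul_one]
      rw [s1, s2, List.length_singleton]
      rw [List.length_append, List.length_cons] at hB
      omega)
    have e1 : (E1.map fun x => [x]).map (cj p) ++ cj p [x] :: E2.map Fm.var =
        ((E1 ++ [x]).map fun x => [x]).map (cj p) ++ E2.map Fm.var := by simp
    have e2 : E1 ++ x :: E2 = (E1 ++ [x]) ++ E2 := by simp
    rw [e1] at h1
    rw [e2] at hB ⊢
    have h2 := ih (E1 ++ [x]) (k + 1) hB (h1.mono le_rfl (ins_mono' subset_rfl))
    exact h2.mono (by rw [List.length_cons]; omega) subset_rfl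

/-- The polynomial `Σ E - 1`. -/
def lin (p : ℕ) (E : List ℕ) : List (List ℕ) := (E.map fun x => [x]) ++ List.replicate (p - 1) []

theorem lin_len (E : List ℕ) : (lin p E).length = E.length + (p - 1) := by
  unfold lin
  rw [List.length_append, List.length_map, List.length_replicate]

theorem lin_wid (E : List ℕ) : ∀ C ∈ lin p E, C.length ≤ 1 := by
  intro C hC
  unfold lin at hC
  rcases List.mem_append.1 hC with hC | hC
  · obtain ⟨x, _, rfl⟩ := List.mem_map.1 hC
    simp
  · rw [(List.mem_replicate.1 hC).2]
    simp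

theorem dx_one (E : List ℕ) (hB : 1 + 2 * (E.length + (p - 1)) ≤ B) (h : Dv (SysX p) F 3 B k (insert (mdL 1 (EX.vs p E)) T)) :
    Dv (SysX p) F 3 B (k + (E.length + 1)) (insert (ml p (lin p E)) T) := by
  have h1 := dx_conv (p := p) (F := F) (B := B) (T := T) E [] k (by simp; omega) (by
    have : EX.vs p E = E.map Fm.var := rfl
    rw [this] at h
    simpa using h)
  rw [List.nil_append] at h1
  have h2 := h1.step (sx_one (E.map fun x => [x]) (Set.mem_insert _ _)) ((ml_depth _).trans (by omega)) (by
    have h3 := ml_size_le (p := p) (a := 1) (lin_wid (p := p) E)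
    rw [lin_len] at h3
    unfold lin at h3
    omega)
  exact h2.mono (by omega) (ins_mono' subset_rfl)

/-! ### The pair clauses -/

theorem dx_pairs (E : List ℕ) (hp : ∀ e ∈ E, ∀ f ∈ E, e ≠ f → EX.pr2 p e f ∈ T ∨ EX.pr2 p f e ∈ T) (hB : 5 ≤ B)
    (h : Dv (SysX p) F 3 B k T) : ∀ E1 : List ℕ, (∀ e ∈ E1, e ∈ E) →
    Dv (SysX p) F 3 B (k + E1.length * E.length) (T ∪ {A | ∃ e ∈ E1, ∃ f ∈ E, e ≠ f ∧ A = EX.pr2 p e f}) := by
  have row : ∀ e ∈ E, ∀ (T' : Set (Fm p)) (k' : ℕ), T ⊆ T' → Dv (SysX p) F 3 B k' T' → ∀ E2 : List ℕ, (∀ e ∈ E2, e ∈ E) →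
      Dv (SysX p) F 3 B (k' + E2.length) (T' ∪ {A | ∃ f ∈ E2, e ≠ f ∧ A = EX.pr2 p e f}) := by
    intro e he T' k' hT' h' E2
    induction E2 with
    | nil =>
      intro _
      refine h'.mono (by simp) ?_
      rintro A (hA | ⟨f, hf, _⟩)
      · exact hA
      · exact absurd hf (by simp)
    | cons f E2 ih =>
      intro hE
      have h1 := ih fun g hg => hE g (List.mem_cons_of_mem _ hg)
      by_cases hef : e = f
      · refine h1.mono (by rw [List.length_cons]; omega) ?_
        rintro A (hA | ⟨g, hg, hne, rfl⟩)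
        · exact Or.inl hA
        · rcases List.mem_cons.1 hg with rfl | hg
          · exact absurd hef hne
          · exact Or.inr ⟨g, hg, hne, rfl⟩
      · by_cases hin : EX.pr2 p e f ∈ T
        · refine h1.mono (by rw [List.length_cons]; omega) ?_
          rintro A (hA | ⟨g, hg, hne, rfl⟩)
          · exact Or.inl hA
          · rcases List.mem_cons.1 hg with rfl | hg
            · exact Or.inl (hT' hin)
            · exact Or.inr ⟨g, hg, hne, rfl⟩
        · have hin2 : EX.pr2 p f e ∈ T := (hp e he f (hE f List.mem_cons_self) hef).resolve_left hin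
          have h2 := h1.step (sx_sw f e (Or.inl (hT' hin2))) ((dep_clauseFm _).trans (by omega)) (by
            refine (size_clauseFm _).trans ?_
            simp
            exact hB)
          refine h2.mono (by rw [List.length_cons]; omega) ?_
          rintro A (hA | ⟨g, hg, hne, rfl⟩)
          · exact Set.mem_insert_of_mem _ (Or.inl hA)
          · rcases List.mem_cons.1 hg with rfl | hg
            · exact Set.mem_insert _ _
            · exact Set.mem_insert_of_mem _ (Or.inr ⟨g, hg, hne, rfl⟩)
  intro E1
  induction E1 with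
  | nil =>
    intro _
    refine h.mono (by simp) ?_
    rintro A (hA | ⟨e, he, _⟩)
    · exact hA
    · exact absurd he (by simp)
  | cons e E1 ih =>
    intro hE
    have h1 := ih fun g hg => hE g (List.mem_cons_of_mem _ hg)
    have h2 := row e (hE e List.mem_cons_self) _ _ (fun A hA => Or.inl hA) h1 E fun f hf => hf
    refine h2.mono ?_ ?_
    · rw [List.length_cons]
      have : (E1.length + 1) * E.length = E1.length * E.length + E.length := by ring
      omega
    · rintro A (hA | ⟨g, hg, f, hf, hne, rfl⟩)
      · exact Or.inl (Or.inl hA)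
      · rcases List.mem_cons.1 hg with rfl | hg
        · exact Or.inr ⟨f, hf, hne, rfl⟩
        · exact Or.inl (Or.inr ⟨g, hg, f, hf, hne, rfl⟩)

/-- The product of `Σ E - 1` and a monomial. -/
theorem dx_term [NeZero p] (E m : List ℕ) (hnd : E.Nodup) (hp : ∀ e ∈ E, ∀ f ∈ E, e ≠ f → EX.pr2 p e f ∈ T ∨ EX.pr2 p f e ∈ T)
    (hc : (clauseFm (E.map fun e => (e, true)) : Fm p) ∈ T) (ha : m.length + 1 ≤ a) (hB : 6 + (E.length + p) * (1 + a) ≤ B)
    (h : Dv (SysX p) F 3 B k T) :
    Dv (SysX p) F 3 B (k + (E.length * E.length + (E.length * (E.length + 1) + E.length + 2) + (E.length + 1) +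
      m.length * (2 * (E.length + p) + 3))) (insert (ml p ((lin p E).map fun C => m ++ C)) T) := by
  have hB2 : 6 + 2 * (E.length + p) ≤ B := by
    have h1 : (E.length + p) * 2 ≤ (E.length + p) * (1 + a) := Nat.mul_le_mul_left _ (by omega)
    omega
  have h1 := dx_pairs E hp (by omega) h E fun e he => he
  have h2 : Dv (SysX p) F 3 B (k + E.length * E.length + (E.length * (E.length + 1) + E.length + 2)) (insert (mdL 1 (EX.vs p E))
      (T ∪ {A | ∃ e ∈ E, ∃ f ∈ E, e ≠ f ∧ A = EX.pr2 p e f})) := by
    exact EX.dv_point sub_X (by omega) E hnd (fun e he f hf hne => Or.inr ⟨e, he, f, hf, hne, rfl⟩) (Or.inl hc) (by omega) h1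
  have h3 := dx_one E (by omega) h2
  have h4 := dx_mul (a := a) (lin p E) m (fun C hC => by
    have := lin_wid E C hC
    omega) (by
    rw [lin_len]
    have : (E.length + (p - 1)) * (1 + a) ≤ (E.length + p) * (1 + a) := Nat.mul_le_mul_right _ (by omega)
    omega) h3
  refine h4.mono ?_ ?_
  · rw [lin_len]
    have : m.length * (2 * (E.length + (p - 1)) + 3) ≤ m.length * (2 * (E.length + p) + 3) := Nat.mul_le_mul_left _ (by omega)
    omega
  · intro A hA
    rcases Set.mem_insert_iff.1 hA with h7 | h7
    · rw [h7]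
      exact Set.mem_insert _ _
    · exact Set.mem_insert_of_mem _ (Or.inl h7)

end PPh.TU
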