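import Pool.Agent.H85.GX.Red

/-!
helper85: Nullstellensatz refutations over `Z/p` from exactly-one families in the system `SysX`: main theorem.
-/

set_option autoImplicit false
open Finset

namespace PPh.TU

open ACpFrege ACpB ACpSep PPh

variable {p : ℕ} {F : CNF} {B k : ℕ} {T : Set (Fm p)} {a : ℕ}

/-- The monomials of the certificate, first part. -/
def cE (p : ℕ) (PE : List (List ℕ × List ℕ)) : List (List ℕ) := PE.flatMap fun x => (lin p x.1).map fun C => x.2 ++ C

/-- The monomials of the certificate, second part. -/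
def cP (PP : List (ℕ × ℕ × List ℕ)) : List (List ℕ) := PP.map fun x => x.1 :: x.2.1 :: x.2.2

theorem cE_len {M : ℕ} (PE : List (List ℕ × List ℕ)) (h : ∀ x ∈ PE, x.1.length ≤ M) : (cE p PE).length ≤ PE.length * (M + p) := by
  unfold cE
  refine flat_len _ _ _ fun x hx => ?_
  rw [List.length_map, lin_len]
  have := h x hx
  omega

theorem cE_wid (PE : List (List ℕ × List ℕ)) (h : ∀ x ∈ PE, x.2.length + 1 ≤ a) : ∀ C ∈ cE p PE, C.length ≤ a := by
  intro C hC
  obtain ⟨x, hx, hC⟩ := List.mem_flatMap.1 hC
  obtain ⟨D, hD, rfl⟩ := List.mem_map.1 hC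
  rw [List.length_append]
  have h1 := h x hx
  have h2 := lin_wid x.1 D hD
  omega

theorem cP_wid (PP : List (ℕ × ℕ × List ℕ)) (h : ∀ x ∈ PP, x.2.2.length + 2 ≤ a) : ∀ C ∈ cP PP, C.length ≤ a := by
  intro C hC
  obtain ⟨x, hx, rfl⟩ := List.mem_map.1 hC
  rw [List.length_cons, List.length_cons]
  exact h x hx

/-- The number of lines for a term. -/
def tK (p M a : ℕ) : ℕ := M * M + (M * (M + 1) + M + 2) + (M + 1) + a * (2 * (M + p) + 3)

theorem dx_sumE [NeZero p] {M : ℕ} (PE : List (List ℕ × List ℕ)) : (∀ x ∈ PE, x.1.length ≤ M) → (∀ x ∈ PE, x.2.length + 1 ≤ a) →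
    (∀ x ∈ PE, x.1.Nodup) → (∀ x ∈ PE, ∀ e ∈ x.1, ∀ f ∈ x.1, e ≠ f → EX.pr2 p e f ∈ T ∨ EX.pr2 p f e ∈ T) →
    (∀ x ∈ PE, (clauseFm (x.1.map fun e => (e, true)) : Fm p) ∈ T) → 6 + (PE.length * (M + p) + (M + p)) * (1 + a) ≤ B →
    Dv (SysX p) F 3 B k T → Dv (SysX p) F 3 B (k + 1 + PE.length * (tK p M a + 1)) (insert (ml p (cE p PE)) T) := by
  induction PE using List.reverseRecOn with
  | nil =>
    intro _ _ _ _ _ hB h
    have h1 := h.step sx_emp ((ml_depth _).trans (by omega)) (by
      rw [ml_size]
      simp only [List.map_nil, List.sum_nil]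
      omega)
    exact h1.mono (by omega) subset_rfl
  | append_singleton PE x ih =>
    intro hM ha hnd hp hc hB h
    have hl : (PE ++ [x]).length = PE.length + 1 := by simp
    rw [hl] at hB ⊢
    have e0 : ((PE.length + 1) * (M + p) + (M + p)) * (1 + a) = (PE.length * (M + p) + (M + p)) * (1 + a) + (M + p) * (1 + a) := by ring
    have hsub : ∀ y ∈ PE, y ∈ PE ++ [x] := fun y hy => List.mem_append_left _ hy
    have hx : x ∈ PE ++ [x] := by simp
    have h1 := ih (fun y hy => hM y (hsub y hy)) (fun y hy => ha y (hsub y hy)) (fun y hy => hnd y (hsub y hy))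
      (fun y hy => hp y (hsub y hy)) (fun y hy => hc y (hsub y hy)) (by omega) h
    have hxM := hM x hx
    have hB2 : (x.1.length + p) * (1 + a) ≤ (M + p) * (1 + a) := Nat.mul_le_mul_right _ (by omega)
    have h2 := dx_term (a := a) x.1 x.2 (hnd x hx) (fun e he f hf hne => (hp x hx e he f hf hne).imp (Set.mem_insert_of_mem _)
      (Set.mem_insert_of_mem _)) (Set.mem_insert_of_mem _ (hc x hx)) (ha x hx) (by omega) h1
    have e1 : cE p (PE ++ [x]) = cE p PE ++ (lin p x.1).map fun C => x.2 ++ C := by
      unfold cE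
      rw [List.flatMap_append, List.flatMap_singleton]
    have h3 := h2.step (sx_cat (cE p PE) ((lin p x.1).map fun C => x.2 ++ C) (Set.mem_insert_of_mem _ (Set.mem_insert _ _))
      (Set.mem_insert _ _)) ((ml_depth _).trans (by omega)) (by
        rw [← e1]
        refine (ml_size_le (a := a) (cE_wid _ ha)).trans ?_
        have h4 : (cE p (PE ++ [x])).length * (1 + a) ≤ ((PE.length + 1) * (M + p)) * (1 + a) :=
          Nat.mul_le_mul_right _ ((cE_len _ hM).trans (by rw [hl]))
        have h5 : ((PE.length + 1) * (M + p)) * (1 + a) ≤ ((PE.length + 1) * (M + p) + (M + p)) * (1 + a) :=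
          Nat.mul_le_mul_right _ (by omega)
        omega)
    rw [e1]
    refine h3.mono ?_ ?_
    · have h4 : x.1.length * x.1.length ≤ M * M := Nat.mul_le_mul hxM hxM
      have h5 : x.1.length * (x.1.length + 1) ≤ M * (M + 1) := Nat.mul_le_mul hxM (by omega)
      have h6 : x.2.length * (2 * (x.1.length + p) + 3) ≤ a * (2 * (M + p) + 3) := by
        have := ha x hx
        exact Nat.mul_le_mul (by omega) (by omega)
      have h7 : (PE.length + 1) * (tK p M a + 1) = PE.length * (tK p M a + 1) + (tK p M a + 1) := by ring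
      have h8 : tK p M a = M * M + (M * (M + 1) + M + 2) + (M + 1) + a * (2 * (M + p) + 3) := rfl
      omega
    · intro A hA
      rcases Set.mem_insert_iff.1 hA with h4 | h4
      · rw [h4]
        exact Set.mem_insert _ _
      · exact Set.mem_insert_of_mem _ (Set.mem_insert_of_mem _ (Set.mem_insert_of_mem _ h4))

theorem dx_sumP (L : List (List ℕ)) (hL : ∀ C ∈ L, C.length ≤ a) (PP : List (ℕ × ℕ × List ℕ)) : (∀ x ∈ PP, x.2.2.length + 2 ≤ a) →
    (∀ x ∈ PP, EX.pr2 p x.1 x.2.1 ∈ T ∨ EX.pr2 p x.2.1 x.1 ∈ T) → 6 + (L.length + PP.length) * (1 + a) ≤ B →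
    Dv (SysX p) F 3 B k (insert (ml p L) T) → Dv (SysX p) F 3 B (k + 3 * PP.length) (insert (ml p (L ++ cP PP)) T) := by
  induction PP using List.reverseRecOn with
  | nil =>
    intro _ _ _ h
    have e1 : L ++ cP [] = L := by simp [cP]
    rw [e1]
    exact h
  | append_singleton PP x ih =>
    intro ha hp hB h
    have hl : (PP ++ [x]).length = PP.length + 1 := by simp
    rw [hl] at hB ⊢
    have e0 : (L.length + (PP.length + 1)) * (1 + a) = (L.length + PP.length) * (1 + a) + (1 + a) := by ring
    have hsub : ∀ y ∈ PP, y ∈ PP ++ [x] := fun y hy => List.mem_append_left _ hy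
    have hx : x ∈ PP ++ [x] := by simp
    have h1 := ih (fun y hy => ha y (hsub y hy)) (fun y hy => hp y (hsub y hy)) (by omega) h
    have h2 : Dv (SysX p) F 3 B (k + 3 * PP.length + 1) (insert (EX.pr2 p x.1 x.2.1) (insert (ml p (L ++ cP PP)) T)) := by
      rcases hp x hx with h3 | h3
      · refine h1.mono (by omega) ?_
        intro A hA
        rcases Set.mem_insert_iff.1 hA with h4 | h4
        · rw [h4]
          exact Set.mem_insert_of_mem _ h3
        · exact h4
      · exact h1.step (sx_sw _ _ (Set.mem_insert_of_mem _ h3)) ((dep_clauseFm _).trans (by omega)) (by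
          refine (size_clauseFm _).trans ?_
          simp
          omega)
    have h3 := h2.step (sx_pair x.1 x.2.1 x.2.2 (Set.mem_insert _ _)) ((ml_depth _).trans (by omega)) (by
      have h4 := ml_size_le (p := p) (a := a) (L := [x.1 :: x.2.1 :: x.2.2]) (by
        intro C hC
        rw [List.mem_singleton] at hC
        rw [hC, List.length_cons, List.length_cons]
        exact ha x hx)
      rw [List.length_singleton] at h4
      omega)
    have e1 : L ++ cP (PP ++ [x]) = (L ++ cP PP) ++ [x.1 :: x.2.1 :: x.2.2] := by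
      unfold cP
      simp
    have h4 := h3.step (sx_cat (L ++ cP PP) [x.1 :: x.2.1 :: x.2.2] (Set.mem_insert_of_mem _ (Set.mem_insert_of_mem _
      (Set.mem_insert _ _))) (Set.mem_insert _ _)) ((ml_depth _).trans (by omega)) (by
        rw [← e1]
        refine (ml_size_le (a := a) ?_).trans ?_
        · intro C hC
          rcases List.mem_append.1 hC with hC | hC
          · exact hL C hC
          · exact cP_wid _ ha C hC
        · rw [List.length_append]
          unfold cP
          rw [List.length_map, hl]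
          omega)
    rw [e1]
    refine h4.mono (by omega) ?_
    intro A hA
    rcases Set.mem_insert_iff.1 hA with h5 | h5
    · rw [h5]
      exact Set.mem_insert _ _
    · exact Set.mem_insert_of_mem _ (Set.mem_insert_of_mem _ (Set.mem_insert_of_mem _ (Set.mem_insert_of_mem _ h5)))

/-! ### The value of the certificate -/

/-- The value of the terms of the first kind. -/
def vE (p : ℕ) (v : ℕ → Bool) (PE : List (List ℕ × List ℕ)) : ZMod p :=
  (PE.map fun x => if x.2.all v then ((x.1.countP v : ℕ) : ZMod p) - 1 else 0).sum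

/-- The value of the terms of the second kind. -/
def vP (p : ℕ) (v : ℕ → Bool) (PP : List (ℕ × ℕ × List ℕ)) : ZMod p :=
  (PP.map fun x => if (x.1 :: x.2.1 :: x.2.2).all v then (1 : ZMod p) else 0).sum

theorem lin_count (hp : 1 ≤ p) (v : ℕ → Bool) (E m : List ℕ) :
    (((((lin p E).map fun C => m ++ C).map fun C => C.all v).count true : ℕ) : ZMod p) =
      if m.all v then ((E.countP v : ℕ) : ZMod p) - 1 else 0 := by
  have h1 : ∀ E : List ℕ, (((E.map fun x => [x]).map fun C => (m ++ C).all v).count true) = if m.all v then E.countP v else 0 := by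
    intro E
    induction E with
    | nil => simp
    | cons x E ih =>
      rw [List.map_cons, List.map_cons, List.count_cons, ih, List.countP_cons, List.all_append]
      cases hm : m.all v <;> cases hx : v x <;> simp [hx]
  have h2 : ∀ n : ℕ, (((List.replicate n ([] : List ℕ)).map fun C => (m ++ C).all v).count true) = if m.all v then n else 0 := by
    intro n
    rw [List.map_replicate, List.append_nil, List.count_replicate]
    cases hm : m.all v <;> simp
  rw [List.map_map]
  have e1 : ((fun C : List ℕ => C.all v) ∘ fun C => m ++ C) = fun C => (m ++ C).all v := rfl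
  rw [e1]
  unfold lin
  rw [List.map_append, List.count_append, h1, h2, Nat.cast_add]
  split_ifs
  · rw [Nat.cast_sub hp]
    simp
    ring
  · simp

theorem cert_count (hp : 1 ≤ p) (v : ℕ → Bool) (PE : List (List ℕ × List ℕ)) (PP : List (ℕ × ℕ × List ℕ)) :
    ((((cE p PE ++ cP PP).map fun C => C.all v).count true : ℕ) : ZMod p) = vE p v PE + vP p v PP := by
  rw [List.map_append, List.count_append, Nat.cast_add]
  congr 1
  · unfold cE vE
    induction PE with
    | nil => simp
    | cons x PE ih => rw [List.flatMap_cons, List.map_append, List.count_append, Nat.cast_add, ih, lin_count hp, List.map_cons, List.sum_cons]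
  · unfold cP vP
    induction PP with
    | nil => simp
    | cons x PP ih =>
      rw [List.map_cons, List.map_cons, List.count_cons, Nat.cast_add, ih, List.map_cons, List.sum_cons, add_comm]
      congr 1
      cases h : (x.1 :: x.2.1 :: x.2.2).all v <;> simp

/-- A Nullstellensatz refutation over `Z/p` from exactly-one families gives a refutation in the system `SysX`. -/
theorem nx_up [NeZero p] {M w : ℕ} (PE : List (List ℕ × List ℕ)) (PP : List (ℕ × ℕ × List ℕ)) (hM : ∀ x ∈ PE, x.1.length ≤ M)
    (ha : ∀ x ∈ PE, x.2.length + 1 ≤ a) (hnd : ∀ x ∈ PE, x.1.Nodup)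
    (hpair : ∀ x ∈ PE, ∀ e ∈ x.1, ∀ f ∈ x.1, e ≠ f → [(e, false), (f, false)] ∈ F ∨ [(f, false), (e, false)] ∈ F)
    (hc : ∀ x ∈ PE, (x.1.map fun e => (e, true)) ∈ F) (ha2 : ∀ x ∈ PP, x.2.2.length + 2 ≤ a)
    (hP : ∀ x ∈ PP, [(x.1, false), (x.2.1, false)] ∈ F ∨ [(x.2.1, false), (x.1, false)] ∈ F)
    (hw : ∀ C ∈ F, C.length ≤ w) {c : ZMod p} (hne : c ≠ 0) (hid : ∀ v : ℕ → Bool, vE p v PE + vP p v PP = c) :
    ∃ π : List (Fm p), Refutes (SysX p) 3 F π ∧
      psize π ≤ (F.length + 2 + PE.length * (tK p M a + 1) + 3 * PP.length + (PE.length * (M + p) + PP.length) * (a * (a + 1) + 1)) *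
        (6 + 2 * w + (PE.length * (M + p) + PP.length + (M + p)) * (1 + a)) := by
  have hp1 : 1 ≤ p := NeZero.pos p
  set B := 6 + 2 * w + (PE.length * (M + p) + PP.length + (M + p)) * (1 + a) with hB
  set L := cE p PE ++ cP PP with hL
  have hE := cE_len (p := p) PE hM
  have hPl : (cP PP).length = PP.length := by unfold cP; rw [List.length_map]
  have hLlen : L.length ≤ PE.length * (M + p) + PP.length := by
    rw [hL, List.length_append, hPl]
    omega
  have hLwid : ∀ C ∈ L, C.length ≤ a := by
    intro C hC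
    rcases List.mem_append.1 hC with hC | hC
    · exact cE_wid _ ha C hC
    · exact cP_wid _ ha2 C hC
  have g1 : (PE.length * (M + p) + (M + p)) * (1 + a) ≤ (PE.length * (M + p) + PP.length + (M + p)) * (1 + a) :=
    Nat.mul_le_mul_right _ (by omega)
  have g2 : ((cE p PE).length + PP.length) * (1 + a) ≤ (PE.length * (M + p) + PP.length + (M + p)) * (1 + a) :=
    Nat.mul_le_mul_right _ (by omega)
  have g3 : L.length * (1 + a) ≤ (PE.length * (M + p) + PP.length + (M + p)) * (1 + a) := Nat.mul_le_mul_right _ (by omega)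
  have h0 : Dv (SysX p) F 3 B F.length {A | ∃ C ∈ F, A = clauseFm C} := by
    refine dv_clauses (by omega) fun C hC => ?_
    have := hw C hC
    omega
  have h1 := dx_sumE (T := {A | ∃ C ∈ F, A = clauseFm C}) (M := M) (a := a) PE hM ha hnd (fun x hx e he f hf hne => (hpair x hx e he f hf hne).imp (fun h => ⟨_, h, rfl⟩)
    fun h => ⟨_, h, rfl⟩) (fun x hx => ⟨_, hc x hx, rfl⟩) (by omega) h0
  have h2 := dx_sumP (T := {A | ∃ C ∈ F, A = clauseFm C}) (cE p PE) (cE_wid _ ha) PP ha2 (fun x hx => (hP x hx).imp (fun h => ⟨_, h, rfl⟩) fun h => ⟨_, h, rfl⟩) (by omega) h1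
  have h3 : Dv (SysX p) F 3 B (F.length + 1 + PE.length * (tK p M a + 1) + 3 * PP.length + L.length * (a * (a + 1)))
      (insert (ml p (L.map nf)) {A | ∃ C ∈ F, A = clauseFm C}) := by
    have h3 := dx_norm (B := B) (a := a) L [] _ (by simpa using hLwid) (by rw [List.nil_append]; omega) h2
    rw [List.nil_append] at h3
    exact h3
  have hcnt : ∀ A : Finset ℕ, ((((L.map List.toFinset).map fun S => decide (S ⊆ A)).count true : ℕ) : ZMod p) = c := by
    intro A
    have h3 := cert_count hp1 (fun x => decide (x ∈ A)) PE PP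
    rw [hid] at h3
    rw [← h3, List.map_map]
    congr 2
    refine List.map_congr_left fun C _ => ?_
    simp only [Function.comp_apply]
    rw [Bool.eq_iff_iff, decide_eq_true_eq, List.all_eq_true]
    constructor
    · intro h4 x hx
      exact decide_eq_true (h4 (List.mem_toFinset.2 hx))
    · intro h4 x hx
      exact of_decide_eq_true (h4 x (List.mem_toFinset.1 hx))
  obtain ⟨hc0, hcS⟩ := counts_of _ hcnt
  have h4 := dx_red (a := a) hp1 (L.map nf).length (L.map nf) le_rfl (by
    intro C hC
    obtain ⟨D, hD, rfl⟩ := List.mem_map.1 hC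
    exact (nf_len D).trans (hLwid D hD)) (by rw [List.length_map]; omega) (by
    intro C hC hne
    obtain ⟨D, hD, rfl⟩ := List.mem_map.1 hC
    unfold nf at hne ⊢
    have h4 : D.toFinset ≠ ∅ := fun h => hne (by rw [h, Finset.toList_empty])
    have h5 := hcS _ h4
    rw [ZMod.natCast_eq_zero_iff, ← nf_count] at h5
    exact h5) (by
    intro h4
    have h5 := nf_count L ∅
    rw [Finset.toList_empty] at h5
    rw [h5, ← ZMod.natCast_eq_zero_iff, hc0] at h4
    exact hne h4) _ h3
  obtain ⟨π, h5, h6⟩ := h4.refutes (Set.mem_insert _ _)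
  refine ⟨π, h5, h6.trans (Nat.mul_le_mul_right _ ?_)⟩
  rw [List.length_map]
  have h7 : L.length * (a * (a + 1)) ≤ (PE.length * (M + p) + PP.length) * (a * (a + 1)) := Nat.mul_le_mul_right _ hLlen
  have h8 : (PE.length * (M + p) + PP.length) * (a * (a + 1) + 1) = (PE.length * (M + p) + PP.length) * (a * (a + 1)) +
    (PE.length * (M + p) + PP.length) := by ring
  omega

end PPh.TU
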