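import Pool.Agent.H94.PP.Final

/-!
helper85: graded modules and lower bounds for the onto functional pigeonhole principle with `m > n` arbitrary, in terms of the exponent of `p` in `m - n`
(on top of helper94's project MP_28250c_PP).
-/

set_option autoImplicit false
open Finset

namespace PPh

open ACpFrege

section
variable {p m' n' : ℕ}

/-- A family of operators with the relations of the onto functional pigeonhole principle with `M` pigeons and `N` holes. -/
structure PM (v : VOps p m' n') (M N : ℕ) (Y : ℕ → ℕ → VE p m' n' →ₗ[ZMod p] VE p m' n') : Prop where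
  cases : ∀ i j, (∃ e, Y i j = v.X e) ∨ Y i j = v.J ∨ Y i j = 0
  row : ∀ i < M, ∀ x, ∑ j ∈ Finset.range N, Y i j x = v.J x
  col : ∀ j < N, ∀ x, ∑ i ∈ Finset.range M, Y i j x = v.J x
  prow : ∀ i < M, ∀ j < N, ∀ j' < N, j ≠ j' → ∀ x, Y i j (Y i j' x) = 0
  pcol : ∀ i < M, ∀ i' < M, ∀ j < N, i ≠ i' → ∀ x, Y i j (Y i' j x) = 0

variable {v : VOps p m' n'} {M N : ℕ} {Y : ℕ → ℕ → VE p m' n' →ₗ[ZMod p] VE p m' n'}

theorem PM.commJ (h : PM v M N Y) (i j : ℕ) (x : VE p m' n') : v.J (Y i j x) = Y i j (v.J x) := by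
  rcases h.cases i j with ⟨e, h⟩ | h | h <;> rw [h]
  · exact v.commJ e x
  · simp

theorem PM.comm (h : PM v M N Y) (i j i' j' : ℕ) (x : VE p m' n') : Y i j (Y i' j' x) = Y i' j' (Y i j x) := by
  rcases h.cases i j with ⟨e, h1⟩ | h1 | h1
  · rcases h.cases i' j' with ⟨e', h'⟩ | h' | h' <;> rw [h1, h']
    · exact v.comm e e' x
    · exact (v.commJ e x).symm
    · simp
  · rw [h1]
    exact h.commJ i' j' x
  · rw [h1]
    simp

theorem PM.idem (h : PM v M N Y) (i j : ℕ) (x : VE p m' n') : Y i j (Y i j x) = v.J (Y i j x) := by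
  rcases h.cases i j with ⟨e, h⟩ | h | h <;> rw [h]
  · exact v.idem e x
  · simp

/-- The start. -/
theorem pm_base (v : VOps p m' n') : PM v m' n' fun i j => if h : i < m' ∧ j < n' then v.X (⟨i, h.1⟩, ⟨j, h.2⟩) else 0 where
  cases := fun i j => by
    by_cases h : i < m' ∧ j < n'
    · simp only [dif_pos h]
      exact Or.inl ⟨_, rfl⟩
    · simp only [dif_neg h]
      exact Or.inr (Or.inr trivial)
  row := fun i hi x => by
    rw [Finset.sum_range, ← v.row ⟨i, hi⟩ x]
    refine Finset.sum_congr rfl fun j _ => ?_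
    rw [dif_pos ⟨hi, j.2⟩]
  col := fun j hj x => by
    rw [Finset.sum_range, ← v.col ⟨j, hj⟩ x]
    refine Finset.sum_congr rfl fun i _ => ?_
    rw [dif_pos ⟨i.2, hj⟩]
  prow := fun i hi j hj j' hj' hne x => by
    rw [dif_pos ⟨hi, hj⟩, dif_pos ⟨hi, hj'⟩]
    exact v.prow _ _ _ x fun h => hne (congrArg Fin.val h)
  pcol := fun i hi i' hi' j hj hne x => by
    rw [dif_pos ⟨hi, hj⟩, dif_pos ⟨hi', hj⟩]
    exact v.pcol _ _ _ x fun h => hne (congrArg Fin.val h)

theorem sum_blocks {R : Type} [AddCommMonoid R] (f : ℕ → R) (N : ℕ) : ∀ u : ℕ,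
    ∑ j ∈ Finset.range (u * N), f j = ∑ g ∈ Finset.range u, ∑ j ∈ Finset.range N, f (g * N + j) := by
  intro u
  induction u with
  | zero => simp
  | succ u ih => rw [Nat.succ_mul, Finset.sum_range_add, ih, Finset.sum_range_succ]

theorem blk_div {g N j : ℕ} (hj : j < N) : (g * N + j) / N = g := by
  rw [mul_comm, Nat.mul_add_div (by omega), Nat.div_eq_of_lt hj, add_zero]

theorem blk_mod {g N j : ℕ} (hj : j < N) : (g * N + j) % N = j := by
  rw [mul_comm, Nat.mul_add_mod, Nat.mod_eq_of_lt hj]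

/-- Several copies. -/
theorem PM.copies (h : PM v M N Y) (u : ℕ) : PM v (u * M) (u * N) fun i j => if i / M = j / N then Y (i % M) (j % N) else 0 where
  cases := fun i j => by
    by_cases hij : i / M = j / N
    · simp only [if_pos hij]
      exact h.cases _ _
    · simp only [if_neg hij]
      exact Or.inr (Or.inr trivial)
  row := fun i hi x => by
    have hM : 0 < M := Nat.pos_of_ne_zero fun h => by
      rw [h, Nat.mul_zero] at hi
      omega
    have hg : i / M < u := Nat.div_lt_of_lt_mul (by rwa [Nat.mul_comm])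
    rw [sum_blocks]
    rw [Finset.sum_eq_single (i / M)]
    · rw [← h.row (i % M) (Nat.mod_lt _ hM) x]
      refine Finset.sum_congr rfl fun j hj => ?_
      rw [Finset.mem_range] at hj
      rw [blk_div hj, blk_mod hj, if_pos rfl]
    · intro g _ hne
      refine Finset.sum_eq_zero fun j hj => ?_
      rw [Finset.mem_range] at hj
      rw [blk_div hj, if_neg (Ne.symm hne), LinearMap.zero_apply]
    · intro h'
      exact absurd (Finset.mem_range.2 hg) h'
  col := fun j hj x => by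
    have hN : 0 < N := Nat.pos_of_ne_zero fun h => by
      rw [h, Nat.mul_zero] at hj
      omega
    have hg : j / N < u := Nat.div_lt_of_lt_mul (by rwa [Nat.mul_comm])
    rw [sum_blocks]
    rw [Finset.sum_eq_single (j / N)]
    · rw [← h.col (j % N) (Nat.mod_lt _ hN) x]
      refine Finset.sum_congr rfl fun i hi => ?_
      rw [Finset.mem_range] at hi
      rw [blk_div hi, blk_mod hi, if_pos rfl]
    · intro g _ hne
      refine Finset.sum_eq_zero fun i hi => ?_
      rw [Finset.mem_range] at hi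
      rw [blk_div hi, if_neg hne, LinearMap.zero_apply]
    · intro h'
      exact absurd (Finset.mem_range.2 hg) h'
  prow := fun i hi j hj j' hj' hne x => by
    have hM : 0 < M := Nat.pos_of_ne_zero fun h => by
      rw [h, Nat.mul_zero] at hi
      omega
    have hN : 0 < N := Nat.pos_of_ne_zero fun h => by
      rw [h, Nat.mul_zero] at hj
      omega
    by_cases h1 : i / M = j / N
    · by_cases h2 : i / M = j' / N
      · rw [if_pos h1, if_pos h2]
        refine h.prow _ (Nat.mod_lt _ hM) _ (Nat.mod_lt _ hN) _ (Nat.mod_lt _ hN) (fun h3 => hne ?_) x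
        rw [← Nat.div_add_mod j N, ← Nat.div_add_mod j' N, h3, ← h1, ← h2]
      · rw [if_neg h2, LinearMap.zero_apply, map_zero]
    · rw [if_neg h1, LinearMap.zero_apply]
  pcol := fun i hi i' hi' j hj hne x => by
    have hM : 0 < M := Nat.pos_of_ne_zero fun h => by
      rw [h, Nat.mul_zero] at hi
      omega
    have hN : 0 < N := Nat.pos_of_ne_zero fun h => by
      rw [h, Nat.mul_zero] at hj
      omega
    by_cases h1 : i / M = j / N
    · by_cases h2 : i' / M = j / N
      · rw [if_pos h1, if_pos h2]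
        refine h.pcol _ (Nat.mod_lt _ hM) _ (Nat.mod_lt _ hM) _ (Nat.mod_lt _ hN) (fun h3 => hne ?_) x
        rw [← Nat.div_add_mod i M, ← Nat.div_add_mod i' M, h3, h1, h2]
      · rw [if_neg h2, LinearMap.zero_apply, map_zero]
    · rw [if_neg h1, LinearMap.zero_apply]

/-- Additional pigeons and holes, matched by constants. -/
theorem PM.ext (h : PM v M N Y) (t : ℕ) : PM v (M + t) (N + t) fun i j => if i < M ∧ j < N then Y i j else
    if M ≤ i ∧ N ≤ j ∧ i + N = j + M then v.J else 0 where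
  cases := fun i j => by
    by_cases h1 : i < M ∧ j < N
    · simp only [if_pos h1]
      exact h.cases _ _
    · by_cases h2 : M ≤ i ∧ N ≤ j ∧ i + N = j + M
      · simp only [if_neg h1, if_pos h2]
        exact Or.inr (Or.inl trivial)
      · simp only [if_neg h1, if_neg h2]
        exact Or.inr (Or.inr trivial)
  row := fun i hi x => by
    rw [Finset.sum_range_add]
    by_cases h1 : i < M
    · have e1 : ∀ k ∈ Finset.range t, (if i < M ∧ N + k < N then Y i (N + k) else if M ≤ i ∧ N ≤ N + k ∧ i + N = N + k + M then v.J else 0) x = 0 := by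
        intro k _
        rw [if_neg (by omega), if_neg (by omega), LinearMap.zero_apply]
      rw [Finset.sum_eq_zero e1, add_zero, ← h.row i h1 x]
      refine Finset.sum_congr rfl fun j hj => ?_
      rw [Finset.mem_range] at hj
      rw [if_pos ⟨h1, hj⟩]
    · have e1 : ∀ j ∈ Finset.range N, (if i < M ∧ j < N then Y i j else if M ≤ i ∧ N ≤ j ∧ i + N = j + M then v.J else 0) x = 0 := by
        intro j hj
        rw [Finset.mem_range] at hj
        rw [if_neg (by omega), if_neg (by omega), LinearMap.zero_apply]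
      rw [Finset.sum_eq_zero e1, zero_add, Finset.sum_eq_single (i - M)]
      · rw [if_neg (by omega), if_pos (by omega)]
      · intro k _ hne
        rw [if_neg (by omega), if_neg (by omega), LinearMap.zero_apply]
      · intro h'
        exact absurd (Finset.mem_range.2 (by omega)) h'
  col := fun j hj x => by
    rw [Finset.sum_range_add]
    by_cases h1 : j < N
    · have e1 : ∀ k ∈ Finset.range t, (if M + k < M ∧ j < N then Y (M + k) j else if M ≤ M + k ∧ N ≤ j ∧ M + k + N = j + M then v.J else 0) x = 0 := by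
        intro k _
        rw [if_neg (by omega), if_neg (by omega), LinearMap.zero_apply]
      rw [Finset.sum_eq_zero e1, add_zero, ← h.col j h1 x]
      refine Finset.sum_congr rfl fun i hi => ?_
      rw [Finset.mem_range] at hi
      rw [if_pos ⟨hi, h1⟩]
    · have e1 : ∀ i ∈ Finset.range M, (if i < M ∧ j < N then Y i j else if M ≤ i ∧ N ≤ j ∧ i + N = j + M then v.J else 0) x = 0 := by
        intro i hi
        rw [Finset.mem_range] at hi
        rw [if_neg (by omega), if_neg (by omega), LinearMap.zero_apply]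
      rw [Finset.sum_eq_zero e1, zero_add, Finset.sum_eq_single (j - N)]
      · rw [if_neg (by omega), if_pos (by omega)]
      · intro k _ hne
        rw [if_neg (by omega), if_neg (by omega), LinearMap.zero_apply]
      · intro h'
        exact absurd (Finset.mem_range.2 (by omega)) h'
  prow := fun i hi j hj j' hj' hne x => by
    by_cases h1 : i < M ∧ j < N
    · by_cases h2 : i < M ∧ j' < N
      · rw [if_pos h1, if_pos h2]
        exact h.prow i h1.1 j h1.2 j' h2.2 hne x
      · rw [if_neg h2, if_neg (by omega : ¬ (M ≤ i ∧ N ≤ j' ∧ i + N = j' + M)), LinearMap.zero_apply, map_zero]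
    · by_cases h2 : M ≤ i ∧ N ≤ j ∧ i + N = j + M
      · rw [if_neg (by omega : ¬ (i < M ∧ j' < N)), if_neg (by omega : ¬ (M ≤ i ∧ N ≤ j' ∧ i + N = j' + M)), LinearMap.zero_apply, map_zero]
      · rw [if_neg h1, if_neg h2, LinearMap.zero_apply]
  pcol := fun i hi i' hi' j hj hne x => by
    by_cases h1 : i < M ∧ j < N
    · by_cases h2 : i' < M ∧ j < N
      · rw [if_pos h1, if_pos h2]
        exact h.pcol i h1.1 i' h2.1 j h1.2 hne x
      · rw [if_neg h2, if_neg (by omega : ¬ (M ≤ i' ∧ N ≤ j ∧ i' + N = j + M)), LinearMap.zero_apply, map_zero]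
    · by_cases h2 : M ≤ i ∧ N ≤ j ∧ i + N = j + M
      · rw [if_neg (by omega : ¬ (i' < M ∧ j < N)), if_neg (by omega : ¬ (M ≤ i' ∧ N ≤ j ∧ i' + N = j + M)), LinearMap.zero_apply, map_zero]
      · rw [if_neg h1, if_neg h2, LinearMap.zero_apply]

theorem PM.Md (h : PM v M N Y) (hmn : n' < m') (i j : ℕ) {D : ℕ} {x : VE p m' n'} (hx : x ∈ Md p m' n' D) : Y i j x ∈ Md p m' n' (D + 1) := by
  rcases h.cases i j with ⟨e, h⟩ | h | h <;> rw [h]
  · exact X_Md v hmn e hx
  · exact J_Md v hmn hx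
  · rw [LinearMap.zero_apply]
    exact Submodule.zero_mem _

/-- The graded module. -/
noncomputable def gmu [Fact p.Prime] (h : PM v M N Y) (hmn : n' < m') (D v' n : ℕ) : Gm (ZMod p) (VE p m' n') v' where
  J := v.J
  X := fun x => Y (x.1 / n) (x.1 % n)
  M := fun j => PPh.Md p m' n' (D + j)
  mapJ := fun _ _ hm => J_Md v hmn hm
  mapX := fun _ _ _ hm => h.Md hmn _ _ hm
  commJ := fun _ _ => h.commJ _ _ _
  comm := fun _ _ _ => h.comm _ _ _ _ _
  idem := fun _ _ => h.idem _ _ _

theorem gmu_X [Fact p.Prime] (h : PM v M N Y) (hmn : n' < m') (D v' : ℕ) {n i j : ℕ} (hj : j < n) (hl : i * n + j < v') :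
    (gmu h hmn D v' n).X ⟨i * n + j, hl⟩ = Y i j := by
  show Y ((i * n + j) / n) ((i * n + j) % n) = Y i j
  rw [blk_div hj, blk_mod hj]

theorem gmu_Cl [Fact p.Prime] {m n : ℕ} (h : PM v m n Y) (hmn : n' < m') (D : ℕ) :
    ∀ C ∈ ofphp m n, (gmu h hmn D (m * n) n).Cl C := by
  intro C hC
  unfold ofphp php at hC
  simp only [List.mem_append, List.mem_map, List.mem_flatMap, List.mem_range] at hC
  rcases hC with (⟨i, hi, rfl⟩ | ⟨j, hj, i', hi', i, hi, rfl⟩) | (⟨j, hj, rfl⟩ | ⟨i, hi, j', hj', j, hj, rfl⟩)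
  · refine Or.inr ⟨List.ofFn fun j : Fin n => (⟨i * n + j.1, lt_mn hi j.2⟩ : Fin (m * n)), ?_, ?_, fun x => ?_⟩
    · rw [List.nodup_ofFn]
      intro a b hab
      have h1 := congrArg Fin.val hab
      simp only at h1
      exact Fin.ext (by omega)
    · rw [List.map_ofFn]
      refine List.ext_getElem (by simp) fun k h1 h2 => ?_
      simp
    · have hJ : (gmu h hmn D (m * n) n).J x = v.J x := rfl
      rw [List.map_ofFn, List.sum_ofFn, hJ, ← h.row i hi x, Finset.sum_range]
      refine Finset.sum_congr rfl fun j _ => ?_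
      show (gmu h hmn D (m * n) n).X _ x = _
      rw [gmu_X h hmn D (m * n) j.2 (lt_mn hi j.2)]
  · refine Or.inl ⟨⟨i * n + j, lt_mn (by omega) hj⟩, ⟨i' * n + j, lt_mn hi' hj⟩, rfl, fun x => ?_⟩
    rw [gmu_X h hmn D (m * n) hj, gmu_X h hmn D (m * n) hj]
    exact h.pcol i (by omega) i' hi' j hj (by omega) x
  · refine Or.inr ⟨List.ofFn fun i : Fin m => (⟨i.1 * n + j, lt_mn i.2 hj⟩ : Fin (m * n)), ?_, ?_, fun x => ?_⟩
    · rw [List.nodup_ofFn]
      intro a b hab
      have h1 := congrArg Fin.val hab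
      simp only at h1
      have h2 : a.1 * n = b.1 * n := by omega
      exact Fin.ext (Nat.eq_of_mul_eq_mul_right (by omega : 0 < n) h2)
    · rw [List.map_ofFn]
      refine List.ext_getElem (by simp) fun k h1 h2 => ?_
      simp
    · have hJ : (gmu h hmn D (m * n) n).J x = v.J x := rfl
      rw [List.map_ofFn, List.sum_ofFn, hJ, ← h.col j hj x, Finset.sum_range]
      refine Finset.sum_congr rfl fun i _ => ?_
      show (gmu h hmn D (m * n) n).X _ x = _
      rw [gmu_X h hmn D (m * n) hj (lt_mn i.2 hj)]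
  · refine Or.inl ⟨⟨i * n + j, lt_mn hi (by omega)⟩, ⟨i * n + j', lt_mn hi hj'⟩, rfl, fun x => ?_⟩
    rw [gmu_X h hmn D (m * n) (by omega : j < n), gmu_X h hmn D (m * n) hj']
    exact h.prow i hi j (by omega) j' hj' (by omega) x

theorem gmu_op [Fact p.Prime] (h : PM v M N Y) (hmn : n' < m') (D v' n a : ℕ) :
    Module.finrank (ZMod p) ((gmu h hmn D v' n).Op a) ≤ (m' * n' + 1) ^ a := by
  have h := op_dim (gmu h hmn D v' n) (ι := Option (Fin m' × Fin n')) (fun c => c.elim v.J v.X) ⟨none, rfl⟩ (fun x => ?_) a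
  · rwa [Fintype.card_option, Fintype.card_prod, Fintype.card_fin, Fintype.card_fin] at h
  · rcases h.cases (x.1 / n) (x.1 % n) with ⟨e, h⟩ | h | h
    · exact Or.inr ⟨some e, h⟩
    · exact Or.inr ⟨none, h⟩
    · exact Or.inl h

end

/-- Graded modules for `ofphp (n + u p^l) n`. -/
def OutMu (p : ℕ) [Fact p.Prime] : Prop := ∃ l₀ : ℕ, ∀ l ≥ l₀, ∀ u n L : ℕ, u * (2 * p + 4) ^ (5 * l) ≤ n → L ≤ 2 ^ (l / 2) →
  HasGm p ((n + u * p ^ l) * n) (ofphp (n + u * p ^ l) n) L ((2 * p + 4) ^ (15 * l)) (2 ^ (2 ^ (l / 2) / 2))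
    ((2 * ((2 * p + 4) ^ (5 * l)) ^ 2) ^ L)

theorem outMu (p : ℕ) [Fact p.Prime] (hA : ∀ l, OutA p l) (hB : ∀ l, OutB p l) (hE : OutE p) : OutMu p := by
  obtain ⟨l₀, hE⟩ := hE
  have hp : 2 ≤ p := (Fact.out : p.Prime).two_le
  refine ⟨max l₀ (2 * p + 4), fun l hl u n L hn hL => ?_⟩
  obtain ⟨n', r, h1, h2, h3, h4, B, hB0, hB1, hB2, hB3⟩ := hE l ((le_max_left _ _).trans hl)
  have hl' : 2 * p + 4 ≤ l := (le_max_right _ _).trans hl
  have hs : 0 < p ^ l := pow_pos (by omega) _
  have hmn : n' < n' + p ^ l := by omega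
  obtain ⟨v, hv⟩ : ∃ v, v = vops p (n' + p ^ l) n' hmn := ⟨_, rfl⟩
  have hbig := num_big hp hl' h1 hL
  have hJ : ∀ j, j ≤ L → cnt (n' + p ^ l) n' (fun u w => r - j ≤ u ∧ u + 2 ≤ r - j + 2 ^ l ∧ w + (p + 2) ^ l ≤ u) ≤
      Module.finrank (ZMod p) ((Md p (n' + p ^ l) n' (n' - r + j)).map v.J) := by
    intro j hj
    have h5 := hB l n' (n' - r + j) (by omega) v
    have h6 : n' - (n' - r + j) = r - j := by omega
    rw [h6] at h5
    exact h5
  have hU : ∀ j, j ≤ L → Module.finrank (ZMod p) (Md p (n' + p ^ l) n' (n' - r + j)) ≤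
      cnt (n' + p ^ l) n' fun u _ => r - j ≤ u ∧ u < r - j + p ^ l := by
    intro j hj
    have h5 := hA l n' (n' - r + j) (by omega)
    have h6 : n' - (n' - r + j) = r - j := by omega
    rw [h6] at h5
    exact h5
  have h0 : B ≤ Module.finrank (ZMod p) (Md p (n' + p ^ l) n' (n' - r + 0)) := by
    refine le_trans ?_ (Submodule.finrank_map_le v.J _)
    rw [hB0]
    exact hJ 0 (Nat.zero_le _)
  have hun : u * n' ≤ n := (Nat.mul_le_mul_left _ h2).trans hn
  have hPM := ((pm_base v).copies u).ext (n - u * n')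
  have em : u * (n' + p ^ l) + (n - u * n') = n + u * p ^ l := by
    rw [Nat.mul_add]
    omega
  have en : u * n' + (n - u * n') = n := by omega
  rw [em, en] at hPM
  refine ⟨VE p (n' + p ^ l) n', inferInstance, inferInstance, inferInstance,
    gmu hPM hmn (n' - r) ((n + u * p ^ l) * n) n, ?_, ?_, ?_, ?_, ?_⟩
  · exact lt_of_lt_of_le (lt_of_lt_of_le hbig hB1) h0
  · intro j hj
    refine (hU j hj).trans ?_
    exact (hB2 j (hj.trans hL)).trans (Nat.mul_le_mul_left _ h0)
  · intro j hj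
    refine le_trans ?_ h0
    refine le_trans (Nat.mul_le_mul_left _ ?_) (hB3 j (lt_of_lt_of_le hj hL))
    have h5 := rank_ker v.J (Md p (n' + p ^ l) n' (n' - r + j))
    have h6 := hU j hj.le
    have h7 := hJ j hj.le
    have h8 : cnt (n' + p ^ l) n' (fun u _ => r - j ≤ u ∧ u < r - j + p ^ l) ≤
        cnt (n' + p ^ l) n' (fun u w => r - j ≤ u ∧ u + 2 ≤ r - j + 2 ^ l ∧ w + (p + 2) ^ l ≤ u) +
          (cnt (n' + p ^ l) n' (fun u _ => r + 2 ^ l ≤ u + j + 1) +
            cnt (n' + p ^ l) n' (fun u w => r ≤ u + j ∧ u < w + (p + 2) ^ l)) := by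
      refine cnt_le_add3 fun u w h => ?_
      have h9 : j ≤ r := by omega
      omega
    show Module.finrank (ZMod p) ↥(Md p (n' + p ^ l) n' (n' - r + j) ⊓ LinearMap.ker v.J) ≤ _
    omega
  · intro a ha
    refine (gmu_op hPM hmn _ _ n a).trans ?_
    have h5 : p ^ l + 1 ≤ (2 * p + 4) ^ (5 * l) := by
      have h6 : p ^ l < (2 * p + 4) ^ l := Nat.pow_lt_pow_left (by omega) (by omega)
      exact h6.trans_le (Nat.pow_le_pow_right (by omega) (by omega))
    obtain ⟨N, hN⟩ : ∃ N, N = (2 * p + 4) ^ (5 * l) := ⟨_, rfl⟩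
    rw [← hN] at h5 h2 ⊢
    have h6 : (n' + p ^ l) * n' + 1 ≤ 2 * N ^ 2 := by
      have h7 : (n' + p ^ l) * n' ≤ (N + (N - 1)) * N := Nat.mul_le_mul (by omega) h2
      have h8 : (N + (N - 1)) * N + N = 2 * N ^ 2 := by
        have h9 : N + (N - 1) + 1 = 2 * N := by omega
        calc (N + (N - 1)) * N + N = (N + (N - 1) + 1) * N := by ring
          _ = 2 * N ^ 2 := by
            rw [h9]
            ring
      omega
    exact (Nat.pow_le_pow_left h6 _).trans (Nat.pow_le_pow_right (by omega) ha)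
  · exact gmu_Cl hPM hmn (n' - r)

theorem outMu_all (p : ℕ) [Fact p.Prime] : OutMu p :=
  outMu p (fun l => outA_of p l fun n v => vnil p l n v) (fun l => BB.outB_of p l (Pool.Agent.H84.PP.outB' p l))
    (PPE.outE p (Fact.out : p.Prime).two_le)

/-- The lower bound for the onto functional pigeonhole principle with `m > n` arbitrary, in terms of a power `p^l` which divides `m - n`. -/
def StatementOFu : Prop :=
  ∀ p : ℕ, p.Prime → ∀ S : List (Rule p), (∀ R ∈ S, R.Sound) → ∃ l₀ : ℕ, ∀ l ≥ l₀, ∀ d : ℕ,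
    (l : ℝ) ^ (d + 1) ≤ 2 ^ ((l : ℝ) / 20) → ∀ m n : ℕ, n < m → p ^ l ∣ m - n → (m - n) * (2 * p + 4) ^ (5 * l) ≤ n * p ^ l →
      ∀ π : List (Fm p), Refutes S d (ofphp m n) π → (2 : ℝ) ^ ((2 : ℝ) ^ ((l : ℝ) / (20 * (d + 1)))) ≤ psize π

theorem mainOFu : StatementOFu := by
  intro p hp S hS
  have : Fact p.Prime := ⟨hp⟩
  obtain ⟨l1, hM⟩ := outMu_all p
  -- the family: the index codes the pair `u`, `n`
  set F : ℕ → ℕ → CNF := fun l k => if k.unpair.1 * (2 * p + 4) ^ (5 * l) ≤ k.unpair.2 then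
    ofphp (k.unpair.2 + k.unpair.1 * p ^ l) k.unpair.2 else ofphp (k + 0 * p ^ l) k with hF
  set nv : ℕ → ℕ → ℕ := fun l k => if k.unpair.1 * (2 * p + 4) ^ (5 * l) ≤ k.unpair.2 then
    (k.unpair.2 + k.unpair.1 * p ^ l) * k.unpair.2 else (k + 0 * p ^ l) * k with hnv
  obtain ⟨l₀, h⟩ := of_gen hp (H := fun n F L A R del => HasGm p n F L A R del) (Sd.outG p) F nv ⟨l1, fun l hl k L _ hL => by
    simp only [hF, hnv]
    by_cases hk : k.unpair.1 * (2 * p + 4) ^ (5 * l) ≤ k.unpair.2
    · rw [if_pos hk, if_pos hk]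
      exact hM l hl _ _ L hk hL
    · rw [if_neg hk, if_neg hk]
      exact hM l hl 0 k L (by rw [Nat.zero_mul]; exact Nat.zero_le _) hL⟩ S hS
  refine ⟨l₀, fun l hl d hd m n hnm hdv hn π hπ => ?_⟩
  have e1 : (l : ℝ) / 20 = (1 : ℝ) / 20 * l := by ring
  have e2 : (l : ℝ) / (20 * (d + 1)) = (1 : ℝ) / 20 * l / (d + 1) := by
    have : ((d : ℝ) + 1) ≠ 0 := by positivity
    field_simp
  rw [e2]
  obtain ⟨u, hu⟩ := hdv
  have hpl : 0 < p ^ l := pow_pos hp.pos _
  have hu1 : 1 ≤ u := Nat.one_le_iff_ne_zero.2 fun h0 => by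
    rw [h0, Nat.mul_zero] at hu
    omega
  have hm : m = n + u * p ^ l := by
    rw [Nat.mul_comm]
    omega
  have hun : u * (2 * p + 4) ^ (5 * l) ≤ n := by
    rw [hu] at hn
    refine Nat.le_of_mul_le_mul_right ?_ hpl
    calc u * (2 * p + 4) ^ (5 * l) * p ^ l = p ^ l * u * (2 * p + 4) ^ (5 * l) := by ring
      _ ≤ n * p ^ l := hn
  have hk : (2 * p + 4) ^ (5 * l) ≤ Nat.pair u n := by
    calc (2 * p + 4) ^ (5 * l) ≤ u * (2 * p + 4) ^ (5 * l) := Nat.le_mul_of_pos_left _ hu1
      _ ≤ n := hun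
      _ ≤ Nat.pair u n := Nat.right_le_pair u n
  refine h l hl d (by rw [← e1]; exact hd) (Nat.pair u n) hk π ?_
  simp only [hF, Nat.unpair_pair]
  rw [if_pos hun, ← hm]
  exact hπ

end PPh
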