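import Pool.Agent.H85.GX.PhpU
import Pool.Agent.H75.PQ.Fin

/-!
helper85: the forms with axioms (helper75's project MP_28250c_PQ) of the lower bounds for `php m n` and `ofphp m n` in the whole range.
-/

set_option autoImplicit false

namespace PPh

open ACpFrege

/-- The onto functional principle with `m > n` arbitrary, in terms of a power `p^l` which divides `m - n`, with axioms. -/
def StatementOFuR : Prop :=
  ∀ p : ℕ, p.Prime → ∃ l₀ : ℕ, ∀ l ≥ l₀, ∀ d : ℕ, (l : ℝ) ^ (d + 1) ≤ 2 ^ ((l : ℝ) / 20) →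
    ∀ m n : ℕ, n < m → p ^ l ∣ m - n → (m - n) * (2 * p + 4) ^ (5 * l) ≤ n * p ^ l →
      ∀ (S : List (Rule p)) (P : ℕ), (∀ R ∈ S, R.Sound) → (∀ R ∈ S, (R.vars : ℝ) ≤ 2 ^ ((l : ℝ) / 20)) →
      (P : ℝ) ≤ 2 ^ ((l : ℝ) / 20) →
      ∀ π : List (Fm p), RefutesR S d P (ofphp m n) π → (2 : ℝ) ^ ((2 : ℝ) ^ ((l : ℝ) / (20 * (d + 1)))) ≤ psize π

theorem mainOFuR : StatementOFuR := by
  intro p hp
  have : Fact p.Prime := ⟨hp⟩
  obtain ⟨l1, hM⟩ := outMu_all p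
  set F : ℕ → ℕ → CNF := fun l k => if k.unpair.1 * (2 * p + 4) ^ (5 * l) ≤ k.unpair.2 then
    ofphp (k.unpair.2 + k.unpair.1 * p ^ l) k.unpair.2 else ofphp (k + 0 * p ^ l) k with hF
  set nv : ℕ → ℕ → ℕ := fun l k => if k.unpair.1 * (2 * p + 4) ^ (5 * l) ≤ k.unpair.2 then
    (k.unpair.2 + k.unpair.1 * p ^ l) * k.unpair.2 else (k + 0 * p ^ l) * k with hnv
  obtain ⟨l₀, h⟩ := of_genR hp (H := fun n F L A R del => HasGmW 2 p n F L A R del) (Sd.outGR p 2) F nv ⟨l1, fun l hl k L _ hL => by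
    simp only [hF, hnv]
    by_cases hk : k.unpair.1 * (2 * p + 4) ^ (5 * l) ≤ k.unpair.2
    · rw [if_pos hk, if_pos hk]
      exact hasGmW_of (hM l hl _ _ L hk hL)
    · rw [if_neg hk, if_neg hk]
      exact hasGmW_of (hM l hl 0 k L (by rw [Nat.zero_mul]; exact Nat.zero_le _) hL)⟩
  refine ⟨l₀, fun l hl d hd m n hnm hdv hn S P hS hvS hP π hπ => ?_⟩
  have e1 : (l : ℝ) / 20 = (1 : ℝ) / 20 * l := by ring
  have e2 : (l : ℝ) / (20 * (d + 1)) = (1 : ℝ) / 20 * l / (d + 1) := by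
    have : ((d : ℝ) + 1) ≠ 0 := by positivity
    field_simp
  rw [e2]
  rw [e1] at hd hvS hP
  obtain ⟨u, hu⟩ := hdv
  have hpl : 0 < p ^ l := pow_pos hp.pos _
  have hu1 : 1 ≤ u := Nat.one_le_iff_ne_zero.2 fun h0 => by
    rw [h0, Nat.mul_zero] at hu
    omega
  have hm : m = n + u * p ^ l := by
    rw [Nat.mul_comm]
    omega
  have hun : u * (2 * p + 4) ^ (5 * l) ≤ n := by
    rw [hu] at hn
    refine Nat.le_of_mul_le_mul_right ?_ hpl
    calc u * (2 * p + 4) ^ (5 * l) * p ^ l = p ^ l * u * (2 * p + 4) ^ (5 * l) := by ring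
      _ ≤ n * p ^ l := hn
  have hk : (2 * p + 4) ^ (5 * l) ≤ Nat.pair u n := by
    calc (2 * p + 4) ^ (5 * l) ≤ u * (2 * p + 4) ^ (5 * l) := Nat.le_mul_of_pos_left _ hu1
      _ ≤ n := hun
      _ ≤ Nat.pair u n := Nat.right_le_pair u n
  refine h l hl d hd (Nat.pair u n) hk S ⌊(2 : ℝ) ^ ((1 : ℝ) / 20 * l)⌋₊ P hS (fun R hR => Nat.le_floor (hvS R hR))
    (Nat.floor_le (by positivity)) hP π ?_
  simp only [hF, Nat.unpair_pair]
  rw [if_pos hun, ← hm]
  exact hπ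

/-- The pigeonhole principle with `n` holes and at most `n + n / K` pigeons, with axioms. -/
def StatementPHPuR : Prop :=
  ∀ p : ℕ, p.Prime → ∃ K₀ : ℕ, ∀ K ≥ K₀, ∀ d : ℕ,
    Real.log K ^ (d + 1) ≤ (K : ℝ) ^ (Real.log 2 / (200 * Real.log (2 * p + 4))) →
    ∀ (S : List (Rule p)) (P : ℕ), (∀ R ∈ S, R.Sound) →
      (∀ R ∈ S, (R.vars : ℝ) ≤ (K : ℝ) ^ (Real.log 2 / (200 * Real.log (2 * p + 4)))) →
      (P : ℝ) ≤ (K : ℝ) ^ (Real.log 2 / (200 * Real.log (2 * p + 4))) → ∀ m n : ℕ, n < m → K * (m - n) ≤ n →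
      ∀ π : List (Fm p), RefutesR S d P (php m n) π →
        (2 : ℝ) ^ ((K : ℝ) ^ (Real.log 2 / (200 * Real.log (2 * p + 4)) / (d + 1))) ≤ psize π

theorem mainPHPuR : StatementPHPuR := by
  intro p hp
  obtain ⟨l0, hl0⟩ := mainOFuR p hp
  have hcx : Real.log 2 / (200 * Real.log (2 * p + 4)) = cexp p := rfl
  rw [hcx]
  set B : ℕ := (2 * p + 4) ^ 5 with hB
  have hB1 : 1 < B := Nat.one_lt_pow (by norm_num) (by omega)
  have hB4 : 4 ≤ B := by
    calc 4 ≤ 2 * p + 4 := by omega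
      _ ≤ (2 * p + 4) ^ 5 := Nat.le_self_pow (by norm_num) _
  have hBr : (4 : ℝ) ≤ B := by exact_mod_cast hB4
  have hl2 : 0 < Real.log 2 := Real.log_pos (by norm_num)
  have hlB : 1 ≤ Real.log B := by
    rw [Real.le_log_iff_exp_le (by linarith)]
    linarith [Real.exp_one_lt_d9]
  have hlB0 : 0 < Real.log B := by linarith
  have hlB5 : Real.log B = 5 * Real.log (2 * p + 4) := by
    rw [hB]
    push_cast
    rw [Real.log_pow]
    norm_num
  have hc : cexp p = 1 / 20 * (Real.log 2 / Real.log B) / 2 := by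
    have : Real.log (2 * (p : ℝ) + 4) ≠ 0 := by
      intro h
      rw [h] at hlB5
      linarith
    rw [hlB5]
    unfold cexp
    field_simp
    norm_num
  have hcp : 0 < cexp p := by
    rw [hc]
    positivity
  refine ⟨B ^ (l0 + 1), fun K hK d hd S P hS hvS hP m n hnm hmn π hπ => ?_⟩
  have hK1 : 1 ≤ K := le_trans (Nat.one_le_pow _ _ (by omega)) hK
  have hnr : (1 : ℝ) ≤ K := by exact_mod_cast hK1
  have hnr0 : (0 : ℝ) < K := by linarith
  set l : ℕ := Nat.log B K with hl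
  have h1 : B ^ l ≤ K := Nat.pow_log_le_self B (by omega)
  have h2 : K < B ^ (l + 1) := Nat.lt_pow_succ_log_self hB1 K
  have hl1 : l0 + 1 ≤ l := (Nat.le_log_iff_pow_le hB1 (by omega)).2 hK
  have hlr : (1 : ℝ) ≤ l := by exact_mod_cast (by omega : 1 ≤ l)
  have hlog1 : (l : ℝ) * Real.log B ≤ Real.log K := by
    rw [← Real.log_pow]
    exact Real.log_le_log (by positivity) (by exact_mod_cast h1)
  have hlog2 : Real.log K ≤ ((l : ℝ) + 1) * Real.log B := by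
    have : Real.log K ≤ Real.log ((B : ℝ) ^ (l + 1)) := Real.log_le_log hnr0 (by exact_mod_cast h2.le)
    rw [Real.log_pow] at this
    push_cast at this
    exact this
  have hln : (l : ℝ) ≤ Real.log K := by nlinarith
  have hnc : (K : ℝ) ^ cexp p ≤ (2 : ℝ) ^ ((1 : ℝ) / 20 * l) := by
    rw [Real.rpow_def_of_pos hnr0, Real.rpow_def_of_pos (by norm_num)]
    refine Real.exp_le_exp.2 ?_
    have e1 : Real.log K * cexp p ≤ ((l : ℝ) + 1) * Real.log B * cexp p := mul_le_mul_of_nonneg_right hlog2 hcp.le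
    have e2 : ((l : ℝ) + 1) * Real.log B * cexp p = ((l : ℝ) + 1) / 2 * (1 / 20 * Real.log 2) := by
      rw [hc]
      field_simp
    have e3 : ((l : ℝ) + 1) / 2 * (1 / 20 * Real.log 2) ≤ (l : ℝ) * (1 / 20 * Real.log 2) :=
      mul_le_mul_of_nonneg_right (by linarith) (by positivity)
    calc Real.log K * cexp p ≤ (l : ℝ) * (1 / 20 * Real.log 2) := by linarith
      _ = Real.log 2 * (1 / 20 * l) := by ring
  have e20 : (l : ℝ) / 20 = (1 : ℝ) / 20 * l := by ring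
  have hdl : (l : ℝ) ^ (d + 1) ≤ (2 : ℝ) ^ ((l : ℝ) / 20) := by
    rw [e20]
    calc (l : ℝ) ^ (d + 1) ≤ Real.log K ^ (d + 1) := pow_le_pow_left₀ (Nat.cast_nonneg _) hln _
      _ ≤ (K : ℝ) ^ cexp p := hd
      _ ≤ _ := hnc
  have hB5 : (2 * p + 4) ^ (5 * l) ≤ K := by
    rw [pow_mul]
    exact h1
  have hpl : 0 < p ^ l := pow_pos hp.pos _
  set u : ℕ := (m - n + p ^ l - 1) / p ^ l with hu
  have hum : m ≤ n + u * p ^ l := by
    have h3 := Nat.div_add_mod (m - n + p ^ l - 1) (p ^ l)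
    have h4 := Nat.mod_lt (m - n + p ^ l - 1) hpl
    rw [← hu, Nat.mul_comm] at h3
    omega
  have hu1 : u ≤ m - n := by
    rw [hu]
    refine Nat.div_le_of_le_mul ?_
    obtain ⟨a, ha⟩ : ∃ a, m - n = a + 1 := ⟨m - n - 1, by omega⟩
    obtain ⟨b, hb⟩ : ∃ b, p ^ l = b + 1 := ⟨p ^ l - 1, by omega⟩
    rw [ha, hb]
    have : (b + 1) * (a + 1) = b * a + b + a + 1 := by ring
    omega
  have hun : u * (2 * p + 4) ^ (5 * l) ≤ n := by
    calc u * (2 * p + 4) ^ (5 * l) ≤ (m - n) * K := Nat.mul_le_mul hu1 hB5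
      _ ≤ n := by rw [Nat.mul_comm]; exact hmn
  have hsub : n + u * p ^ l - n = u * p ^ l := Nat.add_sub_cancel_left _ _
  have hr : RefutesR S d P (ofphp (n + u * p ^ l) n) π := refutesR_mono (fun C hC => by
    unfold ofphp
    exact List.mem_append.2 (Or.inl (php_mono hum C hC))) hπ
  rw [← e20] at hnc
  refine le_trans ?_ (hl0 l (by omega) d hdl (n + u * p ^ l) n (by omega) (by rw [hsub]; exact dvd_mul_left _ _) (by
    rw [hsub]
    calc u * p ^ l * (2 * p + 4) ^ (5 * l) = u * (2 * p + 4) ^ (5 * l) * p ^ l := by ring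
      _ ≤ n * p ^ l := Nat.mul_le_mul_right _ hun) S P hS (fun R hR => (hvS R hR).trans hnc) (hP.trans hnc) π hr)
  rw [e20] at hnc
  refine Real.rpow_le_rpow_of_exponent_le (by norm_num) ?_
  have hd0 : (0 : ℝ) < (d : ℝ) + 1 := by positivity
  have e1 : (K : ℝ) ^ (cexp p / (d + 1)) = ((K : ℝ) ^ cexp p) ^ (1 / ((d : ℝ) + 1)) := by
    rw [← Real.rpow_mul hnr0.le]
    congr 1
    ring
  have e2 : (2 : ℝ) ^ ((l : ℝ) / (20 * (d + 1))) = ((2 : ℝ) ^ ((1 : ℝ) / 20 * l)) ^ (1 / ((d : ℝ) + 1)) := by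
    rw [← Real.rpow_mul (by norm_num)]
    congr 1
    field_simp
  rw [e1, e2]
  exact Real.rpow_le_rpow (by positivity) hnc (by positivity)

end PPh
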