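import Pool.Agent.H85.GX.Gen

/-!
helper85: Nullstellensatz refutations over `Z/p` from exactly-one families in the system `SysX`: normal forms and the end of the refutation.
-/

set_option autoImplicit false
open Finset

namespace PPh.TU

open ACpFrege ACpB ACpSep PPh

variable {p : ℕ} {F : CNF} {B k : ℕ} {T : Set (Fm p)} {a : ℕ}

/-! ### Normal forms -/

theorem dx_du (y : ℕ) (L1 L2 : List (List ℕ)) (R : List ℕ) : ∀ (s : List ℕ) (k : ℕ), (∀ C ∈ L1 ++ (y :: (s ++ R)) :: L2, C.length ≤ a) →
    1 + (L1 ++ (y :: (s ++ R)) :: L2).length * (1 + a) ≤ B →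
    Dv (SysX p) F 3 B k (insert (ml p (L1 ++ (y :: (s ++ R)) :: L2)) T) →
    Dv (SysX p) F 3 B (k + R.length) (insert (ml p (L1 ++ (y :: (s ++ R.filter fun x => x ≠ y)) :: L2)) T) := by
  induction R with
  | nil =>
    intro s k _ _ h
    exact h
  | cons x R ih =>
    intro s k ha hB h
    by_cases hxy : x = y
    · subst hxy
      have hC : (x :: (s ++ x :: R)).length ≤ a := ha _ (by simp)
      have hw : ∀ C ∈ L1 ++ (x :: (s ++ R)) :: L2, C.length ≤ a := by
        intro C hC'
        rcases List.mem_append.1 hC' with h1 | h1
        · exact ha C (List.mem_append_left _ h1)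
        · rcases List.mem_cons.1 h1 with rfl | h1
          · simp only [List.length_cons, List.length_append] at hC ⊢
            omega
          · exact ha C (List.mem_append_right _ (List.mem_cons_of_mem _ h1))
      have hlen := len_mid L1 L2 (x :: (s ++ R)) (x :: (s ++ x :: R))
      have h1 := h.step (sx_du x s R L1 L2 (Set.mem_insert _ _)) ((ml_depth _).trans (by omega)) ((ml_size_le hw).trans (by
        rw [hlen]
        exact hB))
      have h2 := ih s (k + 1) hw (by rw [hlen]; exact hB) (h1.mono le_rfl (ins_mono' subset_rfl))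
      rw [List.filter_cons_of_neg (by simp)]
      exact h2.mono (by rw [List.length_cons]; omega) subset_rfl
    · have e1 : s ++ x :: R = (s ++ [x]) ++ R := by simp
      rw [e1] at ha hB h
      have h2 := ih (s ++ [x]) k ha hB h
      rw [List.filter_cons_of_pos (by simpa using hxy)]
      have e2 : s ++ x :: R.filter (fun x => x ≠ y) = (s ++ [x]) ++ R.filter (fun x => x ≠ y) := by simp
      rw [e2]
      exact h2.mono (by rw [List.length_cons]; omega) subset_rfl

theorem dx_nf1 (L1 L2 : List (List ℕ)) (u : List ℕ) (N : ℕ) : ∀ (R s : List ℕ) (k : ℕ), u.Nodup → (∀ x ∈ R, x ∈ u) → (∀ x ∈ u, x ∈ R) →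
    R.length ≤ N → (∀ C ∈ L1 ++ (s ++ R) :: L2, C.length ≤ a) → 1 + (L1 ++ (s ++ R) :: L2).length * (1 + a) ≤ B →
    Dv (SysX p) F 3 B k (insert (ml p (L1 ++ (s ++ R) :: L2)) T) →
    Dv (SysX p) F 3 B (k + u.length * (N + 1)) (insert (ml p (L1 ++ (u ++ s) :: L2)) T) := by
  induction u using List.reverseRecOn with
  | nil =>
    intro R s k _ h1 _ _ _ _ h
    have hR : R = [] := List.eq_nil_iff_forall_not_mem.2 fun x hx => absurd (h1 x hx) (by simp)
    subst hR
    rw [List.append_nil] at h
    exact h.mono (by omega) subset_rfl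
  | append_singleton u y ih =>
    intro R s k hnd h1 h2 hN ha hB h
    obtain ⟨R1, R2, rfl⟩ := List.append_of_mem (h2 y (by simp))
    have hC : (s ++ (R1 ++ y :: R2)).length ≤ a := ha _ (by simp)
    have hyu : y ∉ u := by
      intro hy
      rw [List.nodup_append] at hnd
      exact hnd.2.2 y hy y (by simp) rfl
    have hund : u.Nodup := (List.nodup_append.1 hnd).1
    have hw : ∀ C ∈ L1 ++ (y :: (s ++ (R1 ++ R2))) :: L2, C.length ≤ a := by
      intro C hC'
      rcases List.mem_append.1 hC' with h3 | h3
      · exact ha C (List.mem_append_left _ h3)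
      · rcases List.mem_cons.1 h3 with rfl | h3
        · simp only [List.length_cons, List.length_append] at hC ⊢
          omega
        · exact ha C (List.mem_append_right _ (List.mem_cons_of_mem _ h3))
    have hlen := len_mid L1 L2 (y :: (s ++ (R1 ++ R2))) (s ++ (R1 ++ y :: R2))
    have e1 : s ++ (R1 ++ y :: R2) = (s ++ R1) ++ y :: R2 := by simp
    have e2 : (s ++ R1) ++ R2 = s ++ (R1 ++ R2) := by simp
    have h3 := h.step (sx_fr y (s ++ R1) R2 L1 L2 (by rw [← e1]; exact Set.mem_insert _ _)) ((ml_depth _).trans (by omega)) (by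
      rw [e2]
      exact (ml_size_le hw).trans (by rw [hlen]; exact hB))
    rw [e2] at h3
    have h4 := dx_du (a := a) y L1 L2 (R1 ++ R2) s (k + 1) hw (by rw [hlen]; exact hB) (h3.mono le_rfl (ins_mono' (T' := T) subset_rfl))
    have hlR : (R1 ++ R2).length + 1 ≤ N := by
      simp only [List.length_append, List.length_cons] at hN ⊢
      omega
    have hfl : ((R1 ++ R2).filter fun x => x ≠ y).length ≤ (R1 ++ R2).length := List.length_filter_le _ _
    have hw2 : ∀ C ∈ L1 ++ (y :: (s ++ (R1 ++ R2).filter fun x => x ≠ y)) :: L2, C.length ≤ a := by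
      intro C hC'
      rcases List.mem_append.1 hC' with h5 | h5
      · exact ha C (List.mem_append_left _ h5)
      · rcases List.mem_cons.1 h5 with rfl | h5
        · rw [List.length_cons, List.length_append]
          simp only [List.length_cons, List.length_append] at hC hfl ⊢
          omega
        · exact ha C (List.mem_append_right _ (List.mem_cons_of_mem _ h5))
    have hlen2 := len_mid L1 L2 (y :: (s ++ (R1 ++ R2).filter fun x => x ≠ y)) (s ++ (R1 ++ y :: R2))
    have h5 := ih ((R1 ++ R2).filter fun x => x ≠ y) (y :: s) (k + 1 + (R1 ++ R2).length) hund (by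
      intro x hx
      rw [List.mem_filter] at hx
      have hxy : x ≠ y := by simpa using hx.2
      have hxR : x ∈ R1 ++ y :: R2 := by
        rcases List.mem_append.1 hx.1 with h6 | h6
        · exact List.mem_append_left _ h6
        · exact List.mem_append_right _ (List.mem_cons_of_mem _ h6)
      rcases List.mem_append.1 (h1 x hxR) with h6 | h6
      · exact h6
      · exact absurd (by simpa using h6) hxy) (by
      intro x hx
      have hxy : x ≠ y := fun h => hyu (h ▸ hx)
      rw [List.mem_filter]
      refine ⟨?_, by simpa using hxy⟩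
      rcases List.mem_append.1 (h2 x (List.mem_append_left _ hx)) with h6 | h6
      · exact List.mem_append_left _ h6
      · rcases List.mem_cons.1 h6 with rfl | h6
        · exact absurd rfl hxy
        · exact List.mem_append_right _ h6) (by omega) (by
        rw [List.cons_append]
        exact hw2) (by
        rw [List.cons_append, hlen2]
        exact hB) (by
        rw [List.cons_append]
        exact h4)
    have e3 : u ++ [y] ++ s = u ++ y :: s := by simp
    rw [e3]
    refine h5.mono ?_ subset_rfl
    have hul : (u ++ [y]).length = u.length + 1 := by simp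
    rw [hul]
    have : (u.length + 1) * (N + 1) = u.length * (N + 1) + (N + 1) := by ring
    omega

theorem dx_norm (L2 : List (List ℕ)) : ∀ (L1 : List (List ℕ)) (k : ℕ), (∀ C ∈ L1 ++ L2, C.length ≤ a) → 1 + (L1 ++ L2).length * (1 + a) ≤ B →
    Dv (SysX p) F 3 B k (insert (ml p (L1 ++ L2)) T) →
    Dv (SysX p) F 3 B (k + L2.length * (a * (a + 1))) (insert (ml p (L1 ++ L2.map nf)) T) := by
  induction L2 with
  | nil =>
    intro L1 k _ _ h
    exact h.mono (by omega) subset_rfl
  | cons C L2 ih =>
    intro L1 k ha hB h
    have hC : C.length ≤ a := ha C (by simp)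
    have hwid : ∀ D ∈ L1 ++ nf C :: L2, D.length ≤ a := by
      intro D hD
      rcases List.mem_append.1 hD with hD | hD
      · exact ha D (List.mem_append_left _ hD)
      · rcases List.mem_cons.1 hD with rfl | hD
        · exact (nf_len C).trans hC
        · exact ha D (List.mem_append_right _ (List.mem_cons_of_mem _ hD))
    have hlen := len_mid L1 L2 (nf C) C
    have h1 := dx_nf1 (a := a) L1 L2 (nf C) a C [] k (by
      unfold nf
      exact Finset.nodup_toList _) (fun x hx => mem_nf.2 hx) (fun x hx => mem_nf.1 hx) hC (by simpa using ha) (by simpa using hB) (by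
      simpa using h)
    rw [List.append_nil] at h1
    have e1 : L1 ++ nf C :: L2 = (L1 ++ [nf C]) ++ L2 := by simp
    have e2 : L1 ++ (C :: L2).map nf = (L1 ++ [nf C]) ++ L2.map nf := by simp
    rw [e1] at h1 hwid hlen
    have h2 := ih (L1 ++ [nf C]) _ hwid (by rw [hlen]; exact hB) h1
    rw [e2]
    refine h2.mono ?_ subset_rfl
    rw [List.length_cons]
    have h3 : (nf C).length * (a + 1) ≤ a * (a + 1) := Nat.mul_le_mul_right _ ((nf_len C).trans hC)
    have h4 : (L2.length + 1) * (a * (a + 1)) = L2.length * (a * (a + 1)) + a * (a + 1) := by ring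
    omega

/-! ### The end -/

theorem dx_red (hp : 1 ≤ p) : ∀ (n : ℕ) (M : List (List ℕ)), M.length ≤ n → (∀ C ∈ M, C.length ≤ a) → 1 + M.length * (1 + a) ≤ B →
    (∀ C ∈ M, C ≠ [] → p ∣ M.count C) → ¬ p ∣ M.count [] → ∀ k : ℕ, Dv (SysX p) F 3 B k (insert (ml p M) T) →
    Dv (SysX p) F 3 B (k + n + 1) (insert (cnL true []) T) := by
  intro n
  induction n with
  | zero =>
    intro M hM _ _ _ h0 k _
    have : M = [] := List.length_eq_zero_iff.1 (by omega)
    subst this
    exact absurd (dvd_zero p) h0
  | succ n ih =>
    intro M hM ha hB hC h0 k h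
    by_cases hex : ∃ C, p ≤ M.count C
    · obtain ⟨C, hCp⟩ := hex
      obtain ⟨g, gs, h1, h2⟩ := split_n C M p hCp
      have hlen : M.length = p + (g ++ gs.flatten).length := by rw [h2, len_split, h1]
      have hcnt : ∀ x, M.count x = (if C = x then p else 0) + (g ++ gs.flatten).count x := by
        intro x
        rw [h2, count_split, h1]
      have hmem : ∀ x ∈ g ++ gs.flatten, x ∈ M := by
        intro x hx
        have h3 : 0 < (g ++ gs.flatten).count x := List.count_pos_iff.2 hx
        have h4 := hcnt x
        exact List.count_pos_iff.1 (by omega)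
      have h3 := h.step (sx_rem C g gs h1 (by rw [← h2]; exact Set.mem_insert _ _)) ((ml_depth _).trans (by omega))
        ((ml_size_le fun D hD => ha D (hmem D hD)).trans (by
          have : (g ++ gs.flatten).length * (1 + a) ≤ M.length * (1 + a) := Nat.mul_le_mul_right _ (by omega)
          omega))
      have hdvd : ∀ x, p ∣ M.count x ↔ p ∣ (g ++ gs.flatten).count x := by
        intro x
        rw [hcnt x]
        refine Nat.dvd_add_right ?_
        split_ifs
        · exact dvd_refl p
        · exact dvd_zero p
      have h4 := ih (g ++ gs.flatten) (by omega) (fun D hD => ha D (hmem D hD)) (by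
          have : (g ++ gs.flatten).length * (1 + a) ≤ M.length * (1 + a) := Nat.mul_le_mul_right _ (by omega)
          omega) (fun D hD hne => (hdvd D).1 (hC D (hmem D hD) hne)) (fun h5 => h0 ((hdvd []).2 h5)) (k + 1)
          (h3.mono le_rfl (ins_mono' subset_rfl))
      exact h4.mono (by omega) subset_rfl
    · push Not at hex
      have hall : ∀ C ∈ M, C = [] := by
        intro C hCM
        by_contra hne
        have h1 := hC C hCM hne
        have h2 := Nat.eq_zero_of_dvd_of_lt h1 (hex C)
        have h3 : 0 < M.count C := List.count_pos_iff.2 hCM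
        omega
      have hrep : M = List.replicate M.length [] := List.eq_replicate_of_mem hall
      have hcnt : M.count [] = M.length := by
        conv_lhs => rw [hrep]
        rw [List.count_replicate_self]
      have hlt := hex []
      rw [hcnt] at hlt h0
      have hne : M.length ≠ 0 := fun h1 => h0 (by rw [h1]; exact dvd_zero p)
      have h1 := h.step (sx_bot (c := M.length) hlt hne (by rw [← hrep]; exact Set.mem_insert _ _)) (by
        unfold Fm.depth cnL
        rw [Fm.dep]
        simp) (by
        rw [size_cnL, List.map_nil, List.sum_nil]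
        omega)
      exact h1.mono (by omega) (ins_mono' subset_rfl)

end PPh.TU
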