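import Pool.Agent.H85.GX.Sys

/-!
helper85: a finite sound Frege system with `MOD_p` connectives in which Nullstellensatz refutations over `Z/p`, from axioms which say that exactly one
variable of a list is true, can be simulated (for all degrees): the single steps.
-/

set_option autoImplicit false
open Finset

namespace PPh.TU

open ACpFrege ACpB ACpSep PPh

variable {p : ℕ}

theorem Dv.dmono {S : List (Rule p)} {F : CNF} {d d' B B' k : ℕ} {T : Set (Fm p)} (h : Dv S F d B k T) (hd : d ≤ d') (hB : B ≤ B') :
    Dv S F d' B' k T := by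
  obtain ⟨π, h1, h2, h3⟩ := h
  exact ⟨π, ⟨fun A hA => ⟨(h1.1 A hA).1.trans hd, (h1.1 A hA).2.trans hB⟩, h1.2⟩, h2, h3⟩

/-- `¬z ∨ L`. -/
def wl (p z : ℕ) (L : List (List ℕ)) : Fm p := cnL true [.neg (.var z), ml p L]

/-- `z ∨ L`. -/
def ol (p z : ℕ) (L : List (List ℕ)) : Fm p := cnL true [.var z, ml p L]

theorem dep_ml (L : List (List ℕ)) (c : ℕ) : (ml p L).dep c ≤ 2 := by
  unfold ml mdL
  rw [Fm.dep]
  have h : (Finset.univ.sup fun i => ((L.map (cj p)).get i).dep 0) ≤ 1 := by
    refine Finset.sup_le fun i _ => ?_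
    have h1 := List.get_mem (L.map (cj p)) i
    rw [List.mem_map] at h1
    obtain ⟨C, _, h2⟩ := h1
    rw [← h2]
    exact dep_cj C 0
  omega

theorem dep_or3 (l : List (Fm p)) (h : ∀ A ∈ l, ∀ c, A.dep c ≤ 2) : (cnL true l).depth ≤ 3 := by
  unfold Fm.depth cnL
  rw [Fm.dep]
  have h0 : ∀ c : ℕ, (Finset.univ.sup fun i => (l.get i).dep c) ≤ 2 := fun c =>
    Finset.sup_le fun i _ => h _ (List.get_mem l i) c
  have h1 := h0 (if true = true then 2 else 3)
  have h2 : (if 0 = (if true = true then 2 else 3) then 0 else 1) ≤ 1 := by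
    split_ifs <;> omega
  exact (Nat.add_le_add h2 h1).trans (by omega)

theorem wl_depth (z : ℕ) (L : List (List ℕ)) : (wl p z L).depth ≤ 3 := by
  refine dep_or3 _ ?_
  intro A hA c
  simp only [List.mem_cons, List.not_mem_nil, or_false] at hA
  rcases hA with rfl | rfl
  · have h := dep_lit (p := p) (z, false) c
    simp only [Bool.false_eq_true, if_false] at h
    omega
  · exact dep_ml L c

theorem ol_depth (z : ℕ) (L : List (List ℕ)) : (ol p z L).depth ≤ 3 := by
  refine dep_or3 _ ?_
  intro A hA c
  simp only [List.mem_cons, List.not_mem_nil, or_false] at hA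
  rcases hA with rfl | rfl
  · rw [Fm.dep]
    omega
  · exact dep_ml L c

theorem wl_size (z : ℕ) (L : List (List ℕ)) : (wl p z L).size = 3 + (ml p L).size := by
  unfold wl
  rw [size_cnL]
  simp only [List.map_cons, List.map_nil, List.sum_cons, List.sum_nil, Fm.size]
  ring

theorem ol_size (z : ℕ) (L : List (List ℕ)) : (ol p z L).size = 2 + (ml p L).size := by
  unfold ol
  rw [size_cnL]
  simp only [List.map_cons, List.map_nil, List.sum_cons, List.sum_nil, Fm.size]
  ring

section steps

variable {F : CNF} {T : Set (Fm p)}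

theorem sub_X : ∀ R ∈ SysC p, R ∈ SysX p := fun _ hR => List.mem_append_left _ hR

theorem mem_X {R : Rule p} (h : R ∈ [rSum p 0 0, nRem p, xPair p, xSw p, xFr p, xDu p, xConv p, xOne p, xW p, xX p, xZ p, xZ1 p, xC p]) :
    R ∈ SysX p := List.mem_append_right _ (List.mem_append_left _ h)

theorem sx_emp : StepT (SysX p) F T (ml p []) := by
  refine Or.inr ⟨cEmp p, sub_X _ (by simp [SysC]), fun _ => .var 0, fun _ => [], ?_, ?_⟩
  · simp [cEmp, inst_mdS, ml]
  · intro P hP
    exact absurd hP (by simp [cEmp])

theorem sx_cat (L L' : List (List ℕ)) (h1 : ml p L ∈ T) (h2 : ml p L' ∈ T) : StepT (SysX p) F T (ml p (L ++ L')) := by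
  refine Or.inr ⟨rSum p 0 0, mem_X (by simp), fun _ => .var 0, fun j => if j = 0 then L.map (cj p) else L'.map (cj p), ?_, ?_⟩
  · unfold rSum
    rw [inst_mdS]
    simp [Sch.inst, ml]
  · intro P hP A hA
    unfold rSum at hP
    simp only [List.mem_cons, List.not_mem_nil, or_false] at hP
    rcases hP with rfl | rfl
    · rw [inst_mdS, List.mem_singleton] at hA
      rw [hA]
      simpa [Sch.inst, ml] using h1
    · rw [inst_mdS, List.mem_singleton] at hA
      rw [hA]
      simpa [Sch.inst, ml] using h2

theorem sx_rem (C : List ℕ) (g : List (List ℕ)) (Gs : List (List (List ℕ))) (hG : Gs.length = p)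
    (h : ml p (g ++ Gs.flatMap fun g => C :: g) ∈ T) : StepT (SysX p) F T (ml p (g ++ Gs.flatten)) := by
  refine Or.inr ⟨nRem p, mem_X (by simp), fun _ => cj p C, fun j => if j = p then g.map (cj p) else (Gs.getD j []).map (cj p), ?_, ?_⟩
  · unfold nRem
    rw [inst_mdS, List.flatMap_cons, List.flatMap_map]
    unfold ml
    congr 2
    have h1 := getD_flatMap Gs (fun g => g.map (cj p))
    rw [hG] at h1
    rw [List.map_append]
    congr 1
    · simp [Sch.inst]
    · rw [List.map_flatten, ← List.flatMap_def, ← h1]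
      refine List.flatMap_congr fun j hj => ?_
      have hj' : j ≠ p := fun h => by
        rw [List.mem_range] at hj
        omega
      simp only [Sch.inst, if_neg hj']
  · intro P hP A hA
    simp only [nRem, List.mem_cons, List.not_mem_nil, or_false] at hP
    subst hP
    rw [inst_mdS, List.mem_singleton] at hA
    rw [hA]
    have h1 := getD_flatMap Gs (fun g => (cj p C) :: g.map (cj p))
    rw [hG] at h1
    have h2 : ((Sch.sq p :: (List.range p).flatMap fun j => [(Sch.mv 0 : Sch p), Sch.sq j]).flatMap
        (Sch.inst (fun _ => cj p C) fun j => if j = p then g.map (cj p) else (Gs.getD j []).map (cj p))) =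
        (g ++ Gs.flatMap fun g => C :: g).map (cj p) := by
      rw [List.flatMap_cons, List.flatMap_assoc, List.map_append]
      congr 1
      · simp [Sch.inst]
      · rw [List.map_flatMap]
        have h3 : (Gs.flatMap fun a => (C :: a).map (cj p)) = Gs.flatMap fun g => cj p C :: g.map (cj p) := rfl
        rw [h3, ← h1]
        refine List.flatMap_congr fun j hj => ?_
        have hj' : j ≠ p := fun h => by
          rw [List.mem_range] at hj
          omega
        simp [Sch.inst, hj']
    rw [h2]
    exact h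

theorem sx_bot {c : ℕ} (hc : c < p) (h0 : c ≠ 0) (h : ml p (List.replicate c []) ∈ T) : StepT (SysX p) F T (cnL true []) := by
  refine Or.inr ⟨nBot p c, ?_, fun _ => .var 0, fun _ => [], ?_, ?_⟩
  · unfold SysX
    exact List.mem_append_right _ (List.mem_append_right _ (List.mem_map.2 ⟨c, List.mem_filter.2
      ⟨List.mem_range.2 hc, by simpa using h0⟩, rfl⟩))
  · unfold nBot
    rw [Sch.inst]
    simp
  · intro P hP A hA
    simp only [nBot, List.mem_cons, List.not_mem_nil, or_false] at hP
    subst hP
    rw [inst_mdS, List.mem_singleton] at hA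
    rw [hA]
    have h1 : ∀ n : ℕ, ((List.replicate n (anS [] : Sch p)).flatMap (Sch.inst (fun _ => Fm.var 0) fun _ => [])) =
        (List.replicate n ([] : List ℕ)).map (cj p) := by
      intro n
      induction n with
      | zero => rfl
      | succ n ih =>
        rw [List.replicate_succ, List.flatMap_cons, ih, inst_anS, List.replicate_succ, List.map_cons]
        rfl
    rw [h1]
    exact h

theorem sx_pair (e f : ℕ) (m : List ℕ) (h : EX.pr2 p e f ∈ T) : StepT (SysX p) F T (ml p [e :: f :: m]) := by
  refine Or.inr ⟨xPair p, mem_X (by simp), fun i => .var (if i = 0 then e else f), fun _ => m.map Fm.var, ?_, ?_⟩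
  · unfold xPair
    rw [inst_mdS, List.flatMap_cons, List.flatMap_nil, inst_anS]
    simp [Sch.inst, ml, cj]
  · intro P hP A hA
    simp only [xPair, List.mem_cons, List.not_mem_nil, or_false] at hP
    subst hP
    rw [inst_clS, List.mem_singleton] at hA
    rw [hA]
    simpa [EX.pr2] using h

theorem sx_sw (e f : ℕ) (h : EX.pr2 p e f ∈ T) : StepT (SysX p) F T (EX.pr2 p f e) := by
  refine Or.inr ⟨xSw p, mem_X (by simp), fun i => .var (if i = 0 then e else f), fun _ => [], ?_, ?_⟩
  · unfold xSw
    rw [inst_clS]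
    simp [EX.pr2]
  · intro P hP A hA
    simp only [xSw, List.mem_cons, List.not_mem_nil, or_false] at hP
    subst hP
    rw [inst_clS, List.mem_singleton] at hA
    rw [hA]
    simpa [EX.pr2] using h

theorem sx_fr (x : ℕ) (C1 C2 : List ℕ) (L1 L2 : List (List ℕ)) (h : ml p (L1 ++ (C1 ++ x :: C2) :: L2) ∈ T) :
    StepT (SysX p) F T (ml p (L1 ++ (x :: (C1 ++ C2)) :: L2)) := by
  refine Or.inr ⟨xFr p, mem_X (by simp), fun _ => .var x, fun j => if j = 0 then L1.map (cj p) else if j = 1 then C1.map Fm.var else
    if j = 2 then C2.map Fm.var else L2.map (cj p), ?_, ?_⟩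
  · unfold xFr
    rw [inst_mdS, List.flatMap_cons, List.flatMap_cons, List.flatMap_cons, List.flatMap_nil, inst_anS]
    simp [Sch.inst, ml, cj]
  · intro P hP A hA
    simp only [xFr, List.mem_cons, List.not_mem_nil, or_false] at hP
    subst hP
    rw [inst_mdS, List.flatMap_cons, List.flatMap_cons, List.flatMap_cons, List.flatMap_nil, inst_anS, List.mem_singleton] at hA
    rw [hA]
    simpa [Sch.inst, ml, cj] using h

theorem sx_du (x : ℕ) (C1 C2 : List ℕ) (L1 L2 : List (List ℕ)) (h : ml p (L1 ++ (x :: (C1 ++ x :: C2)) :: L2) ∈ T) :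
    StepT (SysX p) F T (ml p (L1 ++ (x :: (C1 ++ C2)) :: L2)) := by
  refine Or.inr ⟨xDu p, mem_X (by simp), fun _ => .var x, fun j => if j = 0 then L1.map (cj p) else if j = 1 then C1.map Fm.var else
    if j = 2 then C2.map Fm.var else L2.map (cj p), ?_, ?_⟩
  · unfold xDu
    rw [inst_mdS, List.flatMap_cons, List.flatMap_cons, List.flatMap_cons, List.flatMap_nil, inst_anS]
    simp [Sch.inst, ml, cj]
  · intro P hP A hA
    simp only [xDu, List.mem_cons, List.not_mem_nil, or_false] at hP
    subst hP
    rw [inst_mdS, List.flatMap_cons, List.flatMap_cons, List.flatMap_cons, List.flatMap_nil, inst_anS, List.mem_singleton] at hA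
    rw [hA]
    simpa [Sch.inst, ml, cj] using h

theorem sx_conv (x : ℕ) (L1 L2 : List (Fm p)) (h : mdL 1 (L1 ++ .var x :: L2) ∈ T) :
    StepT (SysX p) F T (mdL 1 (L1 ++ cj p [x] :: L2)) := by
  refine Or.inr ⟨xConv p, mem_X (by simp), fun _ => .var x, fun j => if j = 0 then L1 else L2, ?_, ?_⟩
  · unfold xConv
    rw [inst_mdS, List.flatMap_cons, List.flatMap_cons, List.flatMap_cons, List.flatMap_nil, inst_anS]
    simp [Sch.inst, cj]
  · intro P hP A hA
    simp only [xConv, List.mem_cons, List.not_mem_nil, or_false] at hP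
    subst hP
    rw [inst_mdS, List.flatMap_cons, List.flatMap_cons, List.flatMap_cons, List.flatMap_nil, List.mem_singleton] at hA
    rw [hA]
    simpa [Sch.inst] using h

theorem sx_one (L : List (List ℕ)) (h : mdL 1 (L.map (cj p)) ∈ T) :
    StepT (SysX p) F T (ml p (L ++ List.replicate (p - 1) [])) := by
  refine Or.inr ⟨xOne p, mem_X (by simp), fun _ => .var 0, fun _ => L.map (cj p), ?_, ?_⟩
  · unfold xOne
    rw [inst_mdS, List.flatMap_cons]
    have h1 : ∀ n : ℕ, ((List.replicate n (anS [] : Sch p)).flatMap (Sch.inst (fun _ => Fm.var 0) fun _ => L.map (cj p))) =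
        (List.replicate n ([] : List ℕ)).map (cj p) := by
      intro n
      induction n with
      | zero => rfl
      | succ n ih =>
        rw [List.replicate_succ, List.flatMap_cons, ih, inst_anS, List.replicate_succ, List.map_cons]
        rfl
    rw [h1]
    unfold ml
    rw [List.map_append]
    simp [Sch.inst]
  · intro P hP A hA
    simp only [xOne, List.mem_cons, List.not_mem_nil, or_false] at hP
    subst hP
    rw [inst_mdS, List.mem_singleton] at hA
    rw [hA]
    simpa [Sch.inst] using h

theorem sx_W (z : ℕ) (L : List (List ℕ)) (h : ml p L ∈ T) : StepT (SysX p) F T (wl p z L) := by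
  refine Or.inr ⟨xW p, mem_X (by simp), fun _ => .var z, fun _ => L.map (cj p), ?_, ?_⟩
  · unfold xW
    rw [inst_orS, List.flatMap_cons, List.flatMap_cons, List.flatMap_nil, inst_mdS]
    simp [Sch.inst, wl, ml]
  · intro P hP A hA
    simp only [xW, List.mem_cons, List.not_mem_nil, or_false] at hP
    subst hP
    rw [inst_mdS, List.mem_singleton] at hA
    rw [hA]
    simpa [Sch.inst, ml] using h

theorem sx_X (z : ℕ) (C : List ℕ) (L1 L2 : List (List ℕ)) (h : wl p z (L1 ++ C :: L2) ∈ T) :
    StepT (SysX p) F T (wl p z (L1 ++ (z :: C) :: L2)) := by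
  refine Or.inr ⟨xX p, mem_X (by simp), fun _ => .var z, fun j => if j = 0 then L1.map (cj p) else if j = 1 then C.map Fm.var else
    L2.map (cj p), ?_, ?_⟩
  · unfold xX
    rw [inst_orS, List.flatMap_cons, List.flatMap_cons, List.flatMap_nil, inst_mdS, List.flatMap_cons, List.flatMap_cons, List.flatMap_cons,
      List.flatMap_nil, inst_anS]
    simp [Sch.inst, wl, ml, cj]
  · intro P hP A hA
    simp only [xX, List.mem_cons, List.not_mem_nil, or_false] at hP
    subst hP
    rw [inst_orS, List.flatMap_cons, List.flatMap_cons, List.flatMap_nil, inst_mdS, List.flatMap_cons, List.flatMap_cons, List.flatMap_cons,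
      List.flatMap_nil, inst_anS, List.mem_singleton] at hA
    rw [hA]
    simpa [Sch.inst, wl, ml, cj] using h

theorem sx_Z (z : ℕ) : StepT (SysX p) F T (ol p z []) := by
  refine Or.inr ⟨xZ p, mem_X (by simp), fun _ => .var z, fun _ => [], ?_, ?_⟩
  · unfold xZ
    rw [inst_orS, List.flatMap_cons, List.flatMap_cons, List.flatMap_nil, inst_mdS]
    simp [Sch.inst, ol, ml]
  · intro P hP
    exact absurd hP (by simp [xZ])

theorem sx_Z1 (z : ℕ) (C : List ℕ) (L : List (List ℕ)) (h : ol p z L ∈ T) : StepT (SysX p) F T (ol p z (L ++ [z :: C])) := by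
  refine Or.inr ⟨xZ1 p, mem_X (by simp), fun _ => .var z, fun j => if j = 0 then L.map (cj p) else C.map Fm.var, ?_, ?_⟩
  · unfold xZ1
    rw [inst_orS, List.flatMap_cons, List.flatMap_cons, List.flatMap_nil, inst_mdS, List.flatMap_cons, List.flatMap_cons, List.flatMap_nil,
      inst_anS]
    simp [Sch.inst, ol, ml, cj]
  · intro P hP A hA
    simp only [xZ1, List.mem_cons, List.not_mem_nil, or_false] at hP
    subst hP
    rw [inst_orS, List.flatMap_cons, List.flatMap_cons, List.flatMap_nil, inst_mdS, List.mem_singleton] at hA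
    rw [hA]
    simpa [Sch.inst, ol, ml] using h

theorem sx_C (z : ℕ) (L : List (List ℕ)) (h1 : wl p z L ∈ T) (h2 : ol p z L ∈ T) : StepT (SysX p) F T (ml p L) := by
  refine Or.inr ⟨xC p, mem_X (by simp), fun i => if i = 0 then .var z else ml p L, fun _ => [], ?_, ?_⟩
  · simp [xC, Sch.inst]
  · intro P hP A hA
    simp only [xC, List.mem_cons, List.not_mem_nil, or_false] at hP
    rcases hP with rfl | rfl
    · rw [inst_orS, List.mem_singleton] at hA
      rw [hA]
      simpa [Sch.inst, wl] using h1
    · rw [inst_orS, List.mem_singleton] at hA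
      rw [hA]
      simpa [Sch.inst, ol] using h2

end steps

end PPh.TU
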