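import Pool.Agent.H85.GX.EX
import Pool.Agent.H85.GT.NsGen

/-!
helper85: a finite sound Frege system with `MOD_p` connectives in which Nullstellensatz refutations over `Z/p`, from axioms which say that exactly one
variable of a list is true, can be simulated (for all degrees): rules and steps.
-/

set_option autoImplicit false
open Finset

namespace PPh.TU

open ACpFrege ACpB ACpSep PPh

variable {p : ℕ}

/-- From `¬A ∨ ¬B` infer that the conjunction of `A`, `B` and others is 0. -/
def xPair (p : ℕ) : Rule p := ⟨[clS [(0, false), (1, false)]], mdS 0 [anS [.mv 0, .mv 1, .sq 0]]⟩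

/-- Exchange. -/
def xSw (p : ℕ) : Rule p := ⟨[clS [(0, false), (1, false)]], clS [(1, false), (0, false)]⟩

/-- Move a member of a conjunction to the front. -/
def xFr (p : ℕ) : Rule p := ⟨[mdS 0 [.sq 0, anS [.sq 1, .mv 0, .sq 2], .sq 3]], mdS 0 [.sq 0, anS [.mv 0, .sq 1, .sq 2], .sq 3]⟩

/-- Remove a repetition in a conjunction. -/
def xDu (p : ℕ) : Rule p := ⟨[mdS 0 [.sq 0, anS [.mv 0, .sq 1, .mv 0, .sq 2], .sq 3]], mdS 0 [.sq 0, anS [.mv 0, .sq 1, .sq 2], .sq 3]⟩

/-- Replace a formula by the conjunction with this single member. -/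
def xConv (p : ℕ) : Rule p := ⟨[mdS 1 [.sq 0, .mv 0, .sq 1]], mdS 1 [.sq 0, anS [.mv 0], .sq 1]⟩

/-- From `Γ = 1` infer `Γ + (p - 1) = 0`. -/
def xOne (p : ℕ) : Rule p := ⟨[mdS 1 [.sq 0]], mdS 0 (.sq 0 :: List.replicate (p - 1) (anS []))⟩

/-- Weakening. -/
def xW (p : ℕ) : Rule p := ⟨[mdS 0 [.sq 0]], orS [.neg (.mv 0), mdS 0 [.sq 0]]⟩

/-- If `A` is true then it can be added to a conjunction. -/
def xX (p : ℕ) : Rule p :=
  ⟨[orS [.neg (.mv 0), mdS 0 [.sq 0, anS [.sq 1], .sq 2]]], orS [.neg (.mv 0), mdS 0 [.sq 0, anS [.mv 0, .sq 1], .sq 2]]⟩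

/-- `A ∨ empty sum = 0`. -/
def xZ (p : ℕ) : Rule p := ⟨[], orS [.mv 0, mdS 0 []]⟩

/-- If `A` is false then a conjunction which contains `A` can be added to a sum. -/
def xZ1 (p : ℕ) : Rule p := ⟨[orS [.mv 0, mdS 0 [.sq 0]]], orS [.mv 0, mdS 0 [.sq 0, anS [.mv 0, .sq 1]]]⟩

/-- Cut. -/
def xC (p : ℕ) : Rule p := ⟨[orS [.neg (.mv 0), .mv 1], orS [.mv 0, .mv 1]], .mv 1⟩

/-- The system. -/
def SysX (p : ℕ) : List (Rule p) :=
  SysC p ++ ([rSum p 0 0, nRem p, xPair p, xSw p, xFr p, xDu p, xConv p, xOne p, xW p, xX p, xZ p, xZ1 p, xC p] ++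
    ((List.range p).filter fun c => c ≠ 0).map (nBot p))

/-! ### Soundness -/

theorem xPair_sound : (xPair p).Sound := by
  intro v w h b hb
  simp only [xPair, List.mem_singleton, forall_eq, ev_clS, ev_mdS, List.flatMap_cons, List.flatMap_nil, ev_anS, Sch.ev] at h hb
  rw [hb]
  cases h0 : v 0 <;> cases h1 : v 1 <;> simp_all

theorem xSw_sound : (xSw p).Sound := by
  intro v w h b hb
  simp only [xSw, List.mem_singleton, forall_eq, ev_clS] at h hb
  rw [hb]
  cases h0 : v 0 <;> cases h1 : v 1 <;> simp_all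

theorem xFr_sound : (xFr p).Sound := by
  intro v w h b hb
  simp only [xFr, List.mem_singleton, forall_eq, ev_mdS, List.flatMap_cons, List.flatMap_nil, ev_anS, Sch.ev] at h hb
  rw [hb]
  have e1 : ((w 1 ++ ([v 0] ++ (w 2 ++ []))).all id) = (([v 0] ++ (w 1 ++ (w 2 ++ []))).all id) := by
    simp only [List.all_append]
    cases v 0 <;> simp
  rw [e1] at h
  exact h

theorem xDu_sound : (xDu p).Sound := by
  intro v w h b hb
  simp only [xDu, List.mem_singleton, forall_eq, ev_mdS, List.flatMap_cons, List.flatMap_nil, ev_anS, Sch.ev] at h hb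
  rw [hb]
  have e1 : (([v 0] ++ (w 1 ++ ([v 0] ++ (w 2 ++ [])))).all id) = (([v 0] ++ (w 1 ++ (w 2 ++ []))).all id) := by
    simp only [List.all_append]
    cases v 0 <;> simp
  rw [e1] at h
  exact h

theorem xConv_sound : (xConv p).Sound := by
  intro v w h b hb
  simp only [xConv, List.mem_singleton, forall_eq, ev_mdS, List.flatMap_cons, List.flatMap_nil, ev_anS, Sch.ev] at h hb
  rw [hb]
  have e1 : (([v 0] ++ ([] : List Bool)).all id) = v 0 := by simp
  rw [e1]
  exact h

theorem xOne_sound (hp : 1 ≤ p) : (xOne p).Sound := by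
  intro v w h b hb
  simp only [xOne, List.mem_singleton, forall_eq, ev_mdS, List.flatMap_cons, List.flatMap_nil, Sch.ev, List.append_nil,
    decide_eq_true_eq] at h hb
  rw [hb, decide_eq_true_eq]
  have h1 : ∀ n : ℕ, ((List.replicate n (anS [] : Sch p)).flatMap (Sch.ev v w)) = List.replicate n true := by
    intro n
    induction n with
    | zero => rfl
    | succ n ih =>
      rw [List.replicate_succ, List.flatMap_cons, ih, ev_anS, List.replicate_succ]
      rfl
  rw [h1, List.count_append, List.count_replicate_self, Nat.cast_add, h, Nat.cast_sub hp]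
  simp

theorem xW_sound : (xW p).Sound := by
  intro v w h b hb
  simp only [xW, List.mem_singleton, forall_eq, ev_mdS, ev_orS, List.flatMap_cons, List.flatMap_nil, Sch.ev] at h hb
  rw [hb]
  cases h0 : v 0 <;> simp_all

theorem xX_sound : (xX p).Sound := by
  intro v w h b hb
  simp only [xX, List.mem_singleton, forall_eq, ev_mdS, ev_orS, List.flatMap_cons, List.flatMap_nil, Sch.ev, ev_anS] at h hb
  rw [hb]
  cases h0 : v 0 <;> simp_all

theorem xZ_sound : (xZ p).Sound := by
  intro v w _ b hb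
  simp only [xZ, ev_mdS, ev_orS, List.flatMap_cons, List.flatMap_nil, Sch.ev, List.mem_singleton] at hb
  rw [hb]
  simp

theorem xZ1_sound : (xZ1 p).Sound := by
  intro v w h b hb
  simp only [xZ1, List.mem_singleton, forall_eq, ev_mdS, ev_orS, List.flatMap_cons, List.flatMap_nil, Sch.ev, ev_anS] at h hb
  rw [hb]
  cases h0 : v 0 <;> simp_all

theorem xC_sound : (xC p).Sound := by
  intro v w h b hb
  simp only [xC, List.mem_cons, List.not_mem_nil, or_false, forall_eq_or_imp, forall_eq, ev_orS, List.flatMap_cons, List.flatMap_nil,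
    Sch.ev, List.append_nil, List.mem_singleton] at h hb
  rw [hb]
  cases h0 : v 0 <;> cases h1 : v 1 <;> simp_all

theorem sysX_sound (hp : 2 ≤ p) : ∀ R ∈ SysX p, R.Sound := by
  intro R hR
  unfold SysX at hR
  simp only [List.mem_append, List.mem_cons, List.not_mem_nil, or_false, List.mem_map, List.mem_filter] at hR
  rcases hR with hR | (rfl | rfl | rfl | rfl | rfl | rfl | rfl | rfl | rfl | rfl | rfl | rfl | rfl) | ⟨c, hc, rfl⟩
  · exact soundC p hp R hR
  · exact sum_sound 0 0
  · exact nRem_sound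
  · exact xPair_sound
  · exact xSw_sound
  · exact xFr_sound
  · exact xDu_sound
  · exact xConv_sound
  · exact xOne_sound (by omega)
  · exact xW_sound
  · exact xX_sound
  · exact xZ_sound
  · exact xZ1_sound
  · exact xC_sound
  · exact nBot_sound (List.mem_range.1 hc.1) (by simpa using hc.2)

end PPh.TU
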